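import Pool.Agent.X187.NSC.Core

set_option autoImplicit false

open MeasureTheory Set Filter Topology
open scoped InnerProductSpace

namespace Pool.Agent.X187.NSC

open H772R2.NSR (Frame)
open Pool.Agent.W795.TQ

section

variable {H K : Type} [NormedAddCommGroup H] [InnerProductSpace ℝ H] [CompleteSpace H]
  [NormedAddCommGroup K] [InnerProductSpace ℝ K] [CompleteSpace K]
  {W : Submodule ℝ (H × K)} {m : H → K} {C c ν T : ℝ}

/-- Weak openness of the set of the data with a strong solution, for sequences. -/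
theorem open_seq (Fr : Frame W m C) (Un : Univ W m c) (hν : 0 < ν) (hT : 0 < T)
    (hcomp : ∀ R : ℝ, TotallyBounded {v : H | ∃ z, (v, z) ∈ W ∧ ‖z‖ ≤ R})
    {R : ℝ} (hR0 : 0 ≤ R) {e : Dat H K} (he : FH T e.F e.F1)
    {v v1 : ℝ → H} {y y1 : ℝ → K} (Sv : Str W m ν T e.F v v1 y y1) (hv0 : v 0 = e.x) :
    ∃ N0 : ℝ, 0 < N0 ∧ ∀ d : ℕ → Dat H K,
      (∀ i, Adm W m ν T (d i)) → (∀ i, ‖(d i).z‖ ≤ R) → (∀ i, ‖(d i).F 0‖ ≤ R) →
      (∀ i, (∫ s in (0 : ℝ)..T, ‖(d i).F1 s‖ ^ 2) ≤ R) →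
      (∀ k, Tendsto (fun i => ⟪(d i).x, k⟫_ℝ) atTop (𝓝 ⟪e.x, k⟫_ℝ)) →
      (∀ t ∈ Icc 0 T, ∀ k, Tendsto (fun i => ⟪(d i).F t, k⟫_ℝ) atTop (𝓝 ⟪e.F t, k⟫_ℝ)) →
      ∀ η : ℝ, 0 < η → ∀ᶠ i in atTop, ∃ (u u1 : ℝ → H) (z z1 : ℝ → K),
      Str W m ν T (d i).F u u1 z z1 ∧ u 0 = (d i).x ∧ (∀ t ∈ Icc 0 T, ‖z t‖ ≤ N0) ∧
      ∀ t ∈ Icc 0 T, ‖u t - v t‖ ≤ η := by
  obtain ⟨N0, hN0, h⟩ := open_ultra Fr Un hν hT hcomp hR0 he Sv hv0
  refine ⟨N0, hN0, ?_⟩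
  intro d hd hR1 hR2 hR3 hx hFl η hη
  by_contra hcon
  have hfr := not_eventually.1 hcon
  have hne : (atTop ⊓ 𝓟 {i : ℕ | ¬ ∃ (u u1 : ℝ → H) (z z1 : ℝ → K),
      Str W m ν T (d i).F u u1 z z1 ∧ u 0 = (d i).x ∧ (∀ t ∈ Icc 0 T, ‖z t‖ ≤ N0) ∧
      ∀ t ∈ Icc 0 T, ‖u t - v t‖ ≤ η}).NeBot := frequently_mem_iff_neBot.1 hfr
  set U : Ultrafilter ℕ := Ultrafilter.of (atTop ⊓ 𝓟 {i : ℕ | ¬ ∃ (u u1 : ℝ → H) (z z1 : ℝ → K),
      Str W m ν T (d i).F u u1 z z1 ∧ u 0 = (d i).x ∧ (∀ t ∈ Icc 0 T, ‖z t‖ ≤ N0) ∧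
      ∀ t ∈ Icc 0 T, ‖u t - v t‖ ≤ η}) with hU
  have hle := Ultrafilter.of_le (atTop ⊓ 𝓟 {i : ℕ | ¬ ∃ (u u1 : ℝ → H) (z z1 : ℝ → K),
      Str W m ν T (d i).F u u1 z z1 ∧ u 0 = (d i).x ∧ (∀ t ∈ Icc 0 T, ‖z t‖ ≤ N0) ∧
      ∀ t ∈ Icc 0 T, ‖u t - v t‖ ≤ η})
  rw [← hU] at hle
  have h1 : (U : Filter ℕ) ≤ atTop := hle.trans inf_le_left
  -- the initial values converge strongly
  have hK : IsCompact (closure {v : H | ∃ z, (v, z) ∈ W ∧ ‖z‖ ≤ R}) :=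
    isCompact_iff_totallyBounded_isComplete.mpr
      ⟨(hcomp _).closure, isClosed_closure.isComplete⟩
  obtain ⟨x0, -, hx0⟩ := hK.ultrafilter_le_nhds (U.map (fun i => (d i).x)) (by
    rw [le_principal_iff]
    show _ ∈ Filter.map (fun i => (d i).x) (U : Filter ℕ)
    rw [Filter.mem_map]
    refine Filter.univ_mem' (fun i => ?_)
    exact subset_closure ⟨_, (hd i).mem, hR1 i⟩)
  have hx0' : Tendsto (fun i => (d i).x) U (𝓝 x0) := hx0
  have hx0e : x0 = e.x := by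
    refine ext_inner_right ℝ fun k => ?_
    exact tendsto_nhds_unique (hx0'.inner tendsto_const_nhds) ((hx k).mono_left h1)
  rw [hx0e] at hx0'
  have h2 := h ℕ U d hd hR1 hR2 hR3 hx0' (fun t ht k => (hFl t ht k).mono_left h1) η hη
  have h3 : ∀ᶠ i in (U : Filter ℕ), ¬ ∃ (u u1 : ℝ → H) (z z1 : ℝ → K),
      Str W m ν T (d i).F u u1 z z1 ∧ u 0 = (d i).x ∧ (∀ t ∈ Icc 0 T, ‖z t‖ ≤ N0) ∧
      ∀ t ∈ Icc 0 T, ‖u t - v t‖ ≤ η := (hle.trans inf_le_right) (mem_principal_self _)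
  obtain ⟨i, hi1, hi2⟩ := (h2.and h3).exists
  exact hi2 hi1

/-- The infimum of the size of the bad data. -/
noncomputable def rho (W : Submodule ℝ (H × K)) (m : H → K) (ν T : ℝ) : ℝ :=
  sInf {r : ℝ | ∃ d : Dat H K, Adm W m ν T d ∧ ¬ Good W m ν T d ∧ d.size T = r}

omit [CompleteSpace H] [CompleteSpace K] in
theorem rho_le (hT : 0 < T) {d : Dat H K} (hd : Adm W m ν T d) (hb : ¬ Good W m ν T d) :
    rho W m ν T ≤ d.size T := by
  refine csInf_le ⟨0, ?_⟩ ⟨d, hd, hb, rfl⟩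
  rintro r ⟨e, -, -, rfl⟩
  exact size_nonneg hT.le e

/-- A minimising family of bad data: the limit is bad data of minimal size, and the convergence is
strong. -/
theorem min_ultra {ι : Type} (Fr : Frame W m C) (Un : Univ W m c) (hν : 0 < ν) (hT : 0 < T)
    (hcomp : ∀ R : ℝ, TotallyBounded {v : H | ∃ z, (v, z) ∈ W ∧ ‖z‖ ≤ R})
    (U : Ultrafilter ι) {d : ι → Dat H K} (hd : ∀ i, Adm W m ν T (d i))
    (hb : ∀ i, ¬ Good W m ν T (d i)) {R : ℝ} (hR : ∀ i, (d i).size T ≤ R)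
    (hlim : Tendsto (fun i => (d i).size T) U (𝓝 (rho W m ν T))) :
    ∃ e : Dat H K, Adm W m ν T e ∧ ¬ Good W m ν T e ∧ e.size T = rho W m ν T ∧
      Tendsto (fun i => (d i).dsq T e) U (𝓝 0) ∧ Tendsto (fun i => (d i).x) U (𝓝 e.x) := by
  obtain ⟨e, he, hx, hFl, hs⟩ := weak_limit Fr hT hcomp U hd hR
  have hR0 : 0 ≤ R := by
    obtain ⟨i⟩ : Nonempty ι := by
      by_contra hne
      have := not_nonempty_iff.1 hne
      exact U.neBot.ne (Filter.filter_eq_bot_of_isEmpty _)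
    exact (size_nonneg hT.le (d i)).trans (hR i)
  have hbad : ¬ Good W m ν T e := by
    rintro ⟨v, v1, y, y1, Sv, hv0⟩
    have hsR := Real.sqrt_nonneg R
    obtain ⟨N0, hN0, h⟩ := open_ultra Fr Un hν hT hcomp (R := √R + R) (by positivity) he.force
      Sv hv0
    have hp := fun i => size_parts hT.le (hR i)
    obtain ⟨i, u, u1, z, z1, h1, h2, -⟩ := (h ι U d hd
      (fun i => (Real.le_sqrt_of_sq_le (hp i).1).trans (by linarith))
      (fun i => (Real.le_sqrt_of_sq_le (hp i).2.1).trans (by linarith))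
      (fun i => (hp i).2.2.1.trans (by linarith)) hx hFl 1 one_pos).exists
    exact hb i ⟨u, u1, z, z1, h1, h2⟩
  have h1 := hs _ hlim
  have h2 : 0 ≤ rho W m ν T - e.size T :=
    ge_of_tendsto h1 (Eventually.of_forall fun i => dsq_nonneg hT.le _ _)
  have h3 : e.size T = rho W m ν T := le_antisymm (by linarith) (rho_le hT he hbad)
  refine ⟨e, he, hbad, h3, ?_, hx⟩
  rw [h3, sub_self] at h1
  exact h1

/-- Data of size zero are not bad. -/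
theorem zero_good (Fr : Frame W m C) (hT : 0 < T) {d : Dat H K} (hd : Adm W m ν T d)
    (h : d.size T ≤ 0) : Good W m ν T d := by
  obtain ⟨h1, h2, h3, -⟩ := size_parts hT.le h
  have hz : d.z = 0 := by
    have : ‖d.z‖ = 0 := by nlinarith [norm_nonneg d.z]
    exact norm_eq_zero.1 this
  have hx : d.x = 0 := by
    have h4 := Fr.poinc _ hd.mem
    simp only [hz, norm_zero, mul_zero] at h4
    exact norm_eq_zero.1 (le_antisymm h4 (norm_nonneg _))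
  have hF : ∀ t ∈ Icc 0 T, d.F t = 0 := by
    intro t ht
    have h5 := force_le hT.le hd.force le_rfl (show ‖d.F 0‖ ≤ 0 by nlinarith [norm_nonneg (d.F 0)])
      h3 t ht
    rw [zero_mul, Real.sqrt_zero, add_zero] at h5
    exact norm_eq_zero.1 (le_antisymm h5 (norm_nonneg _))
  have hm0 : m 0 = 0 := by
    have h6 := Fr.quart _ W.zero_mem
    simp only [Prod.fst_zero, Prod.snd_zero, norm_zero] at h6
    have : ‖m 0‖ = 0 := by nlinarith [norm_nonneg (m 0)]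
    exact norm_eq_zero.1 this
  refine ⟨fun _ => 0, fun _ => 0, fun _ => 0, fun _ => 0, ⟨fun _ _ => W.zero_mem,
    Eventually.of_forall fun _ => W.zero_mem, ⟨0, by simp⟩, MemLp.zero', MemLp.zero',
    by simp, by simp, ?_, ?_⟩, hx.symm⟩
  · intro p _ t ht
    have e : ∫ s in (0 : ℝ)..t, ⟪d.F s - ν • (0 : K) + m 0, p.2⟫_ℝ = ∫ _ in (0 : ℝ)..t, (0 : ℝ) := by
      refine intervalIntegral.integral_congr fun s hs => ?_
      rw [uIcc_of_le ht.1] at hs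
      show ⟪d.F s - ν • (0 : K) + m 0, p.2⟫_ℝ = 0
      rw [hF s ⟨hs.1, hs.2.trans ht.2⟩, hm0]
      simp
    rw [e]
    simp
  · intro t _
    simp

/-- If there are bad data, then there are bad data of minimal size. -/
theorem min_bad (Fr : Frame W m C) (Un : Univ W m c) (hν : 0 < ν) (hT : 0 < T)
    (hcomp : ∀ R : ℝ, TotallyBounded {v : H | ∃ z, (v, z) ∈ W ∧ ‖z‖ ≤ R})
    (hbad : ∃ d : Dat H K, Adm W m ν T d ∧ ¬ Good W m ν T d) :
    ∃ e : Dat H K, Adm W m ν T e ∧ ¬ Good W m ν T e ∧ e.size T = rho W m ν T := by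
  have hne : {r : ℝ | ∃ d : Dat H K, Adm W m ν T d ∧ ¬ Good W m ν T d ∧ d.size T = r}.Nonempty := by
    obtain ⟨d, h1, h2⟩ := hbad
    exact ⟨_, d, h1, h2, rfl⟩
  have hex : ∀ n : ℕ, ∃ d : Dat H K, Adm W m ν T d ∧ ¬ Good W m ν T d ∧
      d.size T < rho W m ν T + 1 / ((n : ℝ) + 1) := by
    intro n
    obtain ⟨r, ⟨d, h1, h2, h3⟩, h4⟩ := exists_lt_of_csInf_lt hne
      (show sInf {r : ℝ | ∃ d : Dat H K, Adm W m ν T d ∧ ¬ Good W m ν T d ∧ d.size T = r}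
        < rho W m ν T + 1 / ((n : ℝ) + 1) from lt_add_of_pos_right _ (by positivity))
    exact ⟨d, h1, h2, h3 ▸ h4⟩
  choose d h1 h2 h3 using hex
  have hlim : Tendsto (fun n => (d n).size T) atTop (𝓝 (rho W m ν T)) := by
    refine tendsto_of_tendsto_of_tendsto_of_le_of_le tendsto_const_nhds ?_
      (fun n => rho_le hT (h1 n) (h2 n)) (fun n => (h3 n).le)
    have := tendsto_one_div_add_atTop_nhds_zero_nat (𝕜 := ℝ)
    simpa using this.const_add (rho W m ν T)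
  obtain ⟨e, k1, k2, k3, -⟩ := min_ultra Fr Un hν hT hcomp (hyperfilter ℕ) h1 h2
    (R := rho W m ν T + 1) (fun n => by
      have : 1 / ((n : ℝ) + 1) ≤ 1 := by
        rw [div_le_one (by positivity)]
        have : (0 : ℝ) ≤ n := by positivity
        linarith
      linarith [h3 n])
    (hlim.mono_left Nat.hyperfilter_le_atTop)
  exact ⟨e, k1, k2, k3⟩

theorem rho_pos (Fr : Frame W m C) (Un : Univ W m c) (hν : 0 < ν) (hT : 0 < T)
    (hcomp : ∀ R : ℝ, TotallyBounded {v : H | ∃ z, (v, z) ∈ W ∧ ‖z‖ ≤ R})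
    (hbad : ∃ d : Dat H K, Adm W m ν T d ∧ ¬ Good W m ν T d) : 0 < rho W m ν T := by
  obtain ⟨e, h1, h2, h3⟩ := min_bad Fr Un hν hT hcomp hbad
  rw [← h3]
  by_contra hcon
  exact h2 (zero_good Fr hT h1 (not_lt.1 hcon))

/-- Minimising sequences of bad data converge strongly along a subsequence. -/
theorem min_seq (Fr : Frame W m C) (Un : Univ W m c) (hν : 0 < ν) (hT : 0 < T)
    (hcomp : ∀ R : ℝ, TotallyBounded {v : H | ∃ z, (v, z) ∈ W ∧ ‖z‖ ≤ R})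
    {d : ℕ → Dat H K} (hd : ∀ i, Adm W m ν T (d i)) (hb : ∀ i, ¬ Good W m ν T (d i))
    (hlim : Tendsto (fun i => (d i).size T) atTop (𝓝 (rho W m ν T))) :
    ∃ (e : Dat H K) (φ : ℕ → ℕ), StrictMono φ ∧ Adm W m ν T e ∧ ¬ Good W m ν T e ∧
      e.size T = rho W m ν T ∧ Tendsto (fun i => (d (φ i)).dsq T e) atTop (𝓝 0) ∧
      Tendsto (fun i => (d (φ i)).x) atTop (𝓝 e.x) := by
  obtain ⟨R, hR⟩ := hlim.bddAbove_range
  obtain ⟨e, k1, k2, k3, k4, k5⟩ := min_ultra Fr Un hν hT hcomp (hyperfilter ℕ) hd hb (R := R)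
    (fun i => hR ⟨i, rfl⟩) (hlim.mono_left Nat.hyperfilter_le_atTop)
  have h1 : Tendsto (fun i => ((d i).dsq T e, (d i).x)) (hyperfilter ℕ) (𝓝 (0, e.x)) :=
    k4.prodMk_nhds k5
  have h2 : MapClusterPt ((0 : ℝ), e.x) atTop (fun i => ((d i).dsq T e, (d i).x)) := by
    have := h1.mapClusterPt
    exact this.mono Nat.hyperfilter_le_atTop
  obtain ⟨φ, h3, h4⟩ := h2.tendsto_subseq
  refine ⟨e, φ, h3, k1, k2, k3, ?_, ?_⟩
  · exact (continuous_fst.tendsto _).comp h4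
  · exact (continuous_snd.tendsto _).comp h4

end

end Pool.Agent.X187.NSC
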