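import Pool.Agent.X187.NSC.Equiv
import Pool.Agent.X187.NSC.Min
import Pool.Agent.W795.HE.Pub

set_option autoImplicit false

open MeasureTheory Set Filter Topology
open scoped InnerProductSpace ENNReal ContDiff

namespace Pool.Agent.X187.NSC

section abs

open H772R2.NSR (Frame prim_cont ae_deriv_of_prim memLp_ii hasDerivAt_prim)
open H772R2.NSG (mem_cont int_inner ii_of_int)
open Pool.Agent.W795.TQ

variable {H K : Type} [NormedAddCommGroup H] [InnerProductSpace ℝ H] [CompleteSpace H]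
  [NormedAddCommGroup K] [InnerProductSpace ℝ K] [CompleteSpace K]
  {W : Submodule ℝ (H × K)} {m : H → K} {C ν T : ℝ} {F : ℝ → K} {u u1 : ℝ → H} {z z1 : ℝ → K}

omit [CompleteSpace H] [CompleteSpace K] in
theorem mcont (Fr : Frame W m C) (hmem : ∀ t ∈ Icc 0 T, (u t, z t) ∈ W)
    (huc : ContinuousOn u (Icc 0 T)) (hzc : ContinuousOn z (Icc 0 T)) :
    ContinuousOn (fun s => m (u s)) (Icc 0 T) := by
  obtain ⟨Z, hZ⟩ := (isCompact_Icc.image_of_continuousOn hzc).isBounded.exists_norm_le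
  intro t ht
  rw [ContinuousWithinAt, tendsto_iff_norm_sub_tendsto_zero]
  have h1 : Tendsto (fun s => C * (‖u s - u t‖ * ‖z s - z t‖ ^ 3 * (Z + Z) ^ 4))
      (𝓝[Icc 0 T] t) (𝓝 (C * (0 * 0 ^ 3 * (Z + Z) ^ 4))) :=
    (((tendsto_iff_norm_sub_tendsto_zero.mp (huc t ht)).mul
      ((tendsto_iff_norm_sub_tendsto_zero.mp (hzc t ht)).pow 3)).mul_const _).const_mul _
  have e0 : C * (0 * 0 ^ 3 * (Z + Z) ^ 4) = 0 := by ring
  rw [e0] at h1
  rw [Metric.tendsto_nhds]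
  intro ε hε
  filter_upwards [h1.eventually (gt_mem_nhds (pow_pos hε 4)), self_mem_nhdsWithin] with s hs hsI
  rw [dist_zero_right, norm_norm]
  have h2 := Fr.lips _ (hmem s hsI) _ (hmem t ht)
  have h3 := hZ _ ⟨s, hsI, rfl⟩
  have h4 := hZ _ ⟨t, ht, rfl⟩
  have hC := Fr.C0
  refine lt_of_pow_lt_pow_left₀ 4 hε.le (lt_of_le_of_lt h2 (lt_of_le_of_lt ?_ hs))
  gcongr

/-- The energy equality follows from the weak form. -/
theorem energy_of_weak (Fr : Frame W m C) (hT : 0 < T) (hFc : ContinuousOn F (Icc 0 T))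
    (hmem : ∀ t ∈ Icc 0 T, (u t, z t) ∈ W)
    (hu1 : MemLp u1 2 (volume.restrict (Ioc 0 T))) (hz1 : MemLp z1 2 (volume.restrict (Ioc 0 T)))
    (hpu : ∀ a b, 0 ≤ a → a ≤ b → b ≤ T → u b - u a = ∫ s in a..b, u1 s)
    (hpz : ∀ a b, 0 ≤ a → a ≤ b → b ≤ T → z b - z a = ∫ s in a..b, z1 s)
    (hweak : ∀ p ∈ W, ∀ t ∈ Icc 0 T, ⟪u t - u 0, p.1⟫_ℝ
      = ∫ s in (0 : ℝ)..t, ⟪F s - ν • z s + m (u s), p.2⟫_ℝ) :
    ∀ t ∈ Icc 0 T, ‖u t‖ ^ 2 / 2 + ν * (∫ s in (0 : ℝ)..t, ‖z s‖ ^ 2)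
      = ‖u 0‖ ^ 2 / 2 + ∫ s in (0 : ℝ)..t, ⟪F s, z s⟫_ℝ := by
  have huc : ContinuousOn u (Icc 0 T) := prim_cont hu1 hpu
  have hzc : ContinuousOn z (Icc 0 T) := prim_cont hz1 hpz
  have hmc := mcont Fr hmem huc hzc
  have hgc : ContinuousOn (fun s => F s - ν • z s + m (u s)) (Icc 0 T) :=
    (hFc.sub (hzc.const_smul ν)).add hmc
  have hne : ∀ᵐ s ∂(volume.restrict (Ioc 0 T)), s ≠ T := by
    refine ae_restrict_of_ae ?_
    simp [ae_iff, measure_singleton]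
  have hdw : ∀ᵐ s ∂(volume.restrict (Ioc 0 T)), ∀ p ∈ W,
      ⟪u1 s, p.1⟫_ℝ = ⟪F s - ν • z s + m (u s), p.2⟫_ℝ := by
    filter_upwards [ae_deriv_of_prim hT (memLp_ii hT.le hu1) hpu,
      ae_restrict_mem measurableSet_Ioc, hne] with s hd hs hsT p hp
    have hs' : s ∈ Ioo 0 T := ⟨hs.1, lt_of_le_of_ne hs.2 hsT⟩
    have h1 : HasDerivAt (fun t => ⟪u t, p.1⟫_ℝ) ⟪u1 s, p.1⟫_ℝ s := by
      have := hd.inner ℝ (hasDerivAt_const s p.1)
      simpa using this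
    have h2 : HasDerivAt (fun t => ⟪u 0, p.1⟫_ℝ + ∫ r in (0 : ℝ)..t,
        ⟪F r - ν • z r + m (u r), p.2⟫_ℝ) ⟪F s - ν • z s + m (u s), p.2⟫_ℝ s :=
      (hasDerivAt_prim (β := fun r => ⟪F r - ν • z r + m (u r), p.2⟫_ℝ)
        (hgc.inner continuousOn_const) hs').const_add _
    refine h1.unique (h2.congr_of_eventuallyEq ?_)
    filter_upwards [Icc_mem_nhds hs'.1 hs'.2] with t ht
    rw [← hweak p hp t ht, inner_sub_left]
    ring
  intro t ht
  have h1 := Pool.Agent.W503.TQ.prod_rule hu1 hu1 hpu hpu le_rfl ht.1 ht.2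
  have e1 : ∫ s in (0 : ℝ)..t, ⟪u s, u1 s⟫_ℝ = ∫ s in (0 : ℝ)..t, ⟪u1 s, u s⟫_ℝ := by
    congr 1
    funext s
    exact real_inner_comm _ _
  rw [e1, real_inner_self_eq_norm_sq, real_inner_self_eq_norm_sq] at h1
  have hsub : (volume.restrict (Ioc 0 t) : Measure ℝ) ≤ volume.restrict (Ioc 0 T) :=
    Measure.restrict_mono (Ioc_subset_Ioc_right ht.2) le_rfl
  have e2 : ∫ s in (0 : ℝ)..t, ⟪u1 s, u s⟫_ℝ
      = ∫ s in (0 : ℝ)..t, (⟪F s, z s⟫_ℝ - ν * ‖z s‖ ^ 2) := by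
    rw [intervalIntegral.integral_of_le ht.1, intervalIntegral.integral_of_le ht.1]
    refine integral_congr_ae ?_
    filter_upwards [ae_mono hsub hdw, ae_restrict_mem measurableSet_Ioc] with s h2 h3
    have hsI : s ∈ Icc 0 T := ⟨h3.1.le, h3.2.trans ht.2⟩
    have h4 := h2 _ (hmem s hsI)
    have h5 := Fr.ortho _ (hmem s hsI)
    simp only at h4 h5
    rw [h4, inner_add_left, inner_sub_left, real_inner_smul_left, real_inner_self_eq_norm_sq, h5,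
      add_zero]
  have ii : ∀ {f : ℝ → ℝ}, ContinuousOn f (Icc 0 T) → IntervalIntegrable f volume 0 t :=
    fun hf => ContinuousOn.intervalIntegrable (by
      rw [uIcc_of_le ht.1]; exact hf.mono (Icc_subset_Icc_right ht.2))
  have c1 : ContinuousOn (fun r => ‖z r‖ ^ 2) (Icc 0 T) := hzc.norm.pow 2
  have c2 : ContinuousOn (fun r => ⟪F r, z r⟫_ℝ) (Icc 0 T) := hFc.inner hzc
  rw [intervalIntegral.integral_sub (ii c2) ((ii c1).const_mul ν),
    intervalIntegral.integral_const_mul] at e2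
  linarith

end abs

open H772R2.NS H772R2.NS.Pub H772R2.NSR H772R2.NSG
open Pool.Agent.W795.TQ Pool.Agent.W795.HE

/-- Strong solutions in terms of the public definition are strong solutions of the frame. -/
theorem str_of_strong {Ω : Set E3} (hΩ : IsOpen Ω) {C ν T : ℝ}
    (Fr : Frame (graphW Ω) (tensL (Ω := Ω)) C) (hT : 0 < T) {F F' : ℝ → L2M Ω}
    (hF : FH T F F') {u u1 : ℝ → L2V Ω} {z z1 : ℝ → L2M Ω}
    (S : IsStrong (show Set R3 from Ω) ν T F u u1 z z1) :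
    Str (graphW Ω) tensL ν T F u u1 z z1 := by
  have hm : MeasurableSet Ω := hΩ.measurableSet
  have hmem : ∀ t ∈ Icc 0 T, (u t, z t) ∈ graphW Ω := fun t ht => mem_pub.mpr (S.grad t ht)
  have hFc : ContinuousOn F (Icc 0 T) := prim_cont hF.memLp hF.prim
  have huc : ContinuousOn u (Icc 0 T) := prim_cont S.hu.memLp S.hu.prim
  have hzc : ContinuousOn z (Icc 0 T) := prim_cont S.hG.memLp S.hG.prim
  have hmc := mcont Fr hmem huc hzc
  have hgc : ContinuousOn (fun s => F s - ν • z s + tensL (u s)) (Icc 0 T) :=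
    (hFc.sub (hzc.const_smul ν)).add hmc
  have hGi : Integrable (fun s => F s - ν • z s + tensL (u s)) (volume.restrict (Ioc 0 T)) :=
    (mem_cont (p := 1) hgc).integrable le_rfl
  have hweak : ∀ p ∈ graphW Ω, ∀ t ∈ Icc 0 T, ⟪u t - u 0, p.1⟫_ℝ
      = ∫ s in (0 : ℝ)..t, ⟪F s - ν • z s + tensL (u s), p.2⟫_ℝ := by
    intro p hp t ht
    have hGt : Integrable (fun s => F s - ν • z s + tensL (u s)) (volume.restrict (Ioc 0 t)) :=
      hGi.mono_measure (Measure.restrict_mono (Ioc_subset_Ioc_right ht.2) le_rfl)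
    set I : L2M Ω := ∫ s in (0 : ℝ)..t, (F s - ν • z s + tensL (u s)) with hI
    have hint : ∀ q : L2V Ω × L2M Ω, ∫ s in (0 : ℝ)..t, ⟪F s - ν • z s + tensL (u s), q.2⟫_ℝ
        = ⟪I, q.2⟫_ℝ := by
      intro q
      rw [hI, intervalIntegral.integral_of_le ht.1, intervalIntegral.integral_of_le ht.1]
      have := integral_inner (𝕜 := ℝ) hGt q.2
      rw [real_inner_comm, ← this]
      exact integral_congr_ae (Eventually.of_forall fun s => real_inner_comm _ _)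
    have key := graphW_induction (fun q : L2V Ω × L2M Ω => ⟪u t - u 0, q.1⟫_ℝ - ⟪I, q.2⟫_ℝ)
      (by fun_prop) (by
      rintro q ⟨φ, k1, k2, k3⟩
      have e := S.eqn φ ((isTest_iff φ).mpr k1) t ht
      have e1 := pub_inner (Ω := Ω) (u t) k2
      have e2 := pub_inner (Ω := Ω) (u 0) k2
      have e3 : ∫ s in (0 : ℝ)..t, Pub.rhs (Ω := Ω) ν (u s) (z s) (F s) φ
          = ∫ s in (0 : ℝ)..t, ⟪F s - ν • z s + tensL (u s), q.2⟫_ℝ := by
        refine intervalIntegral.integral_congr ?_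
        intro s hs
        rw [uIcc_of_le ht.1] at hs
        exact pub_rhs hm ν (F s) (hmem s ⟨hs.1, hs.2.trans ht.2⟩) k3
      have h2 : ⟪u t - u 0, q.1⟫_ℝ = ⟪u t, q.1⟫_ℝ - ⟪u 0, q.1⟫_ℝ := inner_sub_left _ _ _
      have e' := ((congrArg₂ (· - ·) e1 e2).symm.trans e).trans (e3.trans (hint q))
      show ⟪u t - u 0, q.1⟫_ℝ - ⟪I, q.2⟫_ℝ = 0
      rw [h2]
      exact sub_eq_zero.mpr e') hp
    have key' : ⟪u t - u 0, p.1⟫_ℝ = ⟪I, p.2⟫_ℝ := sub_eq_zero.mp key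
    rw [key', ← hint p]
  refine ⟨hmem, ?_, S.bdd, S.hu.memLp, S.hG.memLp, S.hu.prim, S.hG.prim, hweak,
    energy_of_weak Fr hT hFc hmem S.hu.memLp S.hG.memLp S.hu.prim S.hG.prim hweak⟩
  filter_upwards [S.gradDeriv] with t ht
  exact mem_pub.mpr ht

/-- Leray-Hopf solutions of the frame, in terms of the public definition. -/
theorem lerayHopf_of_lh {Ω : Set E3} (hΩ : IsOpen Ω) {ν T : ℝ} {F : ℝ → L2M Ω}
    {u : ℝ → L2V Ω} {z : ℝ → L2M Ω}
    (L : LH (graphW Ω) (tensL (Ω := Ω)) T (fun _ => ν) F (u 0) u z) :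
    IsLerayHopf (show Set R3 from Ω) ν T F u z := by
  have hm : MeasurableSet Ω := hΩ.measurableSet
  refine ⟨L.meas, ?_, L.z2, ?_, ?_⟩
  · filter_upwards [L.mem] with t ht
    exact mem_pub.mp ht
  · intro φ hφ t ht
    obtain ⟨p, hp, hp1, hp2⟩ := exists_pair (Ω := Ω) ((isTest_iff φ).mp hφ)
    have h1 := L.weak p hp t ht
    have e1 := pub_inner (Ω := Ω) (u t) hp1
    have e2 := pub_inner (Ω := Ω) (u 0) hp1
    have h2 : ⟪u t - u 0, p.1⟫_ℝ = ⟪u t, p.1⟫_ℝ - ⟪u 0, p.1⟫_ℝ := inner_sub_left _ _ _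
    have e3 : ∫ s in (0 : ℝ)..t, Pub.rhs (Ω := Ω) ν (u s) (z s) (F s) φ
        = ∫ s in (0 : ℝ)..t, ⟪F s - ν • z s + tensL (u s), p.2⟫_ℝ := by
      rw [intervalIntegral.integral_of_le ht.1, intervalIntegral.integral_of_le ht.1]
      refine integral_congr_ae ?_
      filter_upwards [ae_mono (Measure.restrict_mono (Ioc_subset_Ioc_right ht.2) le_rfl) L.mem]
        with s hs
      exact pub_rhs hm ν (F s) hs hp2
    refine (congrArg₂ (· - ·) e1 e2).trans ?_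
    refine Eq.trans ?_ e3.symm
    rw [← h1, h2]
  · intro t ht
    have h1 := L.energy t ht
    rw [intervalIntegral.integral_const_mul] at h1
    exact h1

/-- The compatibility condition. -/
theorem comp_iff {Ω : Set E3} (hΩ : IsOpen Ω) {ν : ℝ} {x g : L2V Ω} {y f : L2M Ω}
    (h : (x, y) ∈ graphW Ω) :
    (∀ φ : R3 → R3, Pub.IsTest (show Set R3 from Ω) φ →
      Pub.rhs (Ω := Ω) ν x y f φ = ∫ t in (show Set R3 from Ω), ⟪L2.fn (Ω := Ω) (E := R3) g t, φ t⟫_ℝ)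
    ↔ ∀ p ∈ graphW Ω, ⟪f - ν • y + tensL x, p.2⟫_ℝ = ⟪g, p.1⟫_ℝ := by
  have hm : MeasurableSet Ω := hΩ.measurableSet
  constructor
  · intro hg
    refine compat_ext ?_
    rintro p ⟨φ, k1, k2, k3⟩
    rw [← pub_rhs hm ν f h k3, ← pub_inner (Ω := Ω) g k2]
    exact hg φ ((isTest_iff φ).mpr k1)
  · intro hg φ hφ
    obtain ⟨p, hp, hp1, hp2⟩ := exists_pair (Ω := Ω) ((isTest_iff φ).mp hφ)
    have h1 := hg p hp
    exact (pub_rhs hm ν f h hp2).trans (h1.trans (pub_inner (Ω := Ω) g hp1).symm)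

end Pool.Agent.X187.NSC
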