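import Pool.Agent.X187.NSC.Fam

set_option autoImplicit false

open MeasureTheory Set Filter Topology
open scoped InnerProductSpace

namespace Pool.Agent.X187.NSC

open H772R2.NSR (Frame prim_cont ae_deriv_of_prim memLp_ii joint_cont joint_int m_tendsto unif
  exists_weak_limit mem_of_weak_limit int_sq_le)
open Pool.Agent.W795.TQ

theorem hasDeriv_sq {H : Type} [NormedAddCommGroup H] [InnerProductSpace ℝ H] {w : ℝ → H}
    {t L D : ℝ} (hL : ∀ᶠ s in 𝓝 t, ‖w s - w t‖ ≤ L * |s - t|)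
    (h : HasDerivAt (fun s => ⟪w s, w t⟫_ℝ) D t) :
    HasDerivAt (fun s => ‖w s‖ ^ 2) (2 * D) t := by
  have h1 : HasDerivAt (fun s => ‖w s - w t‖ ^ 2) 0 t := by
    rw [hasDerivAt_iff_isLittleO]
    have h2 : (fun s : ℝ => ‖s - t‖ ^ 2) =o[𝓝 t] fun s => s - t :=
      Asymptotics.isLittleO_pow_sub_sub t one_lt_two
    refine Asymptotics.IsBigO.trans_isLittleO ?_ h2
    refine Asymptotics.IsBigO.of_bound (L ^ 2) ?_
    filter_upwards [hL] with s hs
    simp only [sub_self, norm_zero, smul_zero, sub_zero, Real.norm_eq_abs, abs_pow,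
      abs_abs]
    have h3 : ‖w s - w t‖ ^ 2 ≤ (L * |s - t|) ^ 2 := by gcongr
    have h4 : (L * |s - t|) ^ 2 = L ^ 2 * (s - t) ^ 2 := by rw [mul_pow, sq_abs]
    norm_num
    linarith
  have h2 := ((h.const_mul 2).sub_const (‖w t‖ ^ 2)).add h1
  rw [add_zero] at h2
  refine h2.congr_of_eventuallyEq (Eventually.of_forall fun s => ?_)
  show ‖w s‖ ^ 2 = 2 * ⟪w s, w t⟫_ℝ - ‖w t‖ ^ 2 + ‖w s - w t‖ ^ 2
  rw [norm_sub_sq_real]
  ring

/-- Gronwall on a compact interval. -/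
theorem gron_sq {a b κ : ℝ} {φ φ' : ℝ → ℝ} (hab : a ≤ b) (hφ : ContinuousOn φ (Icc a b))
    (hd : ∀ t ∈ Ioo a b, HasDerivAt φ (φ' t) t) (hle : ∀ t ∈ Ioo a b, φ' t ≤ κ * φ t) :
    φ b ≤ φ a * Real.exp (κ * (b - a)) := by
  have hanti : AntitoneOn (fun t => φ t * Real.exp (-(κ * (t - a)))) (Icc a b) := by
    have hdd : ∀ s ∈ Ioo a b, HasDerivAt (fun t => φ t * Real.exp (-(κ * (t - a))))
        (φ' s * Real.exp (-(κ * (s - a))) + φ s * (Real.exp (-(κ * (s - a))) * -κ)) s := by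
      intro s hs
      have h1 : HasDerivAt (fun t : ℝ => -(κ * (t - a))) (-(κ * 1)) s :=
        (((hasDerivAt_id s).sub_const a).const_mul κ).neg
      rw [mul_one] at h1
      exact (hd s hs).mul h1.exp
    refine antitoneOn_of_deriv_nonpos (convex_Icc a b) ?_ ?_ ?_
    · exact hφ.mul (by fun_prop)
    · intro s hs
      rw [interior_Icc] at hs
      exact (hdd s hs).differentiableAt.differentiableWithinAt
    · intro s hs
      rw [interior_Icc] at hs
      rw [(hdd s hs).deriv]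
      have h1 := hle s hs
      have h2 := Real.exp_pos (-(κ * (s - a)))
      nlinarith
  have h1 := hanti (left_mem_Icc.2 hab) (right_mem_Icc.2 hab) hab
  simp only [sub_self, mul_zero, neg_zero, Real.exp_zero, mul_one] at h1
  rw [Real.exp_neg, ← div_eq_mul_inv, div_le_iff₀ (Real.exp_pos _)] at h1
  exact h1

section

variable {H K : Type} [NormedAddCommGroup H] [InnerProductSpace ℝ H] [CompleteSpace H]
  [NormedAddCommGroup K] [InnerProductSpace ℝ K] [CompleteSpace K]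
  {W : Submodule ℝ (H × K)} {m : H → K} {C c ν T Φ G N : ℝ} {ι : Type}
  {τ : ι → ℝ} {F F1 : ι → ℝ → K} {u u1 : ι → ℝ → H} {z z1 : ι → ℝ → K}

theorem str_mc {F F1 : ℝ → K} {u u1 : ℝ → H} {z z1 : ℝ → K} (Fr : Frame W m C) (hF : FH T F F1)
    (S : Str W m ν T F u u1 z z1) : ContinuousOn (fun s => m (u s)) (Icc 0 T) := by
  obtain ⟨Z, hSt⟩ := Pool.Agent.W503.TQ.toSt (prim_cont hF.memLp hF.prim) S
  exact hSt.mc Fr

theorem str_gc {F F1 : ℝ → K} {u u1 : ℝ → H} {z z1 : ℝ → K} (Fr : Frame W m C) (hF : FH T F F1)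
    (S : Str W m ν T F u u1 z z1) (k : K) :
    ContinuousOn (fun s => ⟪F s - ν • z s + m (u s), k⟫_ℝ) (Icc 0 T) :=
  (((prim_cont hF.memLp hF.prim).sub ((prim_cont S.z1m S.pz).const_smul ν)).add
    (str_mc Fr hF S)).inner continuousOn_const

theorem str_weak_ab {F F1 : ℝ → K} {u u1 : ℝ → H} {z z1 : ℝ → K} (Fr : Frame W m C)
    (hF : FH T F F1) (S : Str W m ν T F u u1 z z1) {p : H × K} (hp : p ∈ W) {a b : ℝ}
    (ha : 0 ≤ a) (hab : a ≤ b) (hb : b ≤ T) :
    ⟪u b - u a, p.1⟫_ℝ = ∫ s in a..b, ⟪F s - ν • z s + m (u s), p.2⟫_ℝ := by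
  have hg := str_gc Fr hF S p.2
  have h1 := S.weak p hp a ⟨ha, hab.trans hb⟩
  have h2 := S.weak p hp b ⟨ha.trans hab, hb⟩
  have ii : ∀ t ∈ Icc 0 T, IntervalIntegrable
      (fun s => ⟪F s - ν • z s + m (u s), p.2⟫_ℝ) volume 0 t := fun t ht =>
    ContinuousOn.intervalIntegrable (by
      rw [uIcc_of_le ht.1]; exact hg.mono (Icc_subset_Icc_right ht.2))
  rw [← intervalIntegral.integral_interval_sub_left (ii b ⟨ha.trans hab, hb⟩)
    (ii a ⟨ha, hab.trans hb⟩), ← h1, ← h2, ← inner_sub_left]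
  congr 1
  abel

set_option maxHeartbeats 4000000 in
/-- Uniform closeness in `L²`. -/
theorem fam_close (Fr : Frame W m C) (Un : Univ W m c) (hν : 0 < ν) (hT : 0 < T)
    (hΦ : 0 ≤ Φ) (hG : 0 ≤ G) (hN : 0 ≤ N) (S : Fam W m ν T Φ G N τ F F1 u u1 z z1)
    (U : Ultrafilter ι)
    (hcomp : ∀ R : ℝ, TotallyBounded {v : H | ∃ z, (v, z) ∈ W ∧ ‖z‖ ≤ R})
    {Fv Fv1 : ℝ → K} {v v1 : ℝ → H} {y y1 : ℝ → K} (hFv : FH T Fv Fv1)
    (Sv : Str W m ν T Fv v v1 y y1) (h0 : Tendsto (fun i => u i 0) U (𝓝 (v 0)))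
    (hFl : ∀ t ∈ Icc 0 T, ∀ k, Tendsto (fun i => ⟪F i t, k⟫_ℝ) U (𝓝 ⟪Fv t, k⟫_ℝ)) :
    ∀ η : ℝ, 0 < η → ∀ᶠ i in U, ∀ t ∈ Icc 0 (τ i), ‖u i t - v t‖ ≤ η := by
  obtain ⟨A, B⟩ := S.exists_bd Fr Un hν hT hΦ hG hN
  have hA := B.A0
  have hex : ∀ t : ℝ, ∃ (x : H) (q : K), 0 ≤ t → ((x, q) ∈ W ∧ ‖q‖ ≤ N ∧
      Tendsto (fun i => u i (min t (τ i))) U (𝓝 x) ∧
      ∀ k : K, Tendsto (fun i => ⟪z i (min t (τ i)), k⟫_ℝ) U (𝓝 ⟪q, k⟫_ℝ)) := by
    intro t
    by_cases ht : 0 ≤ t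
    · obtain ⟨x, q, h⟩ := S.ptwise Fr U hcomp ht
      exact ⟨x, q, fun _ => h⟩
    · exact ⟨0, 0, fun h => absurd h ht⟩
  choose x q hxq using hex
  -- the limit of the final times
  obtain ⟨σ, hσ, hσl⟩ := (isCompact_Icc (a := (0 : ℝ)) (b := T)).ultrafilter_le_nhds (U.map τ) (by
    rw [le_principal_iff]
    show _ ∈ Filter.map τ (U : Filter ι)
    rw [Filter.mem_map]
    exact Filter.univ_mem' fun i => ⟨(S.τ0 i).le, S.τT i⟩)
  have hσt : Tendsto τ U (𝓝 σ) := hσl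
  obtain ⟨hun, hxc⟩ := unif (F := (U : Filter ι)) (T := T) (f := fun i t => u i (min t (τ i)))
    (g := x) (equi_of_half (S.halfU B)) (fun t ht => (hxq t ht.1).2.2.1)
  have hx0 : x 0 = v 0 := by
    refine tendsto_nhds_unique (hxq 0 le_rfl).2.2.1 (h0.congr fun i => ?_)
    rw [min_eq_left (S.τ0 i).le]
  have hvc : ContinuousOn v (Icc 0 T) := prim_cont Sv.u1m Sv.pu
  obtain ⟨V, hV⟩ := Sv.bd
  have hyc : ContinuousOn y (Icc 0 T) := prim_cont Sv.z1m Sv.pz
  obtain ⟨Y, hY⟩ := (isCompact_Icc.image_of_continuousOn hyc).isBounded.exists_norm_le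
  have hY' : ∀ t ∈ Icc 0 T, ‖y t‖ ≤ Y := fun t ht => hY _ ⟨t, ht, rfl⟩
  have hY0 : 0 ≤ Y := (norm_nonneg _).trans (hY' 0 ⟨le_rfl, hT.le⟩)
  set κ : ℝ := 2 * ((c * Y) ^ 4 / ν ^ 3) with hκ
  -- the comparison
  have hcmp : ∀ a b : ℝ, 0 < a → a < b → b < σ → ‖x b - v b‖ ^ 2
      ≤ ‖x a - v a‖ ^ 2 * Real.exp (κ * (b - a)) := by
    intro a b ha hab hbσ
    have hbT : b ≤ T := hbσ.le.trans hσ.2
    have hIab : Icc a b ⊆ Icc 0 T := Icc_subset_Icc ha.le hbT
    have hev : ∀ᶠ i in U, b < τ i := hσt.eventually (lt_mem_nhds hbσ)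
    -- joint convergence
    have jU : ∀ t ∈ Icc a b, Tendsto (fun p : ι × ℝ => u p.1 (min p.2 (τ p.1)))
        ((U : Filter ι) ×ˢ 𝓝[Icc a b] t) (𝓝 (x t)) := fun t ht =>
      joint_of_equi' (f := fun i t => u i (min t (τ i))) (equi_of_half (M := A)
        (fun i s hs t ht hst => S.halfU B i s (hIab hs) t (hIab ht) hst)) ht
        (hxq t (ha.le.trans ht.1)).2.2.1
    have jIn : ∀ t, ∀ᶠ p : ι × ℝ in (U : Filter ι) ×ˢ 𝓝[Icc a b] t, p.2 ∈ Icc a b := fun t =>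
      Filter.tendsto_snd.eventually self_mem_nhdsWithin
    have jM : ∀ t ∈ Icc a b, Tendsto (fun p : ι × ℝ => m (u p.1 (min p.2 (τ p.1))))
        ((U : Filter ι) ×ˢ 𝓝[Icc a b] t) (𝓝 (m (x t))) := by
      intro t ht
      have hq := hxq t (ha.le.trans ht.1)
      refine m_tendsto Fr (z := fun p : ι × ℝ => z p.1 (min p.2 (τ p.1))) (s1 := N) hq.2.1 hq.1
        ?_ ?_ (jU t ht)
      · filter_upwards [jIn t] with p hp
        exact S.zb p.1 _ (min_mem (ha.le.trans hp.1) (S.τ0 p.1).le)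
      · filter_upwards [jIn t] with p hp
        exact (S.str p.1).mem _ (min_mem (ha.le.trans hp.1) (S.τ0 p.1).le)
    have scal : ∀ {M : ℝ} {f : ι → ℝ → K} (k : K), (∀ i, ∀ s ∈ Icc a b, ∀ t ∈ Icc a b, s ≤ t →
        ‖f i t - f i s‖ ^ 2 ≤ M * (t - s)) → ∀ i, ∀ s ∈ Icc a b, ∀ t ∈ Icc a b, s ≤ t →
        ‖⟪f i t, k⟫_ℝ - ⟪f i s, k⟫_ℝ‖ ^ 2 ≤ (M * ‖k‖ ^ 2) * (t - s) := by
      intro M f k hf i s hs t ht hst
      rw [← inner_sub_left]
      have h1 : ‖⟪f i t - f i s, k⟫_ℝ‖ ≤ ‖f i t - f i s‖ * ‖k‖ := norm_inner_le_norm _ _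
      calc ‖⟪f i t - f i s, k⟫_ℝ‖ ^ 2 ≤ (‖f i t - f i s‖ * ‖k‖) ^ 2 := by gcongr
        _ = ‖f i t - f i s‖ ^ 2 * ‖k‖ ^ 2 := by ring
        _ ≤ (M * (t - s)) * ‖k‖ ^ 2 := by
          have := hf i s hs t ht hst
          gcongr
        _ = _ := by ring
    have jZ : ∀ k : K, ∀ t ∈ Icc a b, Tendsto (fun p : ι × ℝ => ⟪z p.1 (min p.2 (τ p.1)), k⟫_ℝ)
        ((U : Filter ι) ×ˢ 𝓝[Icc a b] t) (𝓝 ⟪q t, k⟫_ℝ) := fun k t ht =>
      joint_of_equi' (f := fun i t => ⟪z i (min t (τ i)), k⟫_ℝ) (g := fun t => ⟪q t, k⟫_ℝ)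
        (equi_of_half (scal k (f := fun i t => z i (min t (τ i)))
          (fun i s hs t ht hst => S.halfZ B ha i s ⟨hs.1, hs.2.trans hbT⟩ t
            ⟨ht.1, ht.2.trans hbT⟩ hst))) ht
        ((hxq t (ha.le.trans ht.1)).2.2.2 k)
    have hFhalf : ∀ i, ∀ s ∈ Icc a b, ∀ t ∈ Icc a b, s ≤ t →
        ‖F i t - F i s‖ ^ 2 ≤ G * (t - s) := by
      intro i s hs t ht hst
      refine prim_half (S.FH i).memLp (S.FH i).prim (hIab hs).1 hst (hIab ht).2 ?_
      exact int_sub_le ((memLp_two_iff_integrable_sq_norm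
        (S.FH i).memLp.aestronglyMeasurable).mp (S.FH i).memLp) (fun t => by positivity)
        (S.F1b i) (hIab hs).1 hst (hIab ht).2
    have jF : ∀ k : K, ∀ t ∈ Icc a b, Tendsto (fun p : ι × ℝ => ⟪F p.1 p.2, k⟫_ℝ)
        ((U : Filter ι) ×ˢ 𝓝[Icc a b] t) (𝓝 ⟪Fv t, k⟫_ℝ) := fun k t ht =>
      joint_of_equi' (f := fun i t => ⟪F i t, k⟫_ℝ) (g := fun t => ⟪Fv t, k⟫_ℝ)
        (equi_of_half (scal k hFhalf)) ht (hFl t (hIab ht) k)
    -- the limit equation
    have jg : ∀ k : K, ∀ t ∈ Icc a b, Tendsto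
        (fun p : ι × ℝ => ⟪F p.1 p.2 - ν • z p.1 (min p.2 (τ p.1))
          + m (u p.1 (min p.2 (τ p.1))), k⟫_ℝ)
        ((U : Filter ι) ×ˢ 𝓝[Icc a b] t) (𝓝 ⟪Fv t - ν • q t + m (x t), k⟫_ℝ) := by
      intro k t ht
      simp only [inner_add_left, inner_sub_left, real_inner_smul_left]
      exact ((jF k t ht).sub ((jZ k t ht).const_mul ν)).add
        ((jM t ht).inner tendsto_const_nhds)
    have hgc : ∀ k : K, ContinuousOn (fun t => ⟪Fv t - ν • q t + m (x t), k⟫_ℝ) (Icc a b) :=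
      fun k => joint_cont (F := (U : Filter ι)) (f := fun i t => ⟪F i t - ν • z i (min t (τ i))
          + m (u i (min t (τ i))), k⟫_ℝ) (jg k)
    have hweak : ∀ p ∈ W, ∀ t ∈ Icc a b,
        ⟪x t - x a, p.1⟫_ℝ = ∫ s in a..t, ⟪Fv s - ν • q s + m (x s), p.2⟫_ℝ := by
      intro p hp t ht
      have hsub : Icc a t ⊆ Icc a b := Icc_subset_Icc_right ht.2
      have l2 := joint_int (F := (U : Filter ι)) ht.1
        (f := fun i s => ⟪F i s - ν • z i (min s (τ i)) + m (u i (min s (τ i))), p.2⟫_ℝ)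
        (g := fun s => ⟪Fv s - ν • q s + m (x s), p.2⟫_ℝ)
        (fun s hs => (jg p.2 s (hsub hs)).mono_left
          (Filter.prod_mono le_rfl (nhdsWithin_mono _ hsub)))
        (fun i => by
          have hmin : ContinuousOn (fun s => min s (τ i)) (Icc a t) := by fun_prop
          have hmaps : MapsTo (fun s => min s (τ i)) (Icc a t) (Icc 0 (τ i)) :=
            fun s hs => min_mem (ha.le.trans hs.1) (S.τ0 i).le
          have hFc : ContinuousOn (F i) (Icc a t) :=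
            (prim_cont (S.FH i).memLp (S.FH i).prim).mono (hsub.trans hIab)
          have hzc : ContinuousOn (fun s => z i (min s (τ i))) (Icc a t) :=
            (prim_cont (S.str i).z1m (S.str i).pz).comp hmin hmaps
          have hmc : ContinuousOn (fun s => m (u i (min s (τ i)))) (Icc a t) :=
            (str_mc Fr (FH.mono (S.FH i) (S.τT i)) (S.str i)).comp hmin hmaps
          exact ((hFc.sub (hzc.const_smul ν)).add hmc).inner continuousOn_const)
      have l1 : Tendsto (fun i => ⟪u i (min t (τ i)) - u i (min a (τ i)), p.1⟫_ℝ) U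
          (𝓝 ⟪x t - x a, p.1⟫_ℝ) :=
        ((hxq t (ha.le.trans ht.1)).2.2.1.sub (hxq a ha.le).2.2.1).inner tendsto_const_nhds
      refine tendsto_nhds_unique l1 (l2.congr' ?_)
      filter_upwards [hev] with i hi
      have hti : t ≤ τ i := ht.2.trans hi.le
      rw [min_eq_left hti, min_eq_left (ht.1.trans hti),
        str_weak_ab Fr (FH.mono (S.FH i) (S.τT i)) (S.str i) hp ha.le ht.1 hti]
      refine intervalIntegral.integral_congr fun s hs => ?_
      rw [uIcc_of_le ht.1] at hs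
      show ⟪F i s - ν • z i (min s (τ i)) + m (u i (min s (τ i))), p.2⟫_ℝ = _
      rw [min_eq_left (hs.2.trans hti)]
    -- derivatives
    have hdx : ∀ p ∈ W, ∀ t ∈ Ioo a b, HasDerivAt (fun s => ⟪x s, p.1⟫_ℝ)
        ⟪Fv t - ν • q t + m (x t), p.2⟫_ℝ t := by
      intro p hp t ht
      have htI := Ioo_subset_Icc_self ht
      have h1 : HasDerivAt (fun t => ∫ s in a..t, ⟪Fv s - ν • q s + m (x s), p.2⟫_ℝ)
          ⟪Fv t - ν • q t + m (x t), p.2⟫_ℝ t := by
        refine intervalIntegral.integral_hasDerivAt_right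
          (ContinuousOn.intervalIntegrable (by
            rw [uIcc_of_le ht.1.le]; exact (hgc p.2).mono (Icc_subset_Icc_right ht.2.le)))
          ?_ ((hgc p.2 t htI).continuousAt (Icc_mem_nhds ht.1 ht.2))
        exact ((hgc p.2).mono Ioo_subset_Icc_self).stronglyMeasurableAtFilter isOpen_Ioo t ht
      have h2 := h1.const_add ⟪x a, p.1⟫_ℝ
      refine h2.congr_of_eventuallyEq ?_
      filter_upwards [Icc_mem_nhds ht.1 ht.2] with s hs
      rw [← hweak p hp s hs, inner_sub_left]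
      ring
    have hdv : ∀ p ∈ W, ∀ t ∈ Ioo a b, HasDerivAt (fun s => ⟪v s, p.1⟫_ℝ)
        ⟪Fv t - ν • y t + m (v t), p.2⟫_ℝ t := by
      intro p hp t ht
      have htI := Ioo_subset_Icc_self ht
      have hgv := (str_gc Fr hFv Sv p.2).mono hIab
      have h1 : HasDerivAt (fun t => ∫ s in a..t, ⟪Fv s - ν • y s + m (v s), p.2⟫_ℝ)
          ⟪Fv t - ν • y t + m (v t), p.2⟫_ℝ t := by
        refine intervalIntegral.integral_hasDerivAt_right
          (ContinuousOn.intervalIntegrable (by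
            rw [uIcc_of_le ht.1.le]; exact hgv.mono (Icc_subset_Icc_right ht.2.le)))
          ?_ ((hgv t htI).continuousAt (Icc_mem_nhds ht.1 ht.2))
        exact (hgv.mono Ioo_subset_Icc_self).stronglyMeasurableAtFilter isOpen_Ioo t ht
      have h2 := h1.const_add ⟪v a, p.1⟫_ℝ
      refine h2.congr_of_eventuallyEq ?_
      filter_upwards [Icc_mem_nhds ht.1 ht.2] with s hs
      rw [← str_weak_ab Fr hFv Sv hp ha.le hs.1 (hs.2.trans hbT), inner_sub_left]
      ring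
    -- the difference is Lipschitz
    have hlipx : ∀ s ∈ Icc a b, ∀ t ∈ Icc a b, s ≤ t → ‖x t - x s‖ ≤ √(A / a) * (t - s) := by
      intro s hs t ht hst
      refine le_of_tendsto ((hxq t (ha.le.trans ht.1)).2.2.1.sub
        (hxq s (ha.le.trans hs.1)).2.2.1).norm (Eventually.of_forall fun i => ?_)
      exact S.lipU B ha i s ⟨hs.1, hs.2.trans hbT⟩ t ⟨ht.1, ht.2.trans hbT⟩ hst
    have hlipv : ∀ s ∈ Icc a b, ∀ t ∈ Icc a b, s ≤ t → ‖v t - v s‖ ≤ V * (t - s) := by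
      intro s hs t ht hst
      refine prim_lip Sv.pu (ha.le.trans hs.1) hst (ht.2.trans hbT) ?_
      exact ae_mono (Measure.restrict_mono
        (Ioc_subset_Ioc (ha.le.trans hs.1) (ht.2.trans hbT)) le_rfl) hV
    have hlip : ∀ s ∈ Icc a b, ∀ t ∈ Icc a b,
        ‖(x s - v s) - (x t - v t)‖ ≤ (√(A / a) + V) * |s - t| := by
      have key : ∀ s ∈ Icc a b, ∀ t ∈ Icc a b, s ≤ t →
          ‖(x t - v t) - (x s - v s)‖ ≤ (√(A / a) + V) * (t - s) := by
        intro s hs t ht hst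
        have h1 := hlipx s hs t ht hst
        have h2 := hlipv s hs t ht hst
        calc ‖(x t - v t) - (x s - v s)‖ = ‖(x t - x s) - (v t - v s)‖ := by congr 1; abel
          _ ≤ ‖x t - x s‖ + ‖v t - v s‖ := norm_sub_le _ _
          _ ≤ _ := by linarith
      intro s hs t ht
      rcases le_total s t with hst | hst
      · rw [norm_sub_rev, abs_sub_comm, abs_of_nonneg (by linarith)]
        exact key s hs t ht hst
      · rw [abs_of_nonneg (by linarith)]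
        exact key t ht s hs hst
    -- the derivative of the square of the difference
    have hW : ∀ t ∈ Icc a b, (x t - v t, q t - y t) ∈ W := fun t ht =>
      W.sub_mem (hxq t (ha.le.trans ht.1)).1 (Sv.mem t (hIab ht))
    have hdw : ∀ t ∈ Ioo a b, HasDerivAt (fun s => ‖x s - v s‖ ^ 2)
        (2 * (⟪Fv t - ν • q t + m (x t), q t - y t⟫_ℝ
          - ⟪Fv t - ν • y t + m (v t), q t - y t⟫_ℝ)) t := by
      intro t ht
      have htI := Ioo_subset_Icc_self ht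
      refine hasDeriv_sq (w := fun s => x s - v s) (L := √(A / a) + V) ?_ ?_
      · filter_upwards [Icc_mem_nhds ht.1 ht.2] with s hs
        exact hlip s hs t htI
      · have h1 := (hdx _ (hW t htI) t ht).sub (hdv _ (hW t htI) t ht)
        refine h1.congr_of_eventuallyEq (Eventually.of_forall fun s => ?_)
        show ⟪x s - v s, x t - v t⟫_ℝ = ⟪x s, x t - v t⟫_ℝ - ⟪v s, x t - v t⟫_ℝ
        rw [inner_sub_left]
    have hle : ∀ t ∈ Ioo a b, 2 * (⟪Fv t - ν • q t + m (x t), q t - y t⟫_ℝ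
          - ⟪Fv t - ν • y t + m (v t), q t - y t⟫_ℝ) ≤ κ * ‖x t - v t‖ ^ 2 := by
      intro t ht
      have htI := Ioo_subset_Icc_self ht
      have hxW := (hxq t (ha.le.trans htI.1)).1
      have hvW := Sv.mem t (hIab htI)
      have e3 := Fr.anti _ hxW _ hvW
      simp only at e3
      have e4 : ⟪Fv t - ν • q t + m (x t), q t - y t⟫_ℝ
          - ⟪Fv t - ν • y t + m (v t), q t - y t⟫_ℝ
          = -(ν * ‖q t - y t‖ ^ 2) - ⟪m (x t - v t), y t⟫_ℝ := by
        rw [← inner_sub_left]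
        have e5 : Fv t - ν • q t + m (x t) - (Fv t - ν • y t + m (v t)) =
            -(ν • (q t - y t)) + (m (x t) - m (v t)) := by
          rw [smul_sub]; abel
        rw [e5, inner_add_left, inner_neg_left, inner_smul_left, real_inner_self_eq_norm_sq, e3]
        simp
        ring
      have hc := Un.c0
      have hq4 := Un.quart _ (hW t htI)
      simp only at hq4
      have k3 : -⟪m (x t - v t), y t⟫_ℝ ≤ (c * √‖x t - v t‖ * Y) * √‖q t - y t‖ ^ 3 := by
        have h1 : -⟪m (x t - v t), y t⟫_ℝ ≤ ‖m (x t - v t)‖ * ‖y t‖ :=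
          (neg_le_abs _).trans (abs_real_inner_le_norm _ _)
        have h2 := hY' t (hIab htI)
        calc -⟪m (x t - v t), y t⟫_ℝ ≤ ‖m (x t - v t)‖ * ‖y t‖ := h1
          _ ≤ (c * (√‖x t - v t‖ * √‖q t - y t‖ ^ 3)) * Y := by gcongr
          _ = _ := by ring
      have k4 := cube_young (a := c * √‖x t - v t‖ * Y) (b := ν) (x := √‖q t - y t‖)
        (by positivity) hν (Real.sqrt_nonneg _)
      have k5 : √‖q t - y t‖ ^ 4 = ‖q t - y t‖ ^ 2 := by
        have : √‖q t - y t‖ ^ 4 = (√‖q t - y t‖ ^ 2) ^ 2 := by ring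
        rw [this, Real.sq_sqrt (norm_nonneg _)]
      have k6 : √‖x t - v t‖ ^ 4 = ‖x t - v t‖ ^ 2 := by
        have : √‖x t - v t‖ ^ 4 = (√‖x t - v t‖ ^ 2) ^ 2 := by ring
        rw [this, Real.sq_sqrt (norm_nonneg _)]
      have k7 : (c * √‖x t - v t‖ * Y) ^ 4 / ν ^ 3 = (c * Y) ^ 4 / ν ^ 3 * ‖x t - v t‖ ^ 2 := by
        rw [← k6]; ring
      rw [k5, k7] at k4
      rw [e4, hκ]
      linarith
    have hwc : ContinuousOn (fun s => ‖x s - v s‖ ^ 2) (Icc a b) :=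
      (((hxc.sub hvc).norm).pow 2).mono hIab
    exact gron_sq hab.le hwc hdw hle
  -- the limit is `v` up to `σ`
  have hxv : ∀ t ∈ Icc 0 σ, x t = v t := by
    have hop : ∀ b ∈ Ioo 0 σ, x b = v b := by
      intro b hb
      have h1 : Tendsto (fun a : ℝ => ‖x a - v a‖ ^ 2 * Real.exp (κ * (b - a))) (𝓝[>] 0)
          (𝓝 (‖x 0 - v 0‖ ^ 2 * Real.exp (κ * (b - 0)))) := by
        have hc0 : ContinuousWithinAt (fun a : ℝ => ‖x a - v a‖ ^ 2 * Real.exp (κ * (b - a)))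
            (Icc 0 T) 0 :=
          ((((hxc.sub hvc).norm).pow 2).mul (by fun_prop)) 0 ⟨le_rfl, hT.le⟩
        refine hc0.tendsto.mono_left ?_
        rw [nhdsWithin_le_iff]
        exact mem_of_superset (Ioo_mem_nhdsGT hT) Ioo_subset_Icc_self
      rw [hx0, sub_self, norm_zero] at h1
      have h2 : ‖x b - v b‖ ^ 2 ≤ 0 ^ 2 * Real.exp (κ * (b - 0)) := by
        refine ge_of_tendsto h1 ?_
        filter_upwards [Ioo_mem_nhdsGT hb.1] with a ha
        exact hcmp a b ha.1 ha.2 hb.2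
      have h3 : ‖x b - v b‖ ^ 2 ≤ 0 := by simpa using h2
      have h4 : ‖x b - v b‖ = 0 := by
        have := norm_nonneg (x b - v b)
        nlinarith
      exact sub_eq_zero.1 (norm_eq_zero.1 h4)
    intro t ht
    rcases ht.1.eq_or_lt with h | h
    · rw [← h]; exact hx0
    rcases ht.2.eq_or_lt with h' | h'
    · -- by continuity
      subst h'
      have hsub : Icc 0 t ⊆ Icc 0 T := Icc_subset_Icc_right hσ.2
      have h1 : EqOn x v (closure (Ioo 0 t)) := by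
        rw [closure_Ioo h.ne]
        have := Set.EqOn.of_subset_closure (s := Ioo 0 t) (t := Icc 0 t) hop (hxc.mono hsub)
          (hvc.mono hsub) Ioo_subset_Icc_self (by rw [closure_Ioo h.ne])
        exact this
      exact h1 (by rw [closure_Ioo h.ne]; exact ⟨h.le, le_rfl⟩)
    · exact hop t ⟨h, h'⟩
  -- conclusion
  intro η hη
  have hd : ContinuousOn (fun t => x t - v t) (Icc 0 T) := hxc.sub hvc
  have h1 := (Metric.continuousOn_iff.mp hd) σ hσ (η / 2) (by positivity)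
  obtain ⟨δ, hδ, hδ'⟩ := h1
  have hev : ∀ᶠ i in U, dist (τ i) σ < δ := (Metric.tendsto_nhds.mp hσt) δ hδ
  filter_upwards [hun (η / 2) (by positivity), hev] with i hi1 hi2 t ht
  have htT : t ∈ Icc 0 T := ⟨ht.1, ht.2.trans (S.τT i)⟩
  have h2 := hi1 t htT
  rw [min_eq_left ht.2] at h2
  have h3 : ‖x t - v t‖ ≤ η / 2 := by
    rcases le_total t σ with h | h
    · rw [hxv t ⟨ht.1, h⟩, sub_self, norm_zero]; positivity
    · have h4 : dist t σ < δ := by
        rw [Real.dist_eq] at hi2 ⊢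
        rw [abs_of_nonneg (by linarith)]
        have := le_abs_self (τ i - σ)
        linarith [ht.2]
      have h5 := hδ' t htT h4
      rw [hxv σ ⟨hσ.1, le_rfl⟩, sub_self, dist_zero_right] at h5
      exact h5.le
  calc ‖u i t - v t‖ = ‖(u i t - x t) + (x t - v t)‖ := by congr 1; abel
    _ ≤ ‖u i t - x t‖ + ‖x t - v t‖ := norm_add_le _ _
    _ ≤ η := by linarith

end

end Pool.Agent.X187.NSC
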