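import Pool.Agent.X187.NSC.Far
import Pool.Agent.H772R2.NSR.Joint
import Pool.Agent.H772R2.NSR.Lim

set_option autoImplicit false

open MeasureTheory Set Filter Topology
open scoped InnerProductSpace

namespace Pool.Agent.X187.NSC

open H772R2.NSR (Frame prim_cont ae_deriv_of_prim memLp_ii joint_cont joint_int m_tendsto unif
  exists_weak_limit mem_of_weak_limit int_sq_le)
open Pool.Agent.W795.TQ

section prim

variable {Y : Type} [NormedAddCommGroup Y] [InnerProductSpace ℝ Y] [CompleteSpace Y]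

theorem ii_norm {T : ℝ} {f1 : ℝ → Y} (h1 : MemLp f1 2 (volume.restrict (Ioc 0 T))) {a b : ℝ}
    (ha : 0 ≤ a) (hab : a ≤ b) (hb : b ≤ T) : IntervalIntegrable (fun s => ‖f1 s‖) volume a b := by
  rw [intervalIntegrable_iff_integrableOn_Ioc_of_le hab]
  have : IsFiniteMeasure (volume.restrict (Ioc 0 T) : Measure ℝ) := by
    rw [isFiniteMeasure_restrict]; simp
  exact (h1.integrable (by norm_num)).norm.mono_measure
    (Measure.restrict_mono (Ioc_subset_Ioc ha hb) le_rfl)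

/-- Hölder continuity of a primitive. -/
theorem prim_half {T M : ℝ} {f f1 : ℝ → Y} (h1 : MemLp f1 2 (volume.restrict (Ioc 0 T)))
    (hf : ∀ a b, 0 ≤ a → a ≤ b → b ≤ T → f b - f a = ∫ s in a..b, f1 s) {a b : ℝ}
    (ha : 0 ≤ a) (hab : a ≤ b) (hb : b ≤ T) (hM : ∫ s in a..b, ‖f1 s‖ ^ 2 ≤ M) :
    ‖f b - f a‖ ^ 2 ≤ M * (b - a) := by
  rcases hab.eq_or_lt with rfl | hlt
  · simp
  have hi := ii_norm h1 ha hab hb
  have hsq : IntervalIntegrable (fun s => ‖f1 s‖ ^ 2) volume a b := by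
    rw [intervalIntegrable_iff_integrableOn_Ioc_of_le hab]
    exact ((memLp_two_iff_integrable_sq_norm h1.aestronglyMeasurable).mp h1).mono_measure
      (Measure.restrict_mono (Ioc_subset_Ioc ha hb) le_rfl)
  have h2 := int_sq_le hlt hi hsq
  have h3 : ‖f b - f a‖ ≤ ∫ s in a..b, ‖f1 s‖ := by
    rw [hf a b ha hab hb]
    exact intervalIntegral.norm_integral_le_integral_norm hab
  have h4 : 0 ≤ ∫ s in a..b, ‖f1 s‖ := intervalIntegral.integral_nonneg hab fun s _ => norm_nonneg _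
  calc ‖f b - f a‖ ^ 2 ≤ (∫ s in a..b, ‖f1 s‖) ^ 2 := by gcongr
    _ ≤ (b - a) * ∫ s in a..b, ‖f1 s‖ ^ 2 := h2
    _ ≤ (b - a) * M := by
      have : 0 ≤ b - a := by linarith
      gcongr
    _ = M * (b - a) := by ring

/-- Lipschitz continuity of a primitive. -/
theorem prim_lip {T M : ℝ} {f f1 : ℝ → Y} 
    (hf : ∀ a b, 0 ≤ a → a ≤ b → b ≤ T → f b - f a = ∫ s in a..b, f1 s) {a b : ℝ}
    (ha : 0 ≤ a) (hab : a ≤ b) (hb : b ≤ T)
    (hM : ∀ᵐ s ∂(volume.restrict (Ioc a b)), ‖f1 s‖ ≤ M) : ‖f b - f a‖ ≤ M * (b - a) := by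
  rw [hf a b ha hab hb]
  have := intervalIntegral.norm_integral_le_of_norm_le_const_ae (a := a) (b := b) (f := f1)
    (C := M) (by
      rw [uIoc_of_le hab]
      rw [ae_restrict_iff' measurableSet_Ioc] at hM
      exact hM)
  rwa [abs_of_nonneg (by linarith)] at this

end prim

theorem joint_of_equi' {ι : Type*} {F : Filter ι} [F.NeBot] {Y : Type*} [NormedAddCommGroup Y]
    {a b : ℝ} {f : ι → ℝ → Y} {g : ℝ → Y}
    (heq : ∀ ε : ℝ, 0 < ε → ∃ δ : ℝ, 0 < δ ∧ ∀ i, ∀ s ∈ Icc a b, ∀ t ∈ Icc a b, |s - t| < δ →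
      ‖f i s - f i t‖ ≤ ε)
    {t : ℝ} (ht : t ∈ Icc a b) (hlim : Tendsto (fun i => f i t) F (𝓝 (g t))) :
    Tendsto (fun p : ι × ℝ => f p.1 p.2) (F ×ˢ 𝓝[Icc a b] t) (𝓝 (g t)) := by
  rw [Metric.tendsto_nhds]
  intro ε hε
  obtain ⟨δ, hδ, h1⟩ := heq (ε / 3) (by positivity)
  have h2 : ∀ᶠ i in F, ‖f i t - g t‖ < ε / 3 :=
    (tendsto_iff_norm_sub_tendsto_zero.mp hlim).eventually (gt_mem_nhds (by positivity))
  have h3 : ∀ᶠ s in 𝓝[Icc a b] t, s ∈ Icc a b ∧ |s - t| < δ := by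
    filter_upwards [self_mem_nhdsWithin, mem_nhdsWithin_of_mem_nhds (Metric.ball_mem_nhds t hδ)]
      with s k1 k2
    exact ⟨k1, by rwa [Metric.mem_ball, Real.dist_eq] at k2⟩
  filter_upwards [h2.prod_mk h3] with p hp
  rw [dist_eq_norm]
  have k1 := h1 p.1 p.2 hp.2.1 t ht hp.2.2
  calc ‖f p.1 p.2 - g t‖ = ‖(f p.1 p.2 - f p.1 t) + (f p.1 t - g t)‖ := by congr 1; abel
    _ ≤ ‖f p.1 p.2 - f p.1 t‖ + ‖f p.1 t - g t‖ := norm_add_le _ _
    _ < ε := by linarith [hp.1]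

/-- equicontinuity from a Hölder estimate. -/
theorem equi_of_half {ι : Type*} {Y : Type*} [NormedAddCommGroup Y] {a b M : ℝ} {f : ι → ℝ → Y}
    (h : ∀ i, ∀ s ∈ Icc a b, ∀ t ∈ Icc a b, s ≤ t → ‖f i t - f i s‖ ^ 2 ≤ M * (t - s)) :
    ∀ ε : ℝ, 0 < ε → ∃ δ : ℝ, 0 < δ ∧ ∀ i, ∀ s ∈ Icc a b, ∀ t ∈ Icc a b, |s - t| < δ →
      ‖f i s - f i t‖ ≤ ε := by
  intro ε hε
  refine ⟨ε ^ 2 / (|M| + 1), by positivity, ?_⟩
  have key : ∀ i, ∀ s ∈ Icc a b, ∀ t ∈ Icc a b, s ≤ t → |s - t| < ε ^ 2 / (|M| + 1) →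
      ‖f i t - f i s‖ ≤ ε := by
    intro i s hs t ht hst hlt
    rw [abs_sub_comm, abs_of_nonneg (by linarith), lt_div_iff₀ (by positivity)] at hlt
    have h1 := h i s hs t ht hst
    have h2 : M * (t - s) ≤ |M| * (t - s) := by
      have : 0 ≤ t - s := by linarith
      gcongr
      exact le_abs_self _
    have h3 : ‖f i t - f i s‖ ^ 2 ≤ ε ^ 2 := by nlinarith
    exact (pow_le_pow_iff_left₀ (norm_nonneg _) hε.le (by norm_num)).mp h3
  intro i s hs t ht hlt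
  rcases le_total s t with hst | hst
  · rw [norm_sub_rev]; exact key i s hs t ht hst hlt
  · exact key i t ht s hs hst (by rwa [abs_sub_comm])

end Pool.Agent.X187.NSC
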