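import Pool.Agent.X187.NSC.Data

set_option autoImplicit false

open MeasureTheory Set Filter Topology
open scoped InnerProductSpace

namespace Pool.Agent.X187.NSC

open H772R2.NSR (Frame prim_cont ae_deriv_of_prim memLp_ii joint_cont joint_int m_tendsto unif
  exists_weak_limit mem_of_weak_limit int_sq_le grad_unique)
open Pool.Agent.W795.TQ

section

variable {H K : Type} [NormedAddCommGroup H] [InnerProductSpace ℝ H] [CompleteSpace H]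
  [NormedAddCommGroup K] [InnerProductSpace ℝ K] [CompleteSpace K]
  {W : Submodule ℝ (H × K)} {m : H → K} {C c ν T : ℝ}

/-- The gradients of strong solutions with nearly the data of a given strong solution on `[0,T]`
are bounded. -/
theorem core (Fr : Frame W m C) (Un : Univ W m c) (hν : 0 < ν) (hT : 0 < T)
    (hcomp : ∀ R : ℝ, TotallyBounded {v : H | ∃ z, (v, z) ∈ W ∧ ‖z‖ ≤ R})
    {Fv Fv1 : ℝ → K} {v v1 : ℝ → H} {y y1 : ℝ → K} (hFv : FH T Fv Fv1)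
    (Sv : Str W m ν T Fv v v1 y y1) {R Φ G : ℝ} (hR : 0 ≤ R) (hΦ : 0 ≤ Φ) (hG : 0 ≤ G) :
    ∃ N0 : ℝ, 0 < N0 ∧ ∀ N : ℝ, 0 ≤ N → ∀ (ι : Type) (U : Ultrafilter ι) (τ : ι → ℝ)
      (F F1 : ι → ℝ → K) (u u1 : ι → ℝ → H) (z z1 : ι → ℝ → K),
      Fam W m ν T Φ G N τ F F1 u u1 z z1 → (∀ i, ‖z i 0‖ ≤ R) →
      Tendsto (fun i => u i 0) U (𝓝 (v 0)) →
      (∀ t ∈ Icc 0 T, ∀ k, Tendsto (fun i => ⟪F i t, k⟫_ℝ) U (𝓝 ⟪Fv t, k⟫_ℝ)) →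
      ∀ᶠ i in U, ∀ t ∈ Icc 0 (τ i), ‖z i t‖ ≤ N0 := by
  have hyc : ContinuousOn y (Icc 0 T) := prim_cont Sv.z1m Sv.pz
  obtain ⟨Y, hY⟩ := (isCompact_Icc.image_of_continuousOn hyc).isBounded.exists_norm_le
  have hY' : ∀ t ∈ Icc 0 T, ‖y t‖ ≤ Y := fun t ht => hY _ ⟨t, ht, rfl⟩
  have hFc : ContinuousOn Fv (Icc 0 T) := prim_cont hFv.memLp hFv.prim
  obtain ⟨P, hP⟩ := (isCompact_Icc.image_of_continuousOn hFc).isBounded.exists_norm_le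
  have hP' : ∀ t ∈ Icc 0 T, ‖Fv t‖ ≤ P := fun t ht => hP _ ⟨t, ht, rfl⟩
  obtain ⟨V, hV⟩ := Sv.bd
  set Φ' : ℝ := max Φ P with hΦ'
  have hΦ'0 : 0 ≤ Φ' := hΦ.trans (le_max_left _ _)
  obtain ⟨N0, hN0, hfar⟩ := far_bound C c ν R Φ' G T Y (max V 0) Fr.C0 Un.c0 hν hR hΦ'0 hG hT
    (le_max_right _ _)
  refine ⟨N0, hN0, ?_⟩
  intro N hN ι U τ F F1 u u1 z z1 S hzR h0 hFl
  obtain ⟨η, hη, hfar'⟩ := hfar N hN
  filter_upwards [fam_close Fr Un hν hT hΦ hG hN S U hcomp hFv Sv h0 hFl η hη] with i hi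
  have hτT := S.τT i
  have hsub : (volume.restrict (Ioc 0 (τ i)) : Measure ℝ) ≤ volume.restrict (Ioc 0 T) :=
    Measure.restrict_mono (Ioc_subset_Ioc_right hτT) le_rfl
  have hII : ∀ t ∈ Icc 0 (τ i), t ∈ Icc 0 T := fun t ht => ⟨ht.1, ht.2.trans hτT⟩
  have hF1i : IntegrableOn (fun s => ‖F1 i s‖ ^ 2) (Ioc 0 T) :=
    (memLp_two_iff_integrable_sq_norm (S.FH i).memLp.aestronglyMeasurable).mp (S.FH i).memLp
  exact hfar' H K W m (τ i) (F i) (F1 i) Fv Fv1 (u i) (u1 i) v v1 (z i) (z1 i) y y1 Fr Un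
    (S.τ0 i) hτT (FH.mono (S.FH i) hτT) (S.str i)
    (fun t ht => (S.Fb i t (hII t ht)).trans (le_max_left _ _))
    (int_sub_le hF1i (fun t => by positivity) (S.F1b i) le_rfl (S.τ0 i).le hτT) (hzR i) (S.zb i)
    (FH.mono hFv hτT) (Sv.mono hτT) (fun t ht => (hP' t (hII t ht)).trans (le_max_right _ _))
    (fun t ht => hY' t (hII t ht))
    (by
      filter_upwards [ae_mono hsub hV] with t ht
      exact ht.trans (le_max_left _ _)) hi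

/-- cutting a strong solution at the first time at which the gradient reaches `N`. -/
theorem cut {τ N : ℝ} {F : ℝ → K} {u u1 : ℝ → H} {z z1 : ℝ → K} (hτ : 0 < τ)
    (S : Str W m ν τ F u u1 z z1) (h0 : ‖z 0‖ < N) :
    ∃ τ' : ℝ, 0 < τ' ∧ τ' ≤ τ ∧ Str W m ν τ' F u u1 z z1 ∧ (∀ t ∈ Icc 0 τ', ‖z t‖ ≤ N) ∧
      (τ' = τ ∨ N ≤ ‖z τ'‖) := by
  have hzc : ContinuousOn z (Icc 0 τ) := prim_cont S.z1m S.pz
  obtain ⟨τ', h1, h2, h3, h4⟩ := Pool.Agent.W52.TQ.first_time hτ hzc.norm h0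
  exact ⟨τ', h1, h2, S.mono h2, h3, h4⟩

theorem z0_eq {τ : ℝ} {F : ℝ → K} {u u1 : ℝ → H} {z z1 : ℝ → K} (Fr : Frame W m C) (hτ : 0 < τ)
    (S : Str W m ν τ F u u1 z z1) {x0 : H} {z0 : K} (h : (x0, z0) ∈ W) (h0 : u 0 = x0) :
    z 0 = z0 := by
  have h1 := S.mem 0 ⟨le_rfl, hτ.le⟩
  rw [h0] at h1
  exact grad_unique Fr h1 h

/-- The constants for data of size at most `R`. -/
theorem dat_bounds (hT : 0 < T) {d : Dat H K} (hd : Adm W m ν T d) {R : ℝ}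
    (hR : d.size T ≤ R) : ‖d.z‖ ≤ √R ∧ (∀ t ∈ Icc 0 T, ‖d.F t‖ ≤ √R + √(R * T)) ∧
      (∫ s in (0 : ℝ)..T, ‖d.F1 s‖ ^ 2) ≤ R := by
  have hb := size_parts hT.le hR
  refine ⟨Real.le_sqrt_of_sq_le hb.1, ?_, hb.2.2.1⟩
  exact force_le hT.le hd.force (Real.sqrt_nonneg _) (Real.le_sqrt_of_sq_le hb.2.1) hb.2.2.1

/-- Weak openness of the set of the data with a strong solution, ultrafilter form. -/
theorem open_ultra (Fr : Frame W m C) (Un : Univ W m c) (hν : 0 < ν) (hT : 0 < T)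
    (hcomp : ∀ R : ℝ, TotallyBounded {v : H | ∃ z, (v, z) ∈ W ∧ ‖z‖ ≤ R})
    {R : ℝ} (hR0 : 0 ≤ R) {e : Dat H K} (he : FH T e.F e.F1)
    {v v1 : ℝ → H} {y y1 : ℝ → K} (Sv : Str W m ν T e.F v v1 y y1) (hv0 : v 0 = e.x) :
    ∃ N0 : ℝ, 0 < N0 ∧ ∀ (ι : Type) (U : Ultrafilter ι) (d : ι → Dat H K),
      (∀ i, Adm W m ν T (d i)) → (∀ i, ‖(d i).z‖ ≤ R) → (∀ i, ‖(d i).F 0‖ ≤ R) →
      (∀ i, (∫ s in (0 : ℝ)..T, ‖(d i).F1 s‖ ^ 2) ≤ R) →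
      Tendsto (fun i => (d i).x) U (𝓝 e.x) →
      (∀ t ∈ Icc 0 T, ∀ k, Tendsto (fun i => ⟪(d i).F t, k⟫_ℝ) U (𝓝 ⟪e.F t, k⟫_ℝ)) →
      ∀ η : ℝ, 0 < η → ∀ᶠ i in U, ∃ (u u1 : ℝ → H) (z z1 : ℝ → K),
      Str W m ν T (d i).F u u1 z z1 ∧ u 0 = (d i).x ∧ (∀ t ∈ Icc 0 T, ‖z t‖ ≤ N0) ∧
      ∀ t ∈ Icc 0 T, ‖u t - v t‖ ≤ η := by
  obtain ⟨N0, hN0, hcore⟩ := core Fr Un hν hT hcomp he Sv (R := R)
    (Φ := R + √(R * T)) (G := R) hR0 (by positivity) hR0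
  refine ⟨N0, hN0, ?_⟩
  intro ι U d hd hR1 hR2 hR3 hx hFl
  set N : ℝ := N0 + R + 1 with hN
  have hN' : 0 ≤ N := by positivity
  have hz : ∀ i, ‖(d i).z‖ < N := fun i => by
    have := hR1 i
    linarith
  have hFb : ∀ i, ∀ t ∈ Icc 0 T, ‖(d i).F t‖ ≤ R + √(R * T) := fun i =>
    force_le hT.le (hd i).force hR0 (hR2 i) (hR3 i)
  have hex : ∀ i, ∃ (σ τ : ℝ) (u u1 : ℝ → H) (z z1 : ℝ → K), 0 < τ ∧ τ ≤ σ ∧ σ ≤ T ∧
      Str W m ν σ (d i).F u u1 z z1 ∧ u 0 = (d i).x ∧ (∀ t ∈ Icc 0 τ, ‖z t‖ ≤ N) ∧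
      (τ = σ ∨ N ≤ ‖z τ‖) ∧ (σ = T ∨ N ≤ ‖z σ‖) := by
    intro i
    obtain ⟨σ, u, u1, z, z1, k1, k2, k3, k4, k5⟩ := Pool.Agent.W52.TQ.proof_loc H K W m C ν T
      (d i).F (d i).F1 (d i).x (d i).g (d i).z N Fr hcomp hν hT (hd i).force (hd i).mem
      (hd i).comp (hz i)
    have hz0 := z0_eq Fr k1 k3 (hd i).mem k4
    obtain ⟨τ, h1, h2, h3, h4, h5⟩ := cut k1 k3 (N := N) (by rw [hz0]; exact hz i)
    exact ⟨σ, τ, u, u1, z, z1, h1, h2, k2, k3, k4, h4, h5, k5⟩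
  choose σ τ u u1 z z1 h1 h2 h3 h4 h5 h6 h7 h8 using hex
  have S : Fam W m ν T (R + √(R * T)) R N τ (fun i => (d i).F) (fun i => (d i).F1) u u1 z z1 :=
    ⟨h1, fun i => (h2 i).trans (h3 i), fun i => (hd i).force, fun i => (h4 i).mono (h2 i),
      hFb, hR3, h6⟩
  have hx' : Tendsto (fun i => u i 0) U (𝓝 (v 0)) := by
    rw [hv0]
    exact hx.congr fun i => (h5 i).symm
  have hev := hcore N hN' ι U τ _ _ u u1 z z1 S (fun i => by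
    rw [z0_eq Fr ((h1 i).trans_le (h2 i)) (h4 i) (hd i).mem (h5 i)]
    exact hR1 i) hx' hFl
  intro η hη
  have hcl := fam_close Fr Un hν hT (by positivity) hR0 hN' S U hcomp he Sv hx' hFl η hη
  filter_upwards [hev, hcl] with i hi hci
  have hNlt : ∀ t ∈ Icc 0 (τ i), ¬ N ≤ ‖z i t‖ := by
    intro t ht hle
    have := hi t ht
    linarith
  have e1 : τ i = σ i := (h7 i).resolve_right (hNlt _ ⟨(h1 i).le, le_rfl⟩)
  have e2 : σ i = T := by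
    refine (h8 i).resolve_right ?_
    rw [← e1]
    exact hNlt _ ⟨(h1 i).le, le_rfl⟩
  have e3 : τ i = T := e1.trans e2
  rw [e3] at hi hci
  exact ⟨u i, u1 i, z i, z1 i, e2 ▸ h4 i, h5 i, hi, hci⟩

/-- If all data have strong solutions on `[0,T]`, then the gradients are bounded by the size of the
data. -/
theorem uni_abs (Fr : Frame W m C) (Un : Univ W m c) (hν : 0 < ν) (hT : 0 < T)
    (hcomp : ∀ R : ℝ, TotallyBounded {v : H | ∃ z, (v, z) ∈ W ∧ ‖z‖ ≤ R})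
    (Q : ∀ d : Dat H K, Adm W m ν T d → Good W m ν T d) {R : ℝ} (hR0 : 0 ≤ R) :
    ∃ M : ℝ, 0 < M ∧ ∀ d : Dat H K, Adm W m ν T d → d.size T ≤ R → ∀ τ : ℝ, 0 < τ → τ ≤ T →
      ∀ (u u1 : ℝ → H) (z z1 : ℝ → K), Str W m ν τ d.F u u1 z z1 → u 0 = d.x →
      ∀ t ∈ Icc 0 τ, ‖z t‖ ≤ M := by
  by_contra hcon
  push Not at hcon
  have hcon' : ∀ n : ℕ, ∃ (d : Dat H K) (τ : ℝ) (u u1 : ℝ → H) (z z1 : ℝ → K) (t : ℝ),
      Adm W m ν T d ∧ d.size T ≤ R ∧ 0 < τ ∧ τ ≤ T ∧ Str W m ν τ d.F u u1 z z1 ∧ u 0 = d.x ∧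
      t ∈ Icc 0 τ ∧ (n : ℝ) + 1 < ‖z t‖ := by
    intro n
    obtain ⟨d, k1, k2, τ, k3, k4, u, u1, z, z1, k5, k6, t, k7, k8⟩ := hcon ((n : ℝ) + 1)
      (by positivity)
    exact ⟨d, τ, u, u1, z, z1, t, k1, k2, k3, k4, k5, k6, k7, k8⟩
  choose d σ u u1 z z1 t h1 h2 h3 h4 h5 h6 h7 h8 using hcon'
  set U : Ultrafilter ℕ := hyperfilter ℕ with hU
  obtain ⟨e, he, hx, hFl, -⟩ := weak_limit Fr hT hcomp U h1 h2
  obtain ⟨v, v1, y, y1, Sv, hv0⟩ := Q e he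
  obtain ⟨N0, hN0, hcore⟩ := core Fr Un hν hT hcomp he.force Sv (R := √R)
    (Φ := √R + √(R * T)) (G := R) (Real.sqrt_nonneg _) (by positivity) hR0
  set N : ℝ := N0 + √R + 1 with hN
  have hsR := Real.sqrt_nonneg R
  have hN' : 0 ≤ N := by positivity
  have hz0 : ∀ i, z i 0 = (d i).z := fun i => z0_eq Fr (h3 i) (h5 i) (h1 i).mem (h6 i)
  have hz : ∀ i, ‖z i 0‖ < N := fun i => by
    rw [hz0]
    have := (dat_bounds hT (h1 i) (h2 i)).1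
    linarith
  have hex := fun i => cut (h3 i) (h5 i) (hz i)
  choose τ k1 k2 k3 k4 k5 using hex
  have S : Fam W m ν T (√R + √(R * T)) R N τ (fun i => (d i).F) (fun i => (d i).F1) u u1 z z1 :=
    ⟨k1, fun i => (k2 i).trans (h4 i), fun i => (h1 i).force, k3,
      fun i => (dat_bounds hT (h1 i) (h2 i)).2.1, fun i => (dat_bounds hT (h1 i) (h2 i)).2.2, k4⟩
  have hx' : Tendsto (fun i => u i 0) U (𝓝 (v 0)) := by
    rw [hv0]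
    exact hx.congr fun i => (h6 i).symm
  have hev := hcore N hN' ℕ U τ _ _ u u1 z z1 S (fun i => by
    rw [hz0]
    exact (dat_bounds hT (h1 i) (h2 i)).1) hx' hFl
  have hlarge : ∀ᶠ n : ℕ in U, N0 ≤ n := by
    have h9 : ∀ᶠ n : ℕ in atTop, N0 ≤ n := tendsto_natCast_atTop_atTop.eventually_ge_atTop N0
    exact Nat.hyperfilter_le_atTop h9
  obtain ⟨n, hn1, hn2⟩ := (hev.and hlarge).exists
  have e1 : τ n = σ n := (k5 n).resolve_right fun hle => by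
    have := hn1 (τ n) ⟨(k1 n).le, le_rfl⟩
    linarith
  have h9 := hn1 (t n) (e1 ▸ h7 n)
  have h10 := h8 n
  linarith

end

end Pool.Agent.X187.NSC
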