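import Pool.Agent.X187.NSC.Close
import Pool.Agent.W52.TQ.Loc
import Pool.Agent.H772R2.NSG.L2c

set_option autoImplicit false

open MeasureTheory Set Filter Topology
open scoped InnerProductSpace

namespace Pool.Agent.X187.NSC

open H772R2.NSR (Frame prim_cont ae_deriv_of_prim memLp_ii joint_cont joint_int m_tendsto unif
  exists_weak_limit mem_of_weak_limit int_sq_le grad_unique)
open H772R2.NSG (toLp_norm_sq toLp_inner)
open Pool.Agent.W795.TQ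

/-- Data: initial velocity with gradient, force with derivative, initial acceleration. -/
structure Dat (H K : Type) where
  x : H
  z : K
  F : ℝ → K
  F1 : ℝ → K
  g : H

variable {H K : Type} [NormedAddCommGroup H] [InnerProductSpace ℝ H] [CompleteSpace H]
  [NormedAddCommGroup K] [InnerProductSpace ℝ K] [CompleteSpace K]
  {W : Submodule ℝ (H × K)} {m : H → K} {C c ν T Φ G N : ℝ} {ι : Type}

/-- The size of the data. -/
noncomputable def Dat.size (T : ℝ) (d : Dat H K) : ℝ :=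
  ‖d.z‖ ^ 2 + ‖d.F 0‖ ^ 2 + (∫ s in (0 : ℝ)..T, ‖d.F1 s‖ ^ 2) + ‖d.g‖ ^ 2

/-- The square of the distance of two data. -/
noncomputable def Dat.dsq (T : ℝ) (d e : Dat H K) : ℝ :=
  ‖d.z - e.z‖ ^ 2 + ‖d.F 0 - e.F 0‖ ^ 2 + (∫ s in (0 : ℝ)..T, ‖d.F1 s - e.F1 s‖ ^ 2)
    + ‖d.g - e.g‖ ^ 2

/-- Admissible data. -/
structure Adm (W : Submodule ℝ (H × K)) (m : H → K) (ν T : ℝ) (d : Dat H K) : Prop where
  mem : (d.x, d.z) ∈ W
  force : FH T d.F d.F1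
  comp : ∀ p ∈ W, ⟪d.F 0 - ν • d.z + m d.x, p.2⟫_ℝ = ⟪d.g, p.1⟫_ℝ

/-- There is a strong solution on `[0,T]` with the data `d`. -/
def Good (W : Submodule ℝ (H × K)) (m : H → K) (ν T : ℝ) (d : Dat H K) : Prop :=
  ∃ (u u1 : ℝ → H) (z z1 : ℝ → K), Str W m ν T d.F u u1 z z1 ∧ u 0 = d.x

omit [CompleteSpace H] [CompleteSpace K] in
theorem size_parts (hT : 0 ≤ T) {d : Dat H K} {R : ℝ} (h : d.size T ≤ R) :
    ‖d.z‖ ^ 2 ≤ R ∧ ‖d.F 0‖ ^ 2 ≤ R ∧ (∫ s in (0 : ℝ)..T, ‖d.F1 s‖ ^ 2) ≤ R ∧ ‖d.g‖ ^ 2 ≤ R := by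
  unfold Dat.size at h
  have h1 : 0 ≤ ∫ s in (0 : ℝ)..T, ‖d.F1 s‖ ^ 2 :=
    intervalIntegral.integral_nonneg hT fun s _ => by positivity
  have h2 := sq_nonneg ‖d.z‖
  have h3 := sq_nonneg ‖d.F 0‖
  have h4 := sq_nonneg ‖d.g‖
  refine ⟨by linarith, by linarith, by linarith, by linarith⟩

omit [CompleteSpace H] [CompleteSpace K] in
theorem size_nonneg (hT : 0 ≤ T) (d : Dat H K) : 0 ≤ d.size T := by
  unfold Dat.size
  have h1 : 0 ≤ ∫ s in (0 : ℝ)..T, ‖d.F1 s‖ ^ 2 :=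
    intervalIntegral.integral_nonneg hT fun s _ => by positivity
  positivity

theorem force_le (hT : 0 ≤ T) {F F1 : ℝ → K} (hF : FH T F F1) {R : ℝ} (hR : 0 ≤ R)
    (h0 : ‖F 0‖ ≤ R) (hG : (∫ s in (0 : ℝ)..T, ‖F1 s‖ ^ 2) ≤ G) :
    ∀ t ∈ Icc 0 T, ‖F t‖ ≤ R + √(G * T) := by
  intro t ht
  have hF1i : IntegrableOn (fun s => ‖F1 s‖ ^ 2) (Ioc 0 T) :=
    (memLp_two_iff_integrable_sq_norm hF.memLp.aestronglyMeasurable).mp hF.memLp
  have hG0 : 0 ≤ G := (intervalIntegral.integral_nonneg hT fun s _ => by positivity).trans hG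
  have h1 := prim_half hF.memLp hF.prim le_rfl ht.1 ht.2
    (int_sub_le hF1i (fun t => by positivity) hG le_rfl ht.1 ht.2)
  have h2 : ‖F t - F 0‖ ≤ √(G * T) := by
    refine Real.le_sqrt_of_sq_le (h1.trans ?_)
    have : t - 0 ≤ T := by linarith [ht.2]
    gcongr
  calc ‖F t‖ = ‖F 0 + (F t - F 0)‖ := by congr 1; abel
    _ ≤ ‖F 0‖ + ‖F t - F 0‖ := norm_add_le _ _
    _ ≤ _ := by linarith

/-- The weak limit of a bounded family of admissible data. -/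
theorem weak_limit (Fr : Frame W m C) (hT : 0 < T)
    (hcomp : ∀ R : ℝ, TotallyBounded {v : H | ∃ z, (v, z) ∈ W ∧ ‖z‖ ≤ R})
    (U : Ultrafilter ι) {d : ι → Dat H K} (hd : ∀ i, Adm W m ν T (d i)) {R : ℝ}
    (hR : ∀ i, (d i).size T ≤ R) :
    ∃ e : Dat H K, Adm W m ν T e ∧ Tendsto (fun i => (d i).x) U (𝓝 e.x) ∧
      (∀ t ∈ Icc 0 T, ∀ k, Tendsto (fun i => ⟪(d i).F t, k⟫_ℝ) U (𝓝 ⟪e.F t, k⟫_ℝ)) ∧
      ∀ s : ℝ, Tendsto (fun i => (d i).size T) U (𝓝 s) →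
        Tendsto (fun i => (d i).dsq T e) U (𝓝 (s - e.size T)) := by
  set μ : Measure ℝ := volume.restrict (Ioc 0 T) with hμ
  have hfin : IsFiniteMeasure μ := by rw [hμ, isFiniteMeasure_restrict]; simp
  have hb := fun i => size_parts hT.le (hR i)
  have hz : ∀ i, ‖(d i).z‖ ≤ √R := fun i => Real.le_sqrt_of_sq_le (hb i).1
  have hF0 : ∀ i, ‖(d i).F 0‖ ≤ √R := fun i => Real.le_sqrt_of_sq_le (hb i).2.1
  have hg : ∀ i, ‖(d i).g‖ ≤ √R := fun i => Real.le_sqrt_of_sq_le (hb i).2.2.2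
  set f : ι → Lp K 2 μ := fun i => (hd i).force.memLp.toLp (d i).F1 with hf
  have hfn : ∀ i, ‖f i‖ ^ 2 = ∫ s in (0 : ℝ)..T, ‖(d i).F1 s‖ ^ 2 := by
    intro i
    rw [hf, toLp_norm_sq, intervalIntegral.integral_of_le hT.le]
  have hfb : ∀ i, ‖f i‖ ≤ √R := fun i => Real.le_sqrt_of_sq_le (by
    rw [hfn]; exact (hb i).2.2.1)
  obtain ⟨z0, hz00, hz0⟩ := exists_weak_limit U (fun i => (d i).z) √R (Eventually.of_forall hz)
  obtain ⟨F0, -, hF00⟩ := exists_weak_limit U (fun i => (d i).F 0) √R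
    (Eventually.of_forall hF0)
  obtain ⟨g0, -, hg0⟩ := exists_weak_limit U (fun i => (d i).g) √R (Eventually.of_forall hg)
  obtain ⟨f0, -, hf0⟩ := exists_weak_limit U f √R (Eventually.of_forall hfb)
  -- the limit of the initial velocities
  have hK : IsCompact (closure {v : H | ∃ z, (v, z) ∈ W ∧ ‖z‖ ≤ √R}) :=
    isCompact_iff_totallyBounded_isComplete.mpr
      ⟨(hcomp _).closure, isClosed_closure.isComplete⟩
  obtain ⟨x0, -, hx⟩ := hK.ultrafilter_le_nhds (U.map (fun i => (d i).x)) (by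
    rw [le_principal_iff]
    show _ ∈ Filter.map (fun i => (d i).x) (U : Filter ι)
    rw [Filter.mem_map]
    refine Filter.univ_mem' (fun i => ?_)
    exact subset_closure ⟨_, (hd i).mem, hz i⟩)
  have hx0 : Tendsto (fun i => (d i).x) U (𝓝 x0) := hx
  have hmem : (x0, z0) ∈ W := mem_of_weak_limit W Fr.closedW (U : Filter ι) _ _ x0 z0
    (Eventually.of_forall fun i => (hd i).mem) (fun k => hx0.inner tendsto_const_nhds) hz0
  have hm : Tendsto (fun i => m (d i).x) U (𝓝 (m x0)) :=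
    m_tendsto Fr hz00 hmem (Eventually.of_forall hz) (Eventually.of_forall fun i => (hd i).mem) hx0
  -- the force
  set F : ℝ → K := fun t => F0 + ∫ s in (0 : ℝ)..t, f0 s with hFdef
  have hf0m : MemLp (f0 : ℝ → K) 2 μ := Lp.memLp f0
  have hf0i : Integrable (f0 : ℝ → K) μ := hf0m.integrable (by norm_num)
  have hii : ∀ a b : ℝ, 0 ≤ a → a ≤ b → b ≤ T → IntervalIntegrable (f0 : ℝ → K) volume a b := by
    intro a b ha hab hb
    rw [intervalIntegrable_iff_integrableOn_Ioc_of_le hab]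
    exact hf0i.mono_measure (Measure.restrict_mono (Ioc_subset_Ioc ha hb) le_rfl)
  have hFH : FH T F (f0 : ℝ → K) := by
    refine ⟨hf0m, fun a b ha hab hb => ?_⟩
    simp only [hFdef]
    rw [add_sub_add_left_eq_sub]
    exact intervalIntegral.integral_interval_sub_left (hii 0 b le_rfl (ha.trans hab) hb)
      (hii 0 a le_rfl ha (hab.trans hb))
  have hFl : ∀ t ∈ Icc 0 T, ∀ k, Tendsto (fun i => ⟪(d i).F t, k⟫_ℝ) U (𝓝 ⟪F t, k⟫_ℝ) := by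
    intro t ht k
    have hms : MeasurableSet (Ioc (0 : ℝ) t) := measurableSet_Ioc
    have hμs : μ (Ioc 0 t) ≠ ⊤ := measure_ne_top _ _
    have hre : μ.restrict (Ioc 0 t) = volume.restrict (Ioc 0 t) := by
      rw [hμ, Measure.restrict_restrict measurableSet_Ioc]
      congr 1
      exact inter_eq_left.2 (Ioc_subset_Ioc_right ht.2)
    have key : ∀ h : Lp K 2 μ, ⟪h, indicatorConstLp 2 hms hμs k⟫_ℝ
        = ⟪∫ s in (0 : ℝ)..t, h s, k⟫_ℝ := by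
      intro h
      rw [real_inner_comm, L2.inner_indicatorConstLp_eq_inner_setIntegral ℝ hms hμs k h,
        real_inner_comm, intervalIntegral.integral_of_le ht.1, hre]
    have h1 := hf0 (indicatorConstLp 2 hms hμs k)
    simp only [key] at h1
    have h2 := (hF00 k).add h1
    rw [← inner_add_left] at h2
    refine h2.congr fun i => ?_
    have h3 := (hd i).force.prim 0 t le_rfl ht.1 ht.2
    have h4 : ∫ s in (0 : ℝ)..t, (f i : ℝ → K) s = ∫ s in (0 : ℝ)..t, (d i).F1 s := by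
      rw [intervalIntegral.integral_of_le ht.1, intervalIntegral.integral_of_le ht.1]
      refine integral_congr_ae ?_
      exact ae_mono (Measure.restrict_mono (Ioc_subset_Ioc_right ht.2) le_rfl)
        (hd i).force.memLp.coeFn_toLp
    rw [h4, ← h3, ← inner_add_left]
    congr 1
    abel
  have hF0e : F 0 = F0 := by simp [hFdef]
  refine ⟨⟨x0, z0, F, f0, g0⟩, ⟨hmem, hFH, ?_⟩, hx0, hFl, ?_⟩
  · intro p hp
    show ⟪F 0 - ν • z0 + m x0, p.2⟫_ℝ = ⟪g0, p.1⟫_ℝ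
    refine tendsto_nhds_unique ?_ (hg0 p.1)
    have h1 : Tendsto (fun i => ⟪(d i).F 0 - ν • (d i).z + m (d i).x, p.2⟫_ℝ) U
        (𝓝 ⟪F 0 - ν • z0 + m x0, p.2⟫_ℝ) := by
      simp only [inner_add_left, inner_sub_left, real_inner_smul_left]
      exact ((hFl 0 ⟨le_rfl, hT.le⟩ p.2).sub ((hz0 p.2).const_mul ν)).add
        (hm.inner tendsto_const_nhds)
    exact h1.congr fun i => (hd i).comp p hp
  · intro s hs
    have hf0n : ∫ s in (0 : ℝ)..T, ‖f0 s‖ ^ 2 = ‖f0‖ ^ 2 := by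
      rw [intervalIntegral.integral_of_le hT.le, ← real_inner_self_eq_norm_sq, L2.inner_def]
      refine integral_congr_ae (Eventually.of_forall fun s => ?_)
      show ‖f0 s‖ ^ 2 = ⟪f0 s, f0 s⟫_ℝ
      rw [real_inner_self_eq_norm_sq]
    have hfd : ∀ i, ∫ s in (0 : ℝ)..T, ‖(d i).F1 s - f0 s‖ ^ 2 = ‖f i - f0‖ ^ 2 := by
      intro i
      rw [intervalIntegral.integral_of_le hT.le, ← real_inner_self_eq_norm_sq, L2.inner_def]
      refine integral_congr_ae ?_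
      filter_upwards [Lp.coeFn_sub (f i) f0, (hd i).force.memLp.coeFn_toLp] with s h1 h2
      show ‖(d i).F1 s - f0 s‖ ^ 2 = ⟪(f i - f0) s, (f i - f0) s⟫_ℝ
      rw [real_inner_self_eq_norm_sq, h1]
      show _ = ‖(f i) s - f0 s‖ ^ 2
      rw [hf, h2]
    have hes : Dat.size T ⟨x0, z0, F, f0, g0⟩ = ‖z0‖ ^ 2 + ‖F0‖ ^ 2 + ‖f0‖ ^ 2 + ‖g0‖ ^ 2 := by
      show ‖z0‖ ^ 2 + ‖F 0‖ ^ 2 + (∫ s in (0 : ℝ)..T, ‖f0 s‖ ^ 2) + ‖g0‖ ^ 2 = _
      rw [hf0n, hF0e]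
    rw [hes]
    have h1 := (((hz0 z0).add (hF00 F0)).add (hf0 f0)).add (hg0 g0)
    simp only [real_inner_self_eq_norm_sq] at h1
    have h2 := (hs.sub (h1.const_mul 2)).add
      (tendsto_const_nhds (x := ‖z0‖ ^ 2 + ‖F0‖ ^ 2 + ‖f0‖ ^ 2 + ‖g0‖ ^ 2))
    have e1 : s - 2 * (‖z0‖ ^ 2 + ‖F0‖ ^ 2 + ‖f0‖ ^ 2 + ‖g0‖ ^ 2)
        + (‖z0‖ ^ 2 + ‖F0‖ ^ 2 + ‖f0‖ ^ 2 + ‖g0‖ ^ 2)
        = s - (‖z0‖ ^ 2 + ‖F0‖ ^ 2 + ‖f0‖ ^ 2 + ‖g0‖ ^ 2) := by ring
    rw [e1] at h2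
    refine h2.congr fun i => ?_
    show (d i).size T - 2 * (⟪(d i).z, z0⟫_ℝ + ⟪(d i).F 0, F0⟫_ℝ + ⟪f i, f0⟫_ℝ + ⟪(d i).g, g0⟫_ℝ)
      + (‖z0‖ ^ 2 + ‖F0‖ ^ 2 + ‖f0‖ ^ 2 + ‖g0‖ ^ 2)
      = ‖(d i).z - z0‖ ^ 2 + ‖(d i).F 0 - F 0‖ ^ 2 + (∫ s in (0 : ℝ)..T, ‖(d i).F1 s - f0 s‖ ^ 2)
        + ‖(d i).g - g0‖ ^ 2
    rw [hfd, hF0e, norm_sub_sq_real, norm_sub_sq_real, norm_sub_sq_real, norm_sub_sq_real]
    unfold Dat.size
    rw [← hfn]
    ring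

omit [CompleteSpace H] [CompleteSpace K] in
theorem dsq_nonneg (hT : 0 ≤ T) (d e : Dat H K) : 0 ≤ d.dsq T e := by
  unfold Dat.dsq
  have h1 : 0 ≤ ∫ s in (0 : ℝ)..T, ‖d.F1 s - e.F1 s‖ ^ 2 :=
    intervalIntegral.integral_nonneg hT fun s _ => by positivity
  positivity

end Pool.Agent.X187.NSC
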