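import Pool.Agent.X187.NSC.Grad

set_option autoImplicit false

open MeasureTheory Set Filter Topology
open scoped InnerProductSpace

namespace Pool.Agent.X187.NSC

open H772R2.NSR (Frame prim_cont)
open H772R2.NSG (LH)
open Pool.Agent.W795.TQ
open Pool.Agent.W795.HE (SE)

section

variable {H K : Type} [NormedAddCommGroup H] [InnerProductSpace ℝ H] [CompleteSpace H]
  [NormedAddCommGroup K] [InnerProductSpace ℝ K] [CompleteSpace K]

/-- A priori bound of the strong solutions in terms of the energy. -/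
def APs (W : Submodule ℝ (H × K)) (m : H → K) (ν T : ℝ) : Prop :=
  ∀ R ε : ℝ, 0 < ε → ∃ M : ℝ, ∀ τ : ℝ, 0 < τ → τ ≤ T → ∀ (F F1 : ℝ → K) (u u1 : ℝ → H)
    (z z1 : ℝ → K), FH τ F F1 → Str W m ν τ F u u1 z z1 →
    ‖u 0‖ ≤ R → ‖F 0‖ ≤ R → (∫ s in (0 : ℝ)..τ, ‖F1 s‖ ^ 2) ≤ R →
    (∀ t ∈ Icc ε τ, ‖z t‖ ≤ M) ∧ (∀ᵐ t ∂(volume.restrict (Ioc ε τ)), ‖u1 t‖ ≤ M) ∧
      ∫ s in ε..τ, ‖z1 s‖ ^ 2 ≤ M

/-- A priori bound of the Leray-Hopf solutions in terms of the energy. -/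
def APl (W : Submodule ℝ (H × K)) (m : H → K) (ν T : ℝ) : Prop :=
  ∀ R ε : ℝ, 0 < ε → ∃ M : ℝ, ∀ τ : ℝ, 0 < τ → τ ≤ T → ∀ (F F1 : ℝ → K) (u : ℝ → H)
    (z : ℝ → K), FH τ F F1 → LH W m τ (fun _ => ν) F (u 0) u z → SE ν τ F u z →
    ‖u 0‖ ≤ R → ‖F 0‖ ≤ R → (∫ s in (0 : ℝ)..τ, ‖F1 s‖ ^ 2) ≤ R →
    ∀ᵐ t ∂(volume.restrict (Ioc ε τ)), ‖z t‖ ≤ M

variable {W : Submodule ℝ (H × K)} {m : H → K} {C c ν T : ℝ}

theorem good_APl (Fr : Frame W m C) (Un : Univ W m c) (hν : 0 < ν) (hT : 0 < T)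
    (hcomp : ∀ R : ℝ, TotallyBounded {v : H | ∃ z, (v, z) ∈ W ∧ ‖z‖ ≤ R})
    (Q : ∀ d : Dat H K, Adm W m ν T d → Good W m ν T d) : APl W m ν T := by
  intro R ε hε
  obtain ⟨M, hM, h⟩ := lh_bound Fr Un hν hT hcomp Q (le_max_right R 0) hε
  exact ⟨M, fun τ hτ hτT F F1 u z hF L hSE h1 h2 h3 => h τ hτ hτT F F1 u z hF L hSE
    (h1.trans (le_max_left _ _)) (h2.trans (le_max_left _ _)) (h3.trans (le_max_left _ _))⟩

theorem APl_APs (Fr : Frame W m C) (Un : Univ W m c) (hν : 0 < ν) (hT : 0 < T)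
    (h : APl W m ν T) : APs W m ν T := by
  intro R ε hε
  obtain ⟨M, hM⟩ := h R (ε / 2) (by positivity)
  set R' : ℝ := max R 0 with hR'
  have hR'0 : 0 ≤ R' := le_max_right _ _
  set M' : ℝ := max M 0 with hM'
  have hM'0 : 0 ≤ M' := le_max_right _ _
  set Φ : ℝ := R' + √(R' * T) with hΦ
  obtain ⟨A, hA, hstr⟩ := str_bounds c ν Φ R' M' T Un.c0 hν (by positivity) hR'0 hM'0 hT
  refine ⟨M' + √(2 * A / ε) + 2 * A / ε, ?_⟩
  intro τ hτ hτT F F1 u u1 z z1 hF S hu0 hF0 hFG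
  have p1 : 0 ≤ √(2 * A / ε) := Real.sqrt_nonneg _
  have p2 : 0 ≤ 2 * A / ε := by positivity
  rcases lt_or_ge τ ε with hτε | hτε
  · refine ⟨fun t ht => absurd (ht.1.trans ht.2) (not_le.2 hτε), ?_, ?_⟩
    · rw [Ioc_eq_empty (not_lt.2 hτε.le), Measure.restrict_empty]
      simp
    · rw [intervalIntegral.integral_symm]
      have : 0 ≤ ∫ s in τ..ε, ‖z1 s‖ ^ 2 :=
        intervalIntegral.integral_nonneg hτε.le fun s _ => by positivity
      linarith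
  have hlt : ε / 2 < τ := by linarith
  have hzc : ContinuousOn z (Icc 0 τ) := prim_cont S.z1m S.pz
  have hae := hM τ hτ hτT F F1 u z hF (str_toLH Fr hF S) (str_toSE hF S) hu0 hF0 hFG
  have hall : ∀ t ∈ Icc (ε / 2) τ, ‖z t‖ ≤ M' := fun t ht =>
    (ae_le_all hlt (hzc.mono (Icc_subset_Icc_left (by positivity))).norm hae t ht).trans
      (le_max_left _ _)
  have hFb : ∀ t ∈ Icc 0 τ, ‖F t‖ ≤ Φ := by
    intro t ht
    refine (force_le (G := R') hτ.le hF hR'0 (hF0.trans (le_max_left _ _))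
      (hFG.trans (le_max_left _ _)) t ht).trans ?_
    rw [hΦ]
    gcongr
  obtain ⟨-, h2, h3⟩ := hstr H K W m C (ε / 2) τ F F1 u u1 z z1 Fr Un (by positivity) hlt
    (by linarith) hF S hFb (hFG.trans (le_max_left _ _)) hall
  refine ⟨fun t ht => ?_, ?_, ?_⟩
  · have := hall t ⟨by linarith [ht.1], ht.2⟩
    linarith
  · have hsub : (volume.restrict (Ioc ε τ) : Measure ℝ) ≤ volume.restrict (Ioc (ε / 2) τ) :=
      Measure.restrict_mono (Ioc_subset_Ioc_left (by linarith)) le_rfl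
    filter_upwards [ae_mono hsub h3, ae_restrict_mem measurableSet_Ioc] with t h4 h5
    have h6 : ‖u1 t‖ ≤ √(2 * A / ε) := by
      refine Real.le_sqrt_of_sq_le ?_
      rw [le_div_iff₀ hε]
      have h7 : ε / 2 * ‖u1 t‖ ^ 2 ≤ (t - ε / 2) * ‖u1 t‖ ^ 2 := by
        gcongr
        linarith [h5.1]
      linarith
    linarith
  · have hz1i : IntegrableOn (fun s => ‖z1 s‖ ^ 2) (Ioc 0 τ) :=
      (memLp_two_iff_integrable_sq_norm S.z1m.aestronglyMeasurable).mp S.z1m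
    have hi2 : IntegrableOn (fun s => (s - ε / 2) * ‖z1 s‖ ^ 2) (Ioc (ε / 2) τ) := by
      refine ((hz1i.mono_set (Ioc_subset_Ioc_left (by positivity))).const_mul τ).mono' ?_ ?_
      · exact ((continuous_id.sub continuous_const).aestronglyMeasurable).mul
          (hz1i.mono_set (Ioc_subset_Ioc_left (by positivity))).aestronglyMeasurable
      · filter_upwards [ae_restrict_mem measurableSet_Ioc] with r hr
        have h1 : 0 ≤ r - ε / 2 := by linarith [hr.1]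
        rw [Real.norm_of_nonneg (by positivity)]
        gcongr
        linarith [hr.2]
    have h4 : ∫ s in ε..τ, ‖z1 s‖ ^ 2 ≤ ∫ s in ε..τ, 2 / ε * ((s - ε / 2) * ‖z1 s‖ ^ 2) := by
      refine intervalIntegral.integral_mono_on hτε ?_ ?_ ?_
      · rw [intervalIntegrable_iff_integrableOn_Ioc_of_le hτε]
        exact hz1i.mono_set (Ioc_subset_Ioc_left hε.le)
      · rw [intervalIntegrable_iff_integrableOn_Ioc_of_le hτε]
        exact (hi2.mono_set (Ioc_subset_Ioc_left (by linarith))).const_mul _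
      · intro s hs
        have h5 : ε / 2 ≤ s - ε / 2 := by linarith [hs.1]
        have h6 : 1 ≤ 2 / ε * (s - ε / 2) := by
          rw [div_mul_eq_mul_div, le_div_iff₀ hε]; linarith
        calc ‖z1 s‖ ^ 2 = 1 * ‖z1 s‖ ^ 2 := by ring
          _ ≤ 2 / ε * (s - ε / 2) * ‖z1 s‖ ^ 2 := by gcongr
          _ = _ := by ring
    rw [intervalIntegral.integral_const_mul] at h4
    have h7 : ∫ s in ε..τ, (s - ε / 2) * ‖z1 s‖ ^ 2 ≤ A := by
      refine le_trans ?_ h2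
      rw [intervalIntegral.integral_of_le hτε, intervalIntegral.integral_of_le hlt.le]
      refine setIntegral_mono_set hi2 ?_ (Ioc_subset_Ioc_left (by linarith)).eventuallyLE
      filter_upwards [ae_restrict_mem measurableSet_Ioc] with r hr
      have h1 : 0 ≤ r - ε / 2 := by linarith [hr.1]
      show 0 ≤ (r - ε / 2) * ‖z1 r‖ ^ 2
      positivity
    have h8 : 2 / ε * ∫ s in ε..τ, (s - ε / 2) * ‖z1 s‖ ^ 2 ≤ 2 / ε * A := by gcongr
    have h9 : 2 / ε * A = 2 * A / ε := by ring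
    linarith

theorem APs_good (Fr : Frame W m C) (Un : Univ W m c) (hν : 0 < ν) (hT : 0 < T)
    (hcomp : ∀ R : ℝ, TotallyBounded {v : H | ∃ z, (v, z) ∈ W ∧ ‖z‖ ≤ R})
    (h : APs W m ν T) : ∀ d : Dat H K, Adm W m ν T d → Good W m ν T d := by
  intro d hd
  set G : ℝ := ∫ s in (0 : ℝ)..T, ‖d.F1 s‖ ^ 2 with hG
  have hG0 : 0 ≤ G := intervalIntegral.integral_nonneg hT.le fun s _ => by positivity
  set R : ℝ := ‖d.x‖ + ‖d.F 0‖ + G with hR
  have hxn := norm_nonneg d.x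
  have hFn := norm_nonneg (d.F 0)
  have hR0 : 0 ≤ R := by positivity
  set Φ : ℝ := R + √(R * T) with hΦ
  obtain ⟨δ, B, A, hδ, hB, hA, hloc⟩ := loc_bound c ν ‖d.z‖ Φ R T Un.c0 hν (norm_nonneg _)
    (by positivity) hR0 hT
  obtain ⟨M, hM⟩ := h R δ hδ
  set N : ℝ := ‖d.z‖ + B + |M| + 1 with hN
  have hzn := norm_nonneg d.z
  have hMn := abs_nonneg M
  obtain ⟨τ, u, u1, z, z1, k1, k2, k3, k4, k5⟩ := Pool.Agent.W52.TQ.proof_loc H K W m C ν T
    d.F d.F1 d.x d.g d.z N Fr hcomp hν hT hd.force hd.mem hd.comp (by linarith)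
  rcases k5 with k5 | k5
  · exact ⟨u, u1, z, z1, k5 ▸ k3, k4⟩
  exfalso
  have hFb : ∀ t ∈ Icc 0 T, ‖d.F t‖ ≤ Φ := by
    intro t ht
    exact force_le hT.le hd.force hR0 (by linarith) (by linarith) t ht
  have hF1i : IntegrableOn (fun s => ‖d.F1 s‖ ^ 2) (Ioc 0 T) :=
    (memLp_two_iff_integrable_sq_norm hd.force.memLp.aestronglyMeasurable).mp hd.force.memLp
  have hGτ : ∫ s in (0 : ℝ)..τ, ‖d.F1 s‖ ^ 2 ≤ R :=
    int_sub_le hF1i (fun t => by positivity) (by linarith) le_rfl k1.le k2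
  rcases le_or_gt τ δ with hτδ | hτδ
  · have h1 := (hloc H K W m C 0 τ d.F d.F1 u u1 z z1 Fr Un le_rfl k1 k2 (by linarith)
      (FH.mono hd.force k2) k3 (fun t ht => hFb t ⟨ht.1, ht.2.trans k2⟩) hGτ (by
        rw [z0_eq Fr k1 k3 hd.mem k4])).1 τ ⟨k1.le, le_rfl⟩
    linarith
  · have h1 := (hM τ k1 k2 d.F d.F1 u u1 z z1 (FH.mono hd.force k2) k3 (by rw [k4]; linarith)
      (by linarith) hGτ).1 τ ⟨hτδ.le, le_rfl⟩
    have h2 := le_abs_self M
    linarith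

theorem equiv_abs (Fr : Frame W m C) (Un : Univ W m c) (hν : 0 < ν) (hT : 0 < T)
    (hcomp : ∀ R : ℝ, TotallyBounded {v : H | ∃ z, (v, z) ∈ W ∧ ‖z‖ ≤ R}) :
    List.TFAE [∀ d : Dat H K, Adm W m ν T d → Good W m ν T d, APs W m ν T, APl W m ν T] := by
  tfae_have 1 → 3 := good_APl Fr Un hν hT hcomp
  tfae_have 3 → 2 := APl_APs Fr Un hν hT
  tfae_have 2 → 1 := APs_good Fr Un hν hT hcomp
  tfae_finish

end

end Pool.Agent.X187.NSC
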