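import Pool.Agent.X187.NSC.Grow

set_option autoImplicit false

open MeasureTheory Set Filter Topology
open scoped InnerProductSpace

namespace Pool.Agent.X187.NSC

open H772R2.NSR (Frame prim_cont ae_deriv_of_prim memLp_ii)
open Pool.Agent.W795.TQ

theorem str_deriv_weak {H K : Type} [NormedAddCommGroup H] [InnerProductSpace ℝ H]
    [CompleteSpace H] [NormedAddCommGroup K] [InnerProductSpace ℝ K] [CompleteSpace K]
    {W : Submodule ℝ (H × K)} {m : H → K} {C ν T : ℝ} {F F1 : ℝ → K} {u u1 : ℝ → H}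
    {z z1 : ℝ → K} (Fr : Frame W m C) (hT : 0 < T) (hF : FH T F F1)
    (S : Str W m ν T F u u1 z z1) : ∀ᵐ s ∂(volume.restrict (Ioc 0 T)), ∀ p ∈ W,
      ⟪u1 s, p.1⟫_ℝ = ⟪F s - ν • z s + m (u s), p.2⟫_ℝ := by
  obtain ⟨Z, hSt⟩ := Pool.Agent.W503.TQ.toSt (prim_cont hF.memLp hF.prim) S
  exact hSt.deriv_weak Fr hT

theorem four_le {a b : ℝ} : (a + b) ^ 4 ≤ 8 * (a ^ 4 + b ^ 4) := by
  have h1 : (a + b) ^ 2 ≤ 2 * (a ^ 2 + b ^ 2) := by nlinarith [sq_nonneg (a - b)]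
  have h2 : (a + b) ^ 4 = ((a + b) ^ 2) ^ 2 := by ring
  rw [h2]
  have h3 : ((a + b) ^ 2) ^ 2 ≤ (2 * (a ^ 2 + b ^ 2)) ^ 2 := by gcongr
  nlinarith [sq_nonneg (a ^ 2 - b ^ 2)]

set_option maxHeartbeats 4000000 in
/-- A strong solution which is close to a given one in `L²` has a gradient bounded independently of
the bound `N` which is known a priori. -/
theorem far_bound (C c ν R Φ G T0 Y V : ℝ) (hC : 0 < C) (hc : 0 < c) (hν : 0 < ν) (hR : 0 ≤ R)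
    (hΦ : 0 ≤ Φ) (hG : 0 ≤ G) (hT0 : 0 < T0) (hV : 0 ≤ V) :
    ∃ N0 : ℝ, 0 < N0 ∧ ∀ N : ℝ, 0 ≤ N → ∃ η : ℝ, 0 < η ∧ ∀ (H K : Type) [NormedAddCommGroup H]
      [InnerProductSpace ℝ H] [CompleteSpace H] [NormedAddCommGroup K] [InnerProductSpace ℝ K]
      [CompleteSpace K]
      (W : Submodule ℝ (H × K)) (m : H → K) (τ : ℝ) (F F1 Fv Fv1 : ℝ → K) (u u1 v v1 : ℝ → H)
      (z z1 y y1 : ℝ → K), Frame W m C → Univ W m c → 0 < τ → τ ≤ T0 →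
      FH τ F F1 → Str W m ν τ F u u1 z z1 → (∀ t ∈ Icc 0 τ, ‖F t‖ ≤ Φ) →
      (∫ s in (0 : ℝ)..τ, ‖F1 s‖ ^ 2) ≤ G → ‖z 0‖ ≤ R → (∀ t ∈ Icc 0 τ, ‖z t‖ ≤ N) →
      FH τ Fv Fv1 → Str W m ν τ Fv v v1 y y1 → (∀ t ∈ Icc 0 τ, ‖Fv t‖ ≤ Φ) →
      (∀ t ∈ Icc 0 τ, ‖y t‖ ≤ Y) → (∀ᵐ t ∂(volume.restrict (Ioc 0 τ)), ‖v1 t‖ ≤ V) →
      (∀ t ∈ Icc 0 τ, ‖u t - v t‖ ≤ η) → ∀ t ∈ Icc 0 τ, ‖z t‖ ≤ N0 := by
  obtain ⟨δ, B, A, hδ, hB, hA, hloc⟩ := loc_bound c ν R Φ G T0 hc hν hR hΦ hG hT0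
  set k : ℝ := 14 * c ^ 4 / ν ^ 3 with hk
  have hk0 : 0 < k := by positivity
  set K0 : ℝ := 4 * Φ ^ 2 / ν + (c * Y) ^ 4 / (ν / 4) ^ 3 + V with hK0
  have hK00 : 0 ≤ K0 := by
    have h1 : (0 : ℝ) ≤ (c * Y) ^ 4 := by positivity
    positivity
  set E : ℝ := k * (8 * Y ^ 4 + 64 / ν ^ 2 * K0 ^ 2) * T0 + 1 with hE
  set Q : ℝ := (2 * A / δ + 2 / ν * G) * Real.exp E with hQ
  have hQ0 : 0 ≤ Q := by positivity
  set N0 : ℝ := B + (Φ + C * √Q) / ν with hN0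
  have hN00 : 0 ≤ (Φ + C * √Q) / ν := by positivity
  refine ⟨N0, by positivity, ?_⟩
  intro N hN
  obtain ⟨AN, hAN, hstr⟩ := str_bounds c ν Φ G N T0 hc hν hΦ hG hN hT0
  set η : ℝ := min 1 (√(1 / (k * (64 / ν ^ 2) * AN))) with hη
  have hη0 : 0 < η := lt_min one_pos (Real.sqrt_pos.2 (by positivity))
  have hη1 : η ≤ 1 := min_le_left _ _
  have hη2 : k * (64 / ν ^ 2) * AN * η ^ 2 ≤ 1 := by
    have h1 : η ^ 2 ≤ 1 / (k * (64 / ν ^ 2) * AN) := by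
      calc η ^ 2 ≤ (√(1 / (k * (64 / ν ^ 2) * AN))) ^ 2 := by
            gcongr
            exact min_le_right _ _
        _ = _ := Real.sq_sqrt (by positivity)
    calc k * (64 / ν ^ 2) * AN * η ^ 2
        ≤ k * (64 / ν ^ 2) * AN * (1 / (k * (64 / ν ^ 2) * AN)) := by gcongr
      _ = 1 := by field_simp
  refine ⟨η, hη0, ?_⟩
  intro H K _ _ _ _ _ _ W m τ F F1 Fv Fv1 u u1 v v1 z z1 y y1 Fr Un hτ hτT0 hF S hFb hFG hzR hzN
    hFv Sv hFvb hyY hv1 huv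
  have hzc : ContinuousOn z (Icc 0 τ) := prim_cont S.z1m S.pz
  have hF1i : IntegrableOn (fun s => ‖F1 s‖ ^ 2) (Ioc 0 τ) :=
    (memLp_two_iff_integrable_sq_norm hF.memLp.aestronglyMeasurable).mp hF.memLp
  have hu1i : IntegrableOn (fun s => ‖u1 s‖ ^ 2) (Ioc 0 τ) :=
    (memLp_two_iff_integrable_sq_norm S.u1m.aestronglyMeasurable).mp S.u1m
  by_cases hcase : τ ≤ δ
  · intro t ht
    have h1 := (hloc H K W m C 0 τ F F1 u u1 z z1 Fr Un le_rfl hτ hτT0 (by linarith) hF S hFb hFG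
      hzR).1 t ht
    rw [hN0]; linarith
  push Not at hcase
  -- the first part
  have hδτ : δ ≤ τ := hcase.le
  obtain ⟨hzB, -, ha⟩ := hloc H K W m C 0 δ F F1 u u1 z z1 Fr Un le_rfl hδ (hδτ.trans hτT0)
    (by linarith) (FH.mono hF hδτ) (S.mono hδτ) (fun t ht => hFb t ⟨ht.1, ht.2.trans hδτ⟩)
    (int_sub_le hF1i (fun t => by positivity) hFG le_rfl hδ.le hδτ) hzR
  -- a good time
  obtain ⟨r, hr, dr, hur⟩ : ∃ r ∈ Ioo (δ / 2) δ, HasDerivAt u (u1 r) r ∧ ‖u1 r‖ ^ 2 ≤ 2 * A / δ := by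
    have hsub : (volume.restrict (Ioo (δ / 2) δ) : Measure ℝ) ≤ volume.restrict (Ioc 0 δ) :=
      Measure.restrict_mono (show Ioo (δ / 2) δ ⊆ Ioc 0 δ from
        fun s hs => ⟨by linarith [hs.1], hs.2.le⟩) le_rfl
    have hsub2 : (volume.restrict (Ioo (δ / 2) δ) : Measure ℝ) ≤ volume.restrict (Ioc 0 τ) :=
      Measure.restrict_mono (show Ioo (δ / 2) δ ⊆ Ioc 0 τ from
        fun s hs => ⟨by linarith [hs.1], by linarith [hs.2]⟩) le_rfl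
    have h1 : ∀ᵐ s ∂(volume.restrict (Ioo (δ / 2) δ)), s ∈ Ioo (δ / 2) δ ∧
        HasDerivAt u (u1 s) s ∧ ‖u1 s‖ ^ 2 ≤ 2 * A / δ := by
      filter_upwards [ae_mono hsub ha, ae_mono hsub2
        (ae_deriv_of_prim hτ (memLp_ii hτ.le S.u1m) S.pu), ae_restrict_mem measurableSet_Ioo]
        with s h1 h2 h3
      refine ⟨h3, h2, ?_⟩
      rw [le_div_iff₀ hδ]
      rw [sub_zero] at h1
      have h4 : δ / 2 * ‖u1 s‖ ^ 2 ≤ s * ‖u1 s‖ ^ 2 := by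
        gcongr
        exact h3.1.le
      linarith
    have hne : (volume.restrict (Ioo (δ / 2) δ) : Measure ℝ) ≠ 0 := by
      rw [Ne, Measure.restrict_eq_zero, Real.volume_Ioo]
      simp only [ENNReal.ofReal_eq_zero, not_le]
      linarith
    have : (ae (volume.restrict (Ioo (δ / 2) δ) : Measure ℝ)).NeBot := ae_neBot.2 hne
    obtain ⟨r, hr⟩ := h1.exists
    exact ⟨r, hr⟩
  have hr0 : 0 < r := by linarith [hr.1]
  have hrτ : r < τ := hr.2.trans hcase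
  have hgr := u1_gron Fr Un hν hF S hFG hr0.le hrτ dr
  obtain ⟨hAN', -, -⟩ := hstr H K W m C 0 τ F F1 u u1 z z1 Fr Un le_rfl hτ (by linarith) hF S hFb
    hFG hzN
  have hdw := str_deriv_weak Fr hτ hF S
  have hdwv := str_deriv_weak Fr hτ hFv Sv
  -- pointwise bound of the gradient
  have hz4 : ∀ᵐ t ∂(volume.restrict (Ioc 0 τ)), k * ‖z t‖ ^ 4
      ≤ k * (8 * Y ^ 4 + 64 / ν ^ 2 * K0 ^ 2) + k * (64 / ν ^ 2) * η ^ 2 * ‖u1 t‖ ^ 2 := by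
    filter_upwards [hdw, hdwv, hv1, ae_restrict_mem measurableSet_Ioc] with t h1 h2 h3 hts
    have htI := Ioc_subset_Icc_self hts
    have hw := huv t htI
    have h4 := diff_grad Fr Un hν (S.mem t htI) (Sv.mem t htI) h1 h2 (hFb t htI) (hFvb t htI)
      (hyY t htI) h3 (hw.trans hη1)
    rw [← hK0] at h4
    have h5 : ‖z t - y t‖ ^ 2 ≤ 2 / ν * (K0 + η * ‖u1 t‖) := h4.trans (by gcongr)
    have h6 : ‖z t - y t‖ ^ 4 ≤ 8 / ν ^ 2 * (K0 ^ 2 + η ^ 2 * ‖u1 t‖ ^ 2) := by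
      calc ‖z t - y t‖ ^ 4 = (‖z t - y t‖ ^ 2) ^ 2 := by ring
        _ ≤ (2 / ν * (K0 + η * ‖u1 t‖)) ^ 2 := by gcongr
        _ = 4 / ν ^ 2 * (K0 + η * ‖u1 t‖) ^ 2 := by field_simp; ring
        _ ≤ 4 / ν ^ 2 * (2 * (K0 ^ 2 + η ^ 2 * ‖u1 t‖ ^ 2)) := by
          gcongr
          nlinarith [sq_nonneg (K0 - η * ‖u1 t‖)]
        _ = _ := by ring
    have h7 : ‖z t‖ ≤ ‖y t‖ + ‖z t - y t‖ := by
      calc ‖z t‖ = ‖y t + (z t - y t)‖ := by congr 1; abel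
        _ ≤ _ := norm_add_le _ _
    have hy := hyY t htI
    have h8 : ‖z t‖ ^ 4 ≤ 8 * Y ^ 4 + 64 / ν ^ 2 * K0 ^ 2 + 64 / ν ^ 2 * (η ^ 2 * ‖u1 t‖ ^ 2) := by
      calc ‖z t‖ ^ 4 ≤ (‖y t‖ + ‖z t - y t‖) ^ 4 := by gcongr
        _ ≤ 8 * (‖y t‖ ^ 4 + ‖z t - y t‖ ^ 4) := four_le
        _ ≤ 8 * (Y ^ 4 + 8 / ν ^ 2 * (K0 ^ 2 + η ^ 2 * ‖u1 t‖ ^ 2)) := by gcongr
        _ = _ := by ring
    calc k * ‖z t‖ ^ 4 ≤ k * (8 * Y ^ 4 + 64 / ν ^ 2 * K0 ^ 2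
          + 64 / ν ^ 2 * (η ^ 2 * ‖u1 t‖ ^ 2)) := by gcongr
      _ = _ := by ring
  have hYn : 0 ≤ 8 * Y ^ 4 + 64 / ν ^ 2 * K0 ^ 2 := by
    have h1 : (0 : ℝ) ≤ Y ^ 4 := by positivity
    positivity
  have hint : ∀ t ∈ Ioc r τ, ∫ s in r..t, k * ‖z s‖ ^ 4 ≤ E := by
    intro t ht
    have hsub : (volume.restrict (Ioc r t) : Measure ℝ) ≤ volume.restrict (Ioc 0 τ) :=
      Measure.restrict_mono (Ioc_subset_Ioc hr0.le ht.2) le_rfl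
    have i1 : IntegrableOn (fun s => k * ‖z s‖ ^ 4) (Ioc r t) :=
      ((continuousOn_const.mul (hzc.norm.pow 4)).integrableOn_Icc (μ := volume)
        (a := 0) (b := τ) |>.mono_set (fun s hs => ⟨by linarith [hs.1], hs.2.trans ht.2⟩))
    have i3 : IntegrableOn (fun s => k * (64 / ν ^ 2) * η ^ 2 * ‖u1 s‖ ^ 2) (Ioc r t) :=
      (hu1i.mono_set (Ioc_subset_Ioc hr0.le ht.2)).const_mul _
    have i4 : IntegrableOn (fun _ : ℝ => k * (8 * Y ^ 4 + 64 / ν ^ 2 * K0 ^ 2)) (Ioc r t) :=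
      (continuousOn_const.integrableOn_Icc).mono_set Ioc_subset_Icc_self
    have i34 : IntegrableOn (fun s => k * (8 * Y ^ 4 + 64 / ν ^ 2 * K0 ^ 2)
      + k * (64 / ν ^ 2) * η ^ 2 * ‖u1 s‖ ^ 2) (Ioc r t) := i4.add i3
    have h1 := integral_mono_ae i1 i34 (ae_mono hsub hz4)
    rw [intervalIntegral.integral_of_le ht.1.le]
    refine h1.trans ?_
    have e1 : ∫ s in Ioc r t, (k * (8 * Y ^ 4 + 64 / ν ^ 2 * K0 ^ 2)
        + k * (64 / ν ^ 2) * η ^ 2 * ‖u1 s‖ ^ 2)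
        = k * (8 * Y ^ 4 + 64 / ν ^ 2 * K0 ^ 2) * (t - r)
          + k * (64 / ν ^ 2) * η ^ 2 * ∫ s in Ioc r t, ‖u1 s‖ ^ 2 := by
      rw [← integral_const_mul]
      have := integral_add i4 i3
      refine this.trans ?_
      congr 1
      rw [setIntegral_const]
      simp only [Measure.real, Real.volume_Ioc, smul_eq_mul]
      rw [ENNReal.toReal_ofReal (by linarith [ht.1])]
      ring
    rw [e1, hE]
    have h2 : ∫ s in Ioc r t, ‖u1 s‖ ^ 2 ≤ AN := by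
      rw [← intervalIntegral.integral_of_le ht.1.le]
      exact int_sub_le hu1i (fun t => by positivity) hAN' hr0.le ht.1.le ht.2
    have h3 : k * (64 / ν ^ 2) * η ^ 2 * ∫ s in Ioc r t, ‖u1 s‖ ^ 2 ≤ 1 := by
      calc k * (64 / ν ^ 2) * η ^ 2 * ∫ s in Ioc r t, ‖u1 s‖ ^ 2
          ≤ k * (64 / ν ^ 2) * η ^ 2 * AN := by gcongr
        _ = k * (64 / ν ^ 2) * AN * η ^ 2 := by ring
        _ ≤ 1 := hη2
    have h4 : k * (8 * Y ^ 4 + 64 / ν ^ 2 * K0 ^ 2) * (t - r)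
        ≤ k * (8 * Y ^ 4 + 64 / ν ^ 2 * K0 ^ 2) * T0 := by
      have : t - r ≤ T0 := by linarith [ht.2]
      gcongr
    linarith
  have hfin : ∀ᵐ t ∂(volume.restrict (Ioc r τ)), ‖z t‖ ≤ (Φ + C * √Q) / ν := by
    have hsub : (volume.restrict (Ioc r τ) : Measure ℝ) ≤ volume.restrict (Ioc 0 τ) :=
      Measure.restrict_mono (Ioc_subset_Ioc_left hr0.le) le_rfl
    filter_upwards [hgr, ae_mono hsub hdw, ae_restrict_mem measurableSet_Ioc] with t h1 h2 hts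
    have htI : t ∈ Icc 0 τ := ⟨by linarith [hts.1], hts.2⟩
    have h3 := hint t hts
    have h4 : ‖u1 t‖ ^ 2 ≤ Q := by
      refine h1.trans ?_
      rw [hQ]
      have : Real.exp (∫ s in r..t, 14 * c ^ 4 / ν ^ 3 * ‖z s‖ ^ 4) ≤ Real.exp E :=
        Real.exp_le_exp.2 h3
      gcongr
    have h5 : ‖u1 t‖ ≤ √Q := Real.le_sqrt_of_sq_le h4
    have h6 := grad_le Fr hν (S.mem t htI) h2
    rw [le_div_iff₀ hν]
    have h7 := hFb t htI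
    have h8 : C * ‖u1 t‖ ≤ C * √Q := by gcongr
    linarith
  intro t ht
  rcases le_total t r with h | h
  · have := hzB t ⟨ht.1, h.trans hr.2.le⟩
    rw [hN0]; linarith
  · have h1 := ae_le_all hrτ ((hzc.mono (Icc_subset_Icc_left hr0.le)).norm) hfin t ⟨h, ht.2⟩
    rw [hN0]; linarith

end Pool.Agent.X187.NSC
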