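import Pool.Agent.X187.NSC.Shift

set_option autoImplicit false

open MeasureTheory Set Filter Topology
open scoped InnerProductSpace

namespace Pool.Agent.X187.NSC

open H772R2.NSR (Frame prim_cont)
open H772R2.NSG (LH Coef St mem_cont int_inner ii_of_int stab gap stc stc_nonneg)
open Pool.Agent.W795.TQ
open Pool.Agent.W795.HE (SE)

theorem good_pt {e E : ℝ} (he : 0 < e) {f : ℝ → ℝ} (hf : IntegrableOn f (Ioc 0 e))
    {P : ℝ → Prop} (hP : ∀ᵐ s ∂(volume.restrict (Ioc 0 e)), P s)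
    (hE : ∫ s in (0 : ℝ)..e, f s ≤ E) : ∃ s ∈ Ioc 0 e, P s ∧ f s ≤ E / e := by
  have hμ : (volume.restrict (Ioc 0 e) : Measure ℝ) ≠ 0 := by
    rw [Ne, Measure.restrict_eq_zero, Real.volume_Ioc]
    simp only [sub_zero, ENNReal.ofReal_eq_zero, not_le]
    exact he
  have h1 : ∀ᵐ s ∂(volume.restrict (Ioc 0 e)), P s ∧ s ∈ Ioc 0 e :=
    hP.and (ae_restrict_mem measurableSet_Ioc)
  have hfin : IsFiniteMeasure (volume.restrict (Ioc 0 e) : Measure ℝ) := by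
    rw [isFiniteMeasure_restrict]; simp
  obtain ⟨x, hx, hle⟩ := exists_notMem_null_le_average hμ hf (ae_iff.1 h1)
  simp only [mem_setOf_eq, not_not] at hx
  refine ⟨x, hx.2, hx.1, hle.trans ?_⟩
  rw [average_eq, Measure.real, Measure.restrict_apply_univ, Real.volume_Ioc, sub_zero,
    ENNReal.toReal_ofReal he.le, ← intervalIntegral.integral_of_le he.le, smul_eq_mul,
    inv_mul_eq_div]
  gcongr

theorem mp' (s T' : ℝ) : MeasurePreserving (fun t : ℝ => -s + t)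
    (volume.restrict (Ioc s (s + T'))) (volume.restrict (Ioc 0 T')) := by
  have := (measurePreserving_add_left volume (-s)).restrict_preimage
    (measurableSet_Ioc : MeasurableSet (Ioc 0 T'))
  rwa [preimage_const_add_Ioc, zero_sub, neg_neg, sub_neg_eq_add, add_comm T' s] at this

section

variable {H K : Type} [NormedAddCommGroup H] [InnerProductSpace ℝ H] [CompleteSpace H]
  [NormedAddCommGroup K] [InnerProductSpace ℝ K] [CompleteSpace K]
  {W : Submodule ℝ (H × K)} {m : H → K} {C c ν T : ℝ}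

/-- If all data have strong solutions on `[0,T]`, then the gradient is bounded in terms of its
initial value. -/
theorem grad_bound (Fr : Frame W m C) (Un : Univ W m c) (hν : 0 < ν) (hT : 0 < T)
    (hcomp : ∀ R : ℝ, TotallyBounded {v : H | ∃ z, (v, z) ∈ W ∧ ‖z‖ ≤ R})
    (Q : ∀ d : Dat H K, Adm W m ν T d → Good W m ν T d) {R Φ G : ℝ} (hR : 0 ≤ R) (hΦ : 0 ≤ Φ)
    (hG : 0 ≤ G) :
    ∃ M : ℝ, 0 < M ∧ ∀ (F F1 : ℝ → K) (u u1 : ℝ → H) (z z1 : ℝ → K), FH T F F1 →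
      Str W m ν T F u u1 z z1 → ‖z 0‖ ≤ R → (∀ t ∈ Icc 0 T, ‖F t‖ ≤ Φ) →
      (∫ s in (0 : ℝ)..T, ‖F1 s‖ ^ 2) ≤ G → ∀ t ∈ Icc 0 T, ‖z t‖ ≤ M := by
  obtain ⟨δ0, B, A, hδ0, hB, hA, hloc⟩ := loc_bound c ν R Φ G T Un.c0 hν hR hΦ hG hT
  set δ : ℝ := min δ0 T with hδd
  have hδ : 0 < δ := lt_min hδ0 hT
  have hδT : δ ≤ T := min_le_right _ _
  set R3 : ℝ := B ^ 2 + Φ ^ 2 + G + 2 * A / δ with hR3
  obtain ⟨M3, hM3, huni⟩ := uni_abs Fr Un hν hT hcomp Q (R := R3) (by positivity)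
  refine ⟨B + M3, by positivity, ?_⟩
  intro F F1 u u1 z z1 hF S hz0 hFb hFG
  have hF1i : IntegrableOn (fun s => ‖F1 s‖ ^ 2) (Ioc 0 T) :=
    (memLp_two_iff_integrable_sq_norm hF.memLp.aestronglyMeasurable).mp hF.memLp
  obtain ⟨hzB, -, ha⟩ := hloc H K W m C 0 δ F F1 u u1 z z1 Fr Un le_rfl hδ hδT
    (by rw [sub_zero]; exact min_le_left _ _) (FH.mono hF hδT) (S.mono hδT)
    (fun t ht => hFb t ⟨ht.1, ht.2.trans hδT⟩)
    (int_sub_le hF1i (fun t => by positivity) hFG le_rfl hδ.le hδT) hz0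
  obtain ⟨r, hr, hur, hdw⟩ : ∃ r ∈ Ioo (δ / 2) δ, ‖u1 r‖ ^ 2 ≤ 2 * A / δ ∧
      ∀ p ∈ W, ⟪u1 r, p.1⟫_ℝ = ⟪F r - ν • z r + m (u r), p.2⟫_ℝ := by
    have hsub : (volume.restrict (Ioo (δ / 2) δ) : Measure ℝ) ≤ volume.restrict (Ioc 0 δ) :=
      Measure.restrict_mono (show Ioo (δ / 2) δ ⊆ Ioc 0 δ from
        fun s hs => ⟨by linarith [hs.1], hs.2.le⟩) le_rfl
    have hsub2 : (volume.restrict (Ioo (δ / 2) δ) : Measure ℝ) ≤ volume.restrict (Ioc 0 T) :=
      Measure.restrict_mono (show Ioo (δ / 2) δ ⊆ Ioc 0 T from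
        fun s hs => ⟨by linarith [hs.1], by linarith [hs.2]⟩) le_rfl
    have h1 : ∀ᵐ s ∂(volume.restrict (Ioo (δ / 2) δ)), s ∈ Ioo (δ / 2) δ ∧
        ‖u1 s‖ ^ 2 ≤ 2 * A / δ ∧ ∀ p ∈ W, ⟪u1 s, p.1⟫_ℝ = ⟪F s - ν • z s + m (u s), p.2⟫_ℝ := by
      filter_upwards [ae_mono hsub ha, ae_mono hsub2 (str_deriv_weak Fr hT hF S),
        ae_restrict_mem measurableSet_Ioo] with s h1 h2 h3
      refine ⟨h3, ?_, h2⟩
      rw [le_div_iff₀ hδ]
      rw [sub_zero] at h1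
      have h4 : δ / 2 * ‖u1 s‖ ^ 2 ≤ s * ‖u1 s‖ ^ 2 := by
        gcongr
        exact h3.1.le
      linarith
    have hne : (volume.restrict (Ioo (δ / 2) δ) : Measure ℝ) ≠ 0 := by
      rw [Ne, Measure.restrict_eq_zero, Real.volume_Ioo]
      simp only [ENNReal.ofReal_eq_zero, not_le]
      linarith
    have : (ae (volume.restrict (Ioo (δ / 2) δ) : Measure ℝ)).NeBot := ae_neBot.2 hne
    obtain ⟨r, hr⟩ := h1.exists
    exact ⟨r, hr.1, hr.2.1, hr.2.2⟩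
  have hr0 : 0 < r := by linarith [hr.1]
  have hrT : r < T := hr.2.trans_le hδT
  have hTr : 0 < T - r := by linarith
  have hsh : FH (T - r) (fun t => F (r + t)) (fun t => F1 (r + t)) :=
    FH.shift hF hr0.le (by linarith)
  obtain ⟨e1, e2⟩ := ext_FH (T := T) hTr.le (by linarith) hsh
  set d : Dat H K := ⟨u r, z r, fun t => F (r + min t (T - r)),
    (Ioc 0 (T - r)).indicator (fun t => F1 (r + t)), u1 r⟩ with hd
  have hmin0 : r + min 0 (T - r) = r := by rw [min_eq_left hTr.le, add_zero]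
  have hAdm : Adm W m ν T d := by
    refine ⟨S.mem r ⟨hr0.le, hrT.le⟩, e1, ?_⟩
    intro p hp
    show ⟪F (r + min 0 (T - r)) - ν • z r + m (u r), p.2⟫_ℝ = ⟪u1 r, p.1⟫_ℝ
    rw [hmin0]
    exact (hdw p hp).symm
  have hsize : d.size T ≤ R3 := by
    show ‖z r‖ ^ 2 + ‖F (r + min 0 (T - r))‖ ^ 2
      + (∫ s in (0 : ℝ)..T, ‖(Ioc 0 (T - r)).indicator (fun t => F1 (r + t)) s‖ ^ 2)
      + ‖u1 r‖ ^ 2 ≤ R3
    rw [hmin0, e2, intervalIntegral.integral_comp_add_left (fun s => ‖F1 s‖ ^ 2) r, add_zero,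
      add_sub_cancel]
    have h1 : ‖z r‖ ^ 2 ≤ B ^ 2 := by
      gcongr
      exact hzB r ⟨hr0.le, hr.2.le⟩
    have h2 : ‖F r‖ ^ 2 ≤ Φ ^ 2 := by
      gcongr
      exact hFb r ⟨hr0.le, hrT.le⟩
    have h3 : ∫ s in r..T, ‖F1 s‖ ^ 2 ≤ G :=
      int_sub_le hF1i (fun t => by positivity) hFG hr0.le hrT.le le_rfl
    linarith
  have hS' : Str W m ν (T - r) d.F (fun t => u (r + t)) (fun t => u1 (r + t))
      (fun t => z (r + t)) (fun t => z1 (r + t)) := by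
    refine str_congrF (str_shift Fr hF S hr0.le hrT.le) fun t ht => ?_
    show F (r + min t (T - r)) = F (r + t)
    rw [min_eq_left ht.2]
  have hfin := huni d hAdm hsize (T - r) hTr (by linarith) _ _ _ _ hS' (by
    show u (r + 0) = u r
    rw [add_zero])
  intro t ht
  rcases le_total t r with h | h
  · have := hzB t ⟨ht.1, h.trans hr.2.le⟩
    linarith
  · have h1 := hfin (t - r) ⟨by linarith, by linarith [ht.2]⟩
    have h2 : r + (t - r) = t := by ring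
    rw [h2] at h1
    linarith

omit [CompleteSpace H] in
theorem toSt' {F : ℝ → K} {u u1 : ℝ → H} {z z1 : ℝ → K} (hF : ContinuousOn F (Icc 0 T))
    (S : Str W m ν T F u u1 z z1) {Z : ℝ} (hZ : ∀ t ∈ Icc 0 T, ‖z t‖ ≤ Z) :
    St W m T (fun _ => ν) F (u 0) u z u1 z1 Z := by
  refine ⟨rfl, S.mem, S.u1m, S.z1m, S.pu, S.pz, S.mem1, continuousOn_const, hF, S.weak,
    fun t ht => ?_, hZ⟩
  rw [intervalIntegral.integral_const_mul]
  exact S.energy t ht

set_option maxHeartbeats 4000000 in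
/-- If all data have strong solutions on `[0,T]`, then the gradients of the Leray-Hopf solutions
are bounded in terms of the energy. -/
theorem lh_bound (Fr : Frame W m C) (Un : Univ W m c) (hν : 0 < ν) (hT : 0 < T)
    (hcomp : ∀ R : ℝ, TotallyBounded {v : H | ∃ z, (v, z) ∈ W ∧ ‖z‖ ≤ R})
    (Q : ∀ d : Dat H K, Adm W m ν T d → Good W m ν T d) {R ε : ℝ} (hR : 0 ≤ R) (hε : 0 < ε) :
    ∃ M : ℝ, 0 < M ∧ ∀ τ : ℝ, 0 < τ → τ ≤ T → ∀ (F F1 : ℝ → K) (u : ℝ → H) (z : ℝ → K),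
      FH τ F F1 → LH W m τ (fun _ => ν) F (u 0) u z → SE ν τ F u z →
      ‖u 0‖ ≤ R → ‖F 0‖ ≤ R → (∫ s in (0 : ℝ)..τ, ‖F1 s‖ ^ 2) ≤ R →
      ∀ᵐ t ∂(volume.restrict (Ioc ε τ)), ‖z t‖ ≤ M := by
  obtain ⟨C1, hC1, hcmp⟩ := Pool.Agent.W405.HE.Cmp.proof c Un.c0
  set Φ : ℝ := R + √(R * T) with hΦ
  have hΦ0 : 0 ≤ Φ := by positivity
  set E : ℝ := (R ^ 2 + T * Φ ^ 2 / ν) / ν with hE
  have hE0 : 0 ≤ E := by positivity
  set R2 : ℝ := √(C1 * (E / ε + Φ ^ 2 / ν ^ 2)) with hR2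
  obtain ⟨M, hM, hgb⟩ := grad_bound Fr Un hν hT hcomp Q (R := R2) (Φ := Φ) (G := R)
    (Real.sqrt_nonneg _) hΦ0 hR
  refine ⟨M, hM, ?_⟩
  intro τ hτ hτT F F1 u z hF L hSE hu0 hF0 hFG
  rcases le_or_gt τ ε with hτε | hτε
  · rw [Ioc_eq_empty (not_lt.2 hτε), Measure.restrict_empty]
    simp
  have hFb : ∀ t ∈ Icc 0 τ, ‖F t‖ ≤ Φ := by
    intro t ht
    refine (force_le hτ.le hF hR hF0 hFG t ht).trans ?_
    rw [hΦ]
    gcongr
  have hFc : ContinuousOn F (Icc 0 τ) := prim_cont hF.memLp hF.prim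
  have Co : Coef ν τ (fun _ => ν) F := Pool.Agent.W933.HE.coef hFc
  have hzi : Integrable (fun s => ‖z s‖ ^ 2) (volume.restrict (Ioc 0 τ)) :=
    (memLp_two_iff_integrable_sq_norm L.z2.aestronglyMeasurable).mp L.z2
  have hFzi := L.Fzi Co
  -- the energy bound
  have hEn : ∫ s in (0 : ℝ)..τ, ‖z s‖ ^ 2 ≤ E := by
    have h1 := L.energy τ ⟨hτ.le, le_rfl⟩
    have h2 : ∫ s in (0 : ℝ)..τ, ⟪F s, z s⟫_ℝ
        ≤ ∫ s in (0 : ℝ)..τ, (Φ ^ 2 / (2 * ν) + ν / 2 * ‖z s‖ ^ 2) := by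
      refine intervalIntegral.integral_mono_on hτ.le (ii_of_int hFzi le_rfl hτ.le le_rfl)
        ((intervalIntegrable_const).add
          ((ii_of_int hzi le_rfl hτ.le le_rfl).const_mul _)) ?_
      intro s hs
      have h3 := real_inner_le_norm (F s) (z s)
      have h4 := hFb s hs
      have h5 : ‖F s‖ * ‖z s‖ ≤ Φ * ‖z s‖ := by gcongr
      have h6 : 0 ≤ (Φ - ν * ‖z s‖) ^ 2 / (2 * ν) := by positivity
      have h7 : (Φ - ν * ‖z s‖) ^ 2 / (2 * ν)
          = Φ ^ 2 / (2 * ν) - Φ * ‖z s‖ + ν / 2 * ‖z s‖ ^ 2 := by field_simp; ring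
      linarith
    rw [intervalIntegral.integral_add intervalIntegrable_const
      ((ii_of_int hzi le_rfl hτ.le le_rfl).const_mul _), intervalIntegral.integral_const,
      intervalIntegral.integral_const_mul, smul_eq_mul, sub_zero] at h2
    rw [intervalIntegral.integral_const_mul] at h1
    have h8 : ‖u 0‖ ^ 2 ≤ R ^ 2 := by gcongr
    have h9 : τ * (Φ ^ 2 / (2 * ν)) ≤ T * (Φ ^ 2 / (2 * ν)) := by gcongr
    have h10 : 0 ≤ ‖u τ‖ ^ 2 := by positivity
    rw [hE, le_div_iff₀ hν]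
    have h11 : T * Φ ^ 2 / ν = 2 * (T * (Φ ^ 2 / (2 * ν))) := by field_simp
    rw [h11]
    linarith
  have hεle : (volume.restrict (Ioc 0 ε) : Measure ℝ) ≤ volume.restrict (Ioc 0 τ) :=
    Measure.restrict_mono (Ioc_subset_Ioc_right hτε.le) le_rfl
  have hsh := Pool.Agent.W933.HE.proof_shift H K W m C ν τ F F1 (u 0) u z Fr hν hτ hF L hSE
  obtain ⟨s, hs, ⟨hsW, hsL⟩, hsE⟩ := good_pt hε (hzi.mono_measure hεle) (ae_mono hεle hsh)
    (int_sub_le hzi (fun t => by positivity) hEn le_rfl hε.le hτε.le)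
  set T' : ℝ := τ - s with hT'
  have hsτ : s < τ := hs.2.trans_lt hτε
  have hT'0 : 0 < T' := by rw [hT']; linarith
  have hT'T : T' ≤ T := by rw [hT']; linarith [hs.1]
  obtain ⟨L', hF', hFG', -⟩ := hsL T' hT'0 (by rw [hT']; linarith)
  have hF'b : ∀ t ∈ Icc 0 T', ‖F (s + t)‖ ≤ Φ := fun t ht =>
    hFb _ ⟨by linarith [hs.1, ht.1], by linarith [ht.2]⟩
  obtain ⟨e1, e2⟩ := ext_FH (T := T) hT'0.le hT'T hF'
  have hF'c : ContinuousOn (fun t => F (s + t)) (Icc 0 T') := prim_cont hF'.memLp hF'.prim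
  have Co' : Coef ν T' (fun _ => ν) (fun t => F (s + t)) := Pool.Agent.W933.HE.coef hF'c
  -- the approximations
  have happ : ∀ n : ℕ, ∫ t in Ioc 0 T', (max (‖z (s + t)‖ - M) 0) ^ 2
      ≤ stc C ν T' M * ((1 / ((n : ℝ) + 1)) ^ 2 / 2) := by
    intro n
    obtain ⟨x, g, ζ, hx1, hx2, hx3, hx4⟩ := hcmp H K W m C ν (F s) (u s) (z s)
      (1 / ((n : ℝ) + 1)) Fr Un hν hsW (by positivity)
    have hmin0 : s + min 0 T' = s := by rw [min_eq_left hT'0.le, add_zero]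
    obtain ⟨v, v1, y, y1, Sv, hv0⟩ := Q ⟨x, ζ, fun t => F (s + min t T'),
      (Ioc 0 T').indicator (fun t => F1 (s + t)), g⟩ ⟨hx1, e1, by
        intro p hp
        show ⟪F (s + min 0 T') - ν • ζ + m x, p.2⟫_ℝ = ⟪g, p.1⟫_ℝ
        rw [hmin0]
        exact hx2 p hp⟩
    have hv0' : v 0 = x := hv0
    have hy0 : y 0 = ζ := z0_eq Fr hT Sv hx1 hv0
    have hyM := hgb _ _ v v1 y y1 e1 Sv (by
      rw [hy0, hR2]
      refine Real.le_sqrt_of_sq_le (hx4.trans ?_)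
      have h1 : ‖F s‖ ≤ Φ := hFb s ⟨hs.1.le, hsτ.le⟩
      gcongr) (by
      intro t ht
      exact hF'b _ (min_mem ht.1 hT'0.le)) (by
      rw [e2]
      exact hFG'.trans hFG)
    have Sv' : Str W m ν T' (fun t => F (s + t)) v v1 y y1 := by
      refine str_congrF (Sv.mono hT'T) fun t ht => ?_
      show F (s + t) = F (s + min t T')
      rw [min_eq_left ht.2]
    have hSt := toSt' hF'c Sv' (Z := M) (fun t ht => hyM t ⟨ht.1, ht.2.trans hT'T⟩)
    obtain ⟨-, hst, -⟩ := stab Fr hν hT'0 Co' L' hSt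
    have hgap : gap ν T' M (fun _ => ν) (fun _ => ν) (fun t => F (s + t)) (fun t => F (s + t))
        (u s) (v 0) ≤ (1 / ((n : ℝ) + 1)) ^ 2 / 2 := by
      unfold gap
      simp only [sub_self, norm_zero]
      rw [hv0', norm_sub_rev]
      simp only [ne_eq, OfNat.ofNat_ne_zero, not_false_eq_true, zero_pow, mul_zero, add_zero,
        integral_zero]
      gcongr
    have hyc : ContinuousOn y (Icc 0 T') := prim_cont Sv'.z1m Sv'.pz
    have hm : MemLp (fun t => z (s + t) - y t) 2 (volume.restrict (Ioc 0 T')) :=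
      L'.z2.sub (mem_cont hyc)
    have hi : Integrable (fun t => ‖z (s + t) - y t‖ ^ 2) (volume.restrict (Ioc 0 T')) :=
      (memLp_two_iff_integrable_sq_norm hm.aestronglyMeasurable).mp hm
    have hle : ∀ᵐ t ∂(volume.restrict (Ioc 0 T')), (max (‖z (s + t)‖ - M) 0) ^ 2
        ≤ ‖z (s + t) - y t‖ ^ 2 := by
      filter_upwards [ae_restrict_mem measurableSet_Ioc] with t ht
      have h1 : ‖z (s + t)‖ ≤ ‖y t‖ + ‖z (s + t) - y t‖ := by
        calc ‖z (s + t)‖ = ‖y t + (z (s + t) - y t)‖ := by congr 1; abel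
          _ ≤ _ := norm_add_le _ _
      have h2 := hyM t ⟨ht.1.le, ht.2.trans hT'T⟩
      have h3 : max (‖z (s + t)‖ - M) 0 ≤ ‖z (s + t) - y t‖ :=
        max_le (by linarith) (norm_nonneg _)
      gcongr
    have hi2 : Integrable (fun t => (max (‖z (s + t)‖ - M) 0) ^ 2)
        (volume.restrict (Ioc 0 T')) := by
      refine hi.mono' ?_ ?_
      · have h1 := L'.z2.aestronglyMeasurable.norm
        have hcn : Continuous fun x : ℝ => (max (x - M) 0) ^ 2 := by fun_prop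
        exact hcn.comp_aestronglyMeasurable h1
      · filter_upwards [hle] with t ht
        rw [Real.norm_of_nonneg (by positivity)]
        exact ht
    calc ∫ t in Ioc 0 T', (max (‖z (s + t)‖ - M) 0) ^ 2
        ≤ ∫ t in Ioc 0 T', ‖z (s + t) - y t‖ ^ 2 := integral_mono_ae hi2 hi hle
      _ ≤ stc C ν T' M * gap ν T' M (fun _ => ν) (fun _ => ν) (fun t => F (s + t))
          (fun t => F (s + t)) (u s) (v 0) := hst
      _ ≤ stc C ν T' M * ((1 / ((n : ℝ) + 1)) ^ 2 / 2) := by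
          have := stc_nonneg (C := C) hν hT'0 (Z := M)
          gcongr
  have hz0 : ∫ t in Ioc 0 T', (max (‖z (s + t)‖ - M) 0) ^ 2 ≤ 0 := by
    have h1 : Tendsto (fun n : ℕ => stc C ν T' M * ((1 / ((n : ℝ) + 1)) ^ 2 / 2)) atTop
        (𝓝 (stc C ν T' M * (0 ^ 2 / 2))) :=
      ((tendsto_one_div_add_atTop_nhds_zero_nat (𝕜 := ℝ)).pow 2).div_const 2 |>.const_mul _
    have h2 := ge_of_tendsto' h1 happ
    simpa using h2
  have hi2 : Integrable (fun t => (max (‖z (s + t)‖ - M) 0) ^ 2)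
      (volume.restrict (Ioc 0 T')) := by
    have h2 : Integrable (fun t => ‖z (s + t)‖ ^ 2) (volume.restrict (Ioc 0 T')) :=
      (memLp_two_iff_integrable_sq_norm L'.z2.aestronglyMeasurable).mp L'.z2
    refine h2.mono' ?_ ?_
    · have h1 := L'.z2.aestronglyMeasurable.norm
      have hcn : Continuous fun x : ℝ => (max (x - M) 0) ^ 2 := by fun_prop
      exact hcn.comp_aestronglyMeasurable h1
    · filter_upwards with t
      rw [Real.norm_of_nonneg (by positivity)]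
      have h3 : max (‖z (s + t)‖ - M) 0 ≤ ‖z (s + t)‖ :=
        max_le (by linarith) (norm_nonneg _)
      gcongr
  have hae := (integral_eq_zero_iff_of_nonneg (μ := volume.restrict (Ioc 0 T'))
    (f := fun t => (max (‖z (s + t)‖ - M) 0) ^ 2) (fun t => by
      show 0 ≤ (max (‖z (s + t)‖ - M) 0) ^ 2
      positivity) hi2).1 (le_antisymm hz0 (integral_nonneg fun t => by positivity))
  have hae' : ∀ᵐ t ∂(volume.restrict (Ioc 0 T')), ‖z (s + t)‖ ≤ M := by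
    filter_upwards [hae] with t ht
    have h1 : (max (‖z (s + t)‖ - M) 0) ^ 2 = 0 := ht
    have h2 : max (‖z (s + t)‖ - M) 0 = 0 := pow_eq_zero_iff (two_ne_zero) |>.1 h1
    have h3 := le_max_left (‖z (s + t)‖ - M) 0
    linarith
  have hback := (mp' s T').quasiMeasurePreserving.ae hae'
  have hsubm : (volume.restrict (Ioc ε τ) : Measure ℝ) ≤ volume.restrict (Ioc s (s + T')) :=
    Measure.restrict_mono (Ioc_subset_Ioc hs.2 (by rw [hT']; linarith)) le_rfl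
  filter_upwards [ae_mono hsubm hback] with t ht
  have h1 : s + (-s + t) = t := by ring
  rwa [h1] at ht

end

end Pool.Agent.X187.NSC
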