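import Pool.Agent.X187.NSC.Loc

set_option autoImplicit false

open MeasureTheory Set Filter Topology
open scoped InnerProductSpace

namespace Pool.Agent.X187.NSC

open H772R2.NSR (Frame prim_cont ae_deriv_of_prim memLp_ii)
open Pool.Agent.W795.TQ

variable {H K : Type} [NormedAddCommGroup H] [InnerProductSpace ℝ H] [CompleteSpace H]
  [NormedAddCommGroup K] [InnerProductSpace ℝ K] [CompleteSpace K]
  {W : Submodule ℝ (H × K)} {m : H → K} {C c ν T : ℝ} {F F1 : ℝ → K} {u u1 : ℝ → H}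
  {z z1 : ℝ → K}

/-- Growth of `∂ₜu` from a good time on. -/
theorem u1_gron (Fr : Frame W m C) (Un : Univ W m c) (hν : 0 < ν) (hF : FH T F F1)
    (S : Str W m ν T F u u1 z z1) {G r : ℝ} (hG : (∫ s in (0 : ℝ)..T, ‖F1 s‖ ^ 2) ≤ G)
    (hr : 0 ≤ r) (hrT : r < T) (dr : HasDerivAt u (u1 r) r) :
    ∀ᵐ t ∂(volume.restrict (Ioc r T)), ‖u1 t‖ ^ 2 ≤ (‖u1 r‖ ^ 2 + 2 / ν * G) *
      Real.exp (∫ s in r..t, 14 * c ^ 4 / ν ^ 3 * ‖z s‖ ^ 4) := by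
  have hT : 0 < T := hr.trans_lt hrT
  have hc := Un.c0
  have hsub : (volume.restrict (Ioc r T) : Measure ℝ) ≤ volume.restrict (Ioc 0 T) :=
    Measure.restrict_mono (Ioc_subset_Ioc_left hr) le_rfl
  have hzc : ContinuousOn z (Icc 0 T) := prim_cont S.z1m S.pz
  have hF1i : IntegrableOn (fun s => ‖F1 s‖ ^ 2) (Ioc 0 T) :=
    (memLp_two_iff_integrable_sq_norm hF.memLp.aestronglyMeasurable).mp hF.memLp
  have hu1i : IntegrableOn (fun s => ‖u1 s‖ ^ 2) (Ioc 0 T) :=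
    (memLp_two_iff_integrable_sq_norm S.u1m.aestronglyMeasurable).mp S.u1m
  have hz1i : IntegrableOn (fun s => ‖z1 s‖ ^ 2) (Ioc 0 T) :=
    (memLp_two_iff_integrable_sq_norm S.z1m.aestronglyMeasurable).mp S.z1m
  refine gron_ae hrT.le (hu1i.mono_set (Ioc_subset_Ioc_left hr)) (fun t => by positivity)
    (continuousOn_const.mul ((hzc.mono (Icc_subset_Icc_left hr)).norm.pow 4))
    (fun t => by positivity) ?_
  have hneT : ∀ᵐ t ∂(volume.restrict (Ioc r T)), t ≠ T :=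
    ae_restrict_of_ae (by simp [ae_iff, measure_singleton])
  filter_upwards [ae_mono hsub (ae_deriv_of_prim hT (memLp_ii hT.le S.u1m) S.pu),
    ae_restrict_mem measurableSet_Ioc, hneT] with t dt hts hne
  have htT : t < T := lt_of_le_of_ne hts.2 hne
  have h1 := Pool.Agent.W790.TQ.lim_ineq Fr Un hν hT hF S hr hts.1 htT dr dt
  have h2 : ∫ s in r..t, ‖F1 s‖ ^ 2 ≤ G :=
    int_sub_le hF1i (fun t => by positivity) hG hr hts.1.le hts.2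
  have h3 : 0 ≤ ν * ∫ s in r..t, ‖z1 s‖ ^ 2 :=
    mul_nonneg hν.le (intervalIntegral.integral_nonneg hts.1.le fun s _ => by positivity)
  have h4 : ∫ s in r..t, 14 * c ^ 4 / ν ^ 3 * ‖z s‖ ^ 4 * ‖u1 s‖ ^ 2
      = 14 * c ^ 4 / ν ^ 3 * ∫ s in r..t, ‖u1 s‖ ^ 2 * ‖z s‖ ^ 4 := by
    rw [← intervalIntegral.integral_const_mul]
    congr 1
    funext s
    ring
  rw [h4]
  have h5 : 2 / ν * (∫ s in r..t, ‖F1 s‖ ^ 2) ≤ 2 / ν * G := by gcongr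
  linarith

omit [CompleteSpace H] [CompleteSpace K] in
/-- the gradient in terms of the time derivative -/
theorem grad_le {f z : K} {u u1 : H} (Fr : Frame W m C) (hν : 0 < ν) (hu : (u, z) ∈ W)
    (h : ∀ p ∈ W, ⟪u1, p.1⟫_ℝ = ⟪f - ν • z + m u, p.2⟫_ℝ) : ν * ‖z‖ ≤ ‖f‖ + C * ‖u1‖ := by
  have h1 := h _ hu
  simp only at h1
  rw [inner_add_left, inner_sub_left, real_inner_smul_left, real_inner_self_eq_norm_sq] at h1
  have h2 := Fr.ortho _ hu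
  simp only at h2
  rw [h2] at h1
  have h3 := Fr.poinc _ hu
  simp only at h3
  have h4 : ⟪f, z⟫_ℝ ≤ ‖f‖ * ‖z‖ := real_inner_le_norm _ _
  have h5 : -⟪u1, u⟫_ℝ ≤ ‖u1‖ * ‖u‖ := (neg_le_abs _).trans (abs_real_inner_le_norm _ _)
  have h6 : ‖u1‖ * ‖u‖ ≤ ‖u1‖ * (C * ‖z‖) := by gcongr
  by_cases hz : ‖z‖ = 0
  · rw [hz, mul_zero]
    have := Fr.C0
    positivity
  · have hz0 : 0 < ‖z‖ := lt_of_le_of_ne (norm_nonneg _) (Ne.symm hz)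
    have h7 : (ν * ‖z‖) * ‖z‖ ≤ (‖f‖ + C * ‖u1‖) * ‖z‖ := by nlinarith
    exact le_of_mul_le_mul_right h7 hz0

theorem cube_young {a b x : ℝ} (ha : 0 ≤ a) (hb : 0 < b) (hx : 0 ≤ x) :
    a * x ^ 3 ≤ b * x ^ 4 + a ^ 4 / b ^ 3 := by
  rcases le_total (b * x) a with h | h
  · have h1 : x ≤ a / b := by rw [le_div_iff₀ hb]; linarith
    calc a * x ^ 3 ≤ a * (a / b) ^ 3 := by gcongr
      _ = a ^ 4 / b ^ 3 := by field_simp
      _ ≤ b * x ^ 4 + a ^ 4 / b ^ 3 := by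
        have : 0 ≤ b * x ^ 4 := by positivity
        linarith
  · calc a * x ^ 3 ≤ (b * x) * x ^ 3 := by gcongr
      _ = b * x ^ 4 := by ring
      _ ≤ b * x ^ 4 + a ^ 4 / b ^ 3 := by
        have : 0 ≤ a ^ 4 / b ^ 3 := by positivity
        linarith

omit [CompleteSpace H] [CompleteSpace K] in
/-- the gradient of the difference of two states in terms of the time derivatives -/
theorem diff_grad {f g z y : K} {u u1 v v1 : H} {Φ Y V : ℝ} (Fr : Frame W m C)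
    (Un : Univ W m c) (hν : 0 < ν) (hu : (u, z) ∈ W) (hv : (v, y) ∈ W)
    (h : ∀ p ∈ W, ⟪u1, p.1⟫_ℝ = ⟪f - ν • z + m u, p.2⟫_ℝ)
    (h' : ∀ p ∈ W, ⟪v1, p.1⟫_ℝ = ⟪g - ν • y + m v, p.2⟫_ℝ)
    (hf : ‖f‖ ≤ Φ) (hg : ‖g‖ ≤ Φ) (hY : ‖y‖ ≤ Y) (hV : ‖v1‖ ≤ V) (hw : ‖u - v‖ ≤ 1) :
    ‖z - y‖ ^ 2 ≤ 2 / ν * ((4 * Φ ^ 2 / ν + (c * Y) ^ 4 / (ν / 4) ^ 3 + V)
      + ‖u - v‖ * ‖u1‖) := by
  have hc := Un.c0
  have hY0 : 0 ≤ Y := (norm_nonneg _).trans hY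
  have hV0 : 0 ≤ V := (norm_nonneg _).trans hV
  have hΦ0 : 0 ≤ Φ := (norm_nonneg _).trans hf
  have hW : (u - v, z - y) ∈ W := W.sub_mem hu hv
  have e1 := h _ hW
  have e2 := h' _ hW
  have e3 := Fr.anti _ hu _ hv
  simp only at e1 e2 e3
  have e4 : ⟪u1 - v1, u - v⟫_ℝ = ⟪f - g, z - y⟫_ℝ - ν * ‖z - y‖ ^ 2 - ⟪m (u - v), y⟫_ℝ := by
    rw [inner_sub_left, e1, e2, ← inner_sub_left]
    have e5 : f - ν • z + m u - (g - ν • y + m v) =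
        (f - g) - ν • (z - y) + (m u - m v) := by
      rw [smul_sub]; abel
    rw [e5, inner_add_left, inner_sub_left, inner_smul_left, real_inner_self_eq_norm_sq, e3]
    simp
    ring
  have hq := Un.quart _ hW
  simp only at hq
  set ζ := ‖z - y‖ with hζ
  have hζ0 : 0 ≤ ζ := norm_nonneg _
  have k1 : ⟪f - g, z - y⟫_ℝ ≤ 2 * Φ * ζ := by
    have h1 : ‖f - g‖ ≤ 2 * Φ := (norm_sub_le _ _).trans (by linarith)
    exact (real_inner_le_norm _ _).trans (by gcongr)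
  have k2 : 2 * Φ * ζ ≤ ν / 4 * ζ ^ 2 + 4 * Φ ^ 2 / ν := by
    have h1 : 0 ≤ (ν / 2 * ζ - 2 * Φ) ^ 2 / ν := by positivity
    have h2 : (ν / 2 * ζ - 2 * Φ) ^ 2 / ν = ν / 4 * ζ ^ 2 - 2 * Φ * ζ + 4 * Φ ^ 2 / ν := by
      field_simp; ring
    linarith
  have k3 : -⟪m (u - v), y⟫_ℝ ≤ c * Y * √ζ ^ 3 := by
    have h1 : -⟪m (u - v), y⟫_ℝ ≤ ‖m (u - v)‖ * ‖y‖ :=
      (neg_le_abs _).trans (abs_real_inner_le_norm _ _)
    have h2 : √‖u - v‖ ≤ 1 := Real.sqrt_le_one.2 hw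
    calc -⟪m (u - v), y⟫_ℝ ≤ ‖m (u - v)‖ * ‖y‖ := h1
      _ ≤ (c * (√‖u - v‖ * √ζ ^ 3)) * Y := by gcongr
      _ ≤ (c * (1 * √ζ ^ 3)) * Y := by gcongr
      _ = c * Y * √ζ ^ 3 := by ring
  have k4 := cube_young (a := c * Y) (b := ν / 4) (x := √ζ) (by positivity) (by positivity)
    (Real.sqrt_nonneg _)
  have k5 : √ζ ^ 4 = ζ ^ 2 := by
    have : √ζ ^ 4 = (√ζ ^ 2) ^ 2 := by ring
    rw [this, Real.sq_sqrt hζ0]
  rw [k5] at k4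
  have k6 : -⟪u1 - v1, u - v⟫_ℝ ≤ ‖u - v‖ * ‖u1‖ + V := by
    have h1 : -⟪u1 - v1, u - v⟫_ℝ ≤ ‖u1 - v1‖ * ‖u - v‖ :=
      (neg_le_abs _).trans (abs_real_inner_le_norm _ _)
    have h2 : ‖u1 - v1‖ ≤ ‖u1‖ + V := (norm_sub_le _ _).trans (by linarith)
    calc -⟪u1 - v1, u - v⟫_ℝ ≤ ‖u1 - v1‖ * ‖u - v‖ := h1
      _ ≤ (‖u1‖ + V) * ‖u - v‖ := by gcongr
      _ = ‖u - v‖ * ‖u1‖ + V * ‖u - v‖ := by ring
      _ ≤ ‖u - v‖ * ‖u1‖ + V * 1 := by gcongr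
      _ = ‖u - v‖ * ‖u1‖ + V := by ring
  have k7 : ν / 2 * ζ ^ 2 ≤ (4 * Φ ^ 2 / ν + (c * Y) ^ 4 / (ν / 4) ^ 3 + V)
      + ‖u - v‖ * ‖u1‖ := by linarith
  have k8 : ζ ^ 2 = 2 / ν * (ν / 2 * ζ ^ 2) := by field_simp
  rw [k8]
  gcongr

end Pool.Agent.X187.NSC
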