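import Pool.Agent.X187.NSC.Real2
import Pool.Agent.W795.TQ.DFin
import Pool.Agent.W347.TQ.Ode
import Pool.Agent.W503.TQ.Est1
import Pool.Agent.W790.TQ.Est2

/-!
Bounds of strong solutions, in the abstract frame.
-/

set_option autoImplicit false

open MeasureTheory Set Filter Topology
open scoped InnerProductSpace

namespace Pool.Agent.X187.NSC

open H772R2.NSR (Frame prim_cont)
open Pool.Agent.W795.TQ

theorem FH.mono {K : Type} [NormedAddCommGroup K] [InnerProductSpace ℝ K] {T τ : ℝ}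
    {F F1 : ℝ → K} (h : FH T F F1) (hτ : τ ≤ T) : FH τ F F1 :=
  ⟨h.memLp.mono_measure (Measure.restrict_mono (Ioc_subset_Ioc_right hτ) le_rfl),
    fun a b ha hab hb => h.prim a b ha hab (hb.trans hτ)⟩

theorem int_sub_le {T G : ℝ} {f : ℝ → ℝ} (hf : IntegrableOn f (Ioc 0 T)) (h0 : ∀ t, 0 ≤ f t)
    (hG : ∫ s in (0 : ℝ)..T, f s ≤ G) {a b : ℝ} (ha : 0 ≤ a) (hab : a ≤ b) (hb : b ≤ T) :
    ∫ s in a..b, f s ≤ G := by
  refine le_trans ?_ hG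
  rw [intervalIntegral.integral_of_le hab,
    intervalIntegral.integral_of_le (ha.trans (hab.trans hb))]
  exact setIntegral_mono_set hf (Eventually.of_forall h0) (Ioc_subset_Ioc ha hb).eventuallyLE

theorem str_bounds (c ν Φ G N T0 : ℝ) (hc : 0 < c) (hν : 0 < ν) (hΦ : 0 ≤ Φ) (hG : 0 ≤ G)
    (hN : 0 ≤ N) (hT0 : 0 < T0) :
    ∃ A : ℝ, 0 < A ∧ ∀ (H K : Type) [NormedAddCommGroup H] [InnerProductSpace ℝ H]
      [CompleteSpace H] [NormedAddCommGroup K] [InnerProductSpace ℝ K] [CompleteSpace K]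
      (W : Submodule ℝ (H × K)) (m : H → K) (C t0 T : ℝ) (F F1 : ℝ → K) (u u1 : ℝ → H)
      (z z1 : ℝ → K), Frame W m C → Univ W m c → 0 ≤ t0 → t0 < T → T - t0 ≤ T0 →
      FH T F F1 → Str W m ν T F u u1 z z1 → (∀ t ∈ Icc 0 T, ‖F t‖ ≤ Φ) →
      (∫ s in (0 : ℝ)..T, ‖F1 s‖ ^ 2) ≤ G → (∀ t ∈ Icc t0 T, ‖z t‖ ≤ N) →
      ∫ s in t0..T, ‖u1 s‖ ^ 2 ≤ A ∧ ∫ s in t0..T, (s - t0) * ‖z1 s‖ ^ 2 ≤ A ∧
        ∀ᵐ t ∂(volume.restrict (Ioc t0 T)), (t - t0) * ‖u1 t‖ ^ 2 ≤ A := by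
  obtain ⟨A, hA, h⟩ := intB c ν Φ G N T0 hc hν hΦ hG hN hT0
  refine ⟨A, hA, ?_⟩
  intro H K _ _ _ _ _ _ W m C t0 T F F1 u u1 z z1 Fr Un ht0 ht0T hTT hF S hFb hFG hz
  have hT : 0 < T := by linarith
  have hsub : (volume.restrict (Ioc t0 T) : Measure ℝ) ≤ volume.restrict (Ioc 0 T) :=
    Measure.restrict_mono (Ioc_subset_Ioc_left ht0) le_rfl
  have hzc : ContinuousOn z (Icc 0 T) := prim_cont S.z1m S.pz
  have hF1i : IntegrableOn (fun s => ‖F1 s‖ ^ 2) (Ioc 0 T) :=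
    (memLp_two_iff_integrable_sq_norm hF.memLp.aestronglyMeasurable).mp hF.memLp
  have hGt : ∫ s in t0..T, ‖F1 s‖ ^ 2 ≤ G :=
    int_sub_le hF1i (fun t => by positivity) hFG ht0 ht0T.le le_rfl
  refine h t0 T (fun s => ‖u1 s‖) (fun s => ‖z1 s‖) (fun s => ‖F1 s‖) (fun s => ‖z s‖)
    ht0T hTT (fun _ => norm_nonneg _) (fun _ => norm_nonneg _) (fun _ => norm_nonneg _)
    (fun _ => norm_nonneg _) (S.u1m.mono_measure hsub).norm (S.z1m.mono_measure hsub).norm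
    (hF.memLp.mono_measure hsub).norm (hzc.norm.mono (Icc_subset_Icc_left ht0)) hz hGt ?_ ?_
  · exact Pool.Agent.W503.TQ.proof_est1 H K W m C c ν T F F1 u u1 z z1 Φ Fr Un hν hT hF S hΦ hFb
      t0 ⟨ht0, ht0T.le⟩ T ⟨ht0T.le, le_rfl⟩
  · filter_upwards [Pool.Agent.W790.TQ.proof_est2 H K W m C c ν T F F1 u u1 z z1 Fr Un hν hT hF S
      t0 ⟨ht0, ht0T⟩] with t ht
    refine ht.trans ?_
    have h3 : 2 / ν * ((T - t0) * ∫ s in t0..T, ‖F1 s‖ ^ 2) ≤ 2 / ν * ((T - t0) * G) := by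
      have : 0 ≤ T - t0 := by linarith
      gcongr
    linarith

theorem loc_bound (c ν R Φ G T0 : ℝ) (hc : 0 < c) (hν : 0 < ν) (hR : 0 ≤ R) (hΦ : 0 ≤ Φ)
    (hG : 0 ≤ G) (hT0 : 0 < T0) :
    ∃ δ B A : ℝ, 0 < δ ∧ 0 < B ∧ 0 < A ∧ ∀ (H K : Type) [NormedAddCommGroup H]
      [InnerProductSpace ℝ H] [CompleteSpace H] [NormedAddCommGroup K] [InnerProductSpace ℝ K]
      [CompleteSpace K]
      (W : Submodule ℝ (H × K)) (m : H → K) (C t0 T : ℝ) (F F1 : ℝ → K) (u u1 : ℝ → H)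
      (z z1 : ℝ → K), Frame W m C → Univ W m c → 0 ≤ t0 → t0 < T → T ≤ T0 → T - t0 ≤ δ →
      FH T F F1 → Str W m ν T F u u1 z z1 → (∀ t ∈ Icc 0 T, ‖F t‖ ≤ Φ) →
      (∫ s in (0 : ℝ)..T, ‖F1 s‖ ^ 2) ≤ G → ‖z t0‖ ≤ R →
      (∀ t ∈ Icc t0 T, ‖z t‖ ≤ B) ∧ ∫ s in t0..T, ‖u1 s‖ ^ 2 ≤ A ∧
        ∀ᵐ t ∂(volume.restrict (Ioc t0 T)), (t - t0) * ‖u1 t‖ ^ 2 ≤ A := by
  obtain ⟨ε, C7, hε, hC7, hOd⟩ := Pool.Agent.W347.TQ.proof_ode c hc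
  set L : ℝ := R ^ 2 + (Φ ^ 2 + T0 * G) / ν ^ 2 with hL
  have hL0 : 0 ≤ L := by positivity
  set B : ℝ := √(C7 * L) + 1 with hB
  have hB0 : 0 < B := by positivity
  obtain ⟨A, hA, hbd⟩ := str_bounds c ν Φ G B T0 hc hν hΦ hG hB0.le hT0
  obtain ⟨δ, hδ, hδ'⟩ : ∃ h1 : ℝ, 0 < h1 ∧ L * √h1 ≤ ε * ν ^ (3 / 2 : ℝ) := by
    have h32 : 0 < ν ^ (3 / 2 : ℝ) := Real.rpow_pos_of_pos hν _
    refine ⟨((ε * ν ^ (3 / 2 : ℝ)) / (L + 1)) ^ 2, by positivity, ?_⟩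
    rw [Real.sqrt_sq (by positivity), mul_div_assoc', div_le_iff₀ (by positivity)]
    have : 0 ≤ ε * ν ^ (3 / 2 : ℝ) := by positivity
    nlinarith
  refine ⟨δ, B, A, hδ, hB0, hA, ?_⟩
  intro H K _ _ _ _ _ _ W m C t0 T F F1 u u1 z z1 Fr Un ht0 ht0T hTT0 hTδ hF S hFb hFG hz
  have hT : 0 < T := by linarith
  have hsub : (volume.restrict (Ioc t0 T) : Measure ℝ) ≤ volume.restrict (Ioc 0 T) :=
    Measure.restrict_mono (Ioc_subset_Ioc_left ht0) le_rfl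
  have hzc : ContinuousOn z (Icc 0 T) := prim_cont S.z1m S.pz
  have hF1i : IntegrableOn (fun s => ‖F1 s‖ ^ 2) (Ioc 0 T) :=
    (memLp_two_iff_integrable_sq_norm hF.memLp.aestronglyMeasurable).mp hF.memLp
  have hGt : ∫ s in t0..T, ‖F1 s‖ ^ 2 ≤ G :=
    int_sub_le hF1i (fun t => by positivity) hFG ht0 ht0T.le le_rfl
  obtain ⟨A0, hA0⟩ := S.bd
  have est1 := Pool.Agent.W503.TQ.proof_est1 H K W m C c ν T F F1 u u1 z z1 Φ Fr Un hν hT hF S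
    hΦ hFb t0 ⟨ht0, ht0T.le⟩
  have est2 := Pool.Agent.W790.TQ.proof_est2 H K W m C c ν T F F1 u u1 z z1 Fr Un hν hT hF S
    t0 ⟨ht0, ht0T⟩
  have hTt : 0 ≤ T - t0 := by linarith
  have hLe : ‖z t0‖ ^ 2 + (Φ ^ 2 + (T - t0) * G) / ν ^ 2 ≤ L := by
    rw [hL]
    have h1 : T - t0 ≤ T0 := by linarith
    gcongr
  have hfin := hOd ν t0 T Φ G A0 (fun s => ‖u1 s‖) (fun s => ‖z1 s‖) (fun s => ‖F1 s‖)
    (fun s => ‖z s‖) hν ht0T hΦ hG (fun t => norm_nonneg _) (fun t => norm_nonneg _)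
    (fun t => norm_nonneg _) (fun t => norm_nonneg _) ((S.u1m.mono_measure hsub).norm)
    ((S.z1m.mono_measure hsub).norm) (hF.memLp.mono_measure hsub).norm (ae_mono hsub hA0)
    (hzc.norm.mono (Icc_subset_Icc_left ht0)) hGt
    (fun t ht => est1 t ht) (by
      filter_upwards [est2] with t ht
      refine ht.trans ?_
      have h3 : 2 / ν * ((T - t0) * ∫ s in t0..T, ‖F1 s‖ ^ 2) ≤ 2 / ν * ((T - t0) * G) := by
        gcongr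
      linarith) (by
      have h5 : √(T - t0) ≤ √δ := Real.sqrt_le_sqrt hTδ
      calc (‖z t0‖ ^ 2 + (Φ ^ 2 + (T - t0) * G) / ν ^ 2) * √(T - t0)
          ≤ L * √δ := by gcongr
        _ ≤ ε * ν ^ (3 / 2 : ℝ) := hδ')
  have hzB : ∀ t ∈ Icc t0 T, ‖z t‖ ≤ B := by
    intro t ht
    have h1 := hfin t ht
    have h2 : ‖z t‖ ^ 2 ≤ C7 * L := h1.trans (by gcongr)
    have h3 : ‖z t‖ ≤ √(C7 * L) := Real.le_sqrt_of_sq_le h2
    rw [hB]; linarith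
  obtain ⟨h1, -, h2⟩ := hbd H K W m C t0 T F F1 u u1 z z1 Fr Un ht0 ht0T (by linarith) hF S hFb
    hFG hzB
  exact ⟨hzB, h1, h2⟩

end Pool.Agent.X187.NSC
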