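import Pool.Agent.X187.NSC.Bridge
import Pool.Agent.W52.TQ.Univ

/-!
Public definitions: data for the Navier-Stokes equations in a bounded domain.
-/

set_option autoImplicit false

open MeasureTheory Set Filter Topology
open scoped InnerProductSpace ENNReal ContDiff

namespace Pool.Agent.X187.NSD

open H772R2.NS.Pub

/-- Data for the Navier-Stokes equations in `Ω`: the initial velocity `u₀`, its gradient `G₀`, the
force `F`, its time derivative `F'`, and the initial acceleration `g`. -/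
structure Data (Ω : Set R3) where
  u₀ : L2 Ω R3
  G₀ : L2 Ω Mat
  F : ℝ → L2 Ω Mat
  F' : ℝ → L2 Ω Mat
  g : L2 Ω R3

/-- The data are admissible on `[0,T]`: `u₀ ∈ V = H¹_{0,σ}(Ω)` and `G₀ = ∇u₀`, the force
`⟨f(t), φ⟩ = (F(t), ∇φ)` has `F ∈ H¹(0,T; L²)` with the derivative `F'`, and
`νΔu₀ - (u₀·∇)u₀ + f(0) = g ∈ L²` up to a gradient. -/
structure Data.Admissible {Ω : Set R3} (ν T : ℝ) (d : Data Ω) : Prop where
  grad : (d.u₀, d.G₀) ∈ H1graph Ω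
  force : IsH1 T d.F d.F'
  comp : ∀ φ, IsTest Ω φ → rhs ν d.u₀ d.G₀ (d.F 0) φ = ∫ x in Ω, ⟪d.g.fn x, φ x⟫_ℝ

/-- There is a strong solution on `[0,T]` with the data `d`. -/
def Data.Regular {Ω : Set R3} (ν T : ℝ) (d : Data Ω) : Prop :=
  ∃ u u' G G', IsStrong Ω ν T d.F u u' G G' ∧ u 0 = d.u₀

/-- The size of the data: `‖∇u₀‖² + ‖F(0)‖² + ∫₀ᵀ ‖F'‖² + ‖g‖²`. -/
noncomputable def Data.size {Ω : Set R3} (T : ℝ) (d : Data Ω) : ℝ :=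
  ‖d.G₀‖ ^ 2 + ‖d.F 0‖ ^ 2 + (∫ t in (0 : ℝ)..T, ‖d.F' t‖ ^ 2) + ‖d.g‖ ^ 2

/-- The square of the distance of two data in the same norm. -/
noncomputable def Data.dist2 {Ω : Set R3} (T : ℝ) (d e : Data Ω) : ℝ :=
  ‖d.G₀ - e.G₀‖ ^ 2 + ‖d.F 0 - e.F 0‖ ^ 2 + (∫ t in (0 : ℝ)..T, ‖d.F' t - e.F' t‖ ^ 2)
    + ‖d.g - e.g‖ ^ 2

end Pool.Agent.X187.NSD

namespace Pool.Agent.X187.NSC

open H772R2.NS H772R2.NS.Pub H772R2.NSR
open Pool.Agent.W795.TQ Pool.Agent.X187.NSD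

/-- the data in the abstract frame -/
def toDat {Ω : Set E3} (d : Data (show Set R3 from Ω)) : Dat (L2V Ω) (L2M Ω) :=
  ⟨d.u₀, d.G₀, d.F, d.F', d.g⟩

def ofDat {Ω : Set E3} (d : Dat (L2V Ω) (L2M Ω)) : Data (show Set R3 from Ω) :=
  ⟨d.x, d.z, d.F, d.F1, d.g⟩

theorem adm_iff {Ω : Set E3} (hΩ : IsOpen Ω) {ν T : ℝ} (d : Data (show Set R3 from Ω)) :
    Adm (graphW Ω) tensL ν T (toDat d) ↔ d.Admissible ν T := by
  constructor
  · rintro ⟨h1, h2, h3⟩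
    exact ⟨mem_pub.mp h1, ⟨h2.memLp, h2.prim⟩, (comp_iff hΩ h1).mpr h3⟩
  · rintro ⟨h1, h2, h3⟩
    exact ⟨mem_pub.mpr h1, ⟨h2.memLp, h2.prim⟩, (comp_iff hΩ (mem_pub.mpr h1)).mp h3⟩

theorem good_iff {Ω : Set E3} (hΩ : IsOpen Ω) {C ν T : ℝ}
    (Fr : Frame (graphW Ω) (tensL (Ω := Ω)) C) (hT : 0 < T) (d : Data (show Set R3 from Ω))
    (hd : Adm (graphW Ω) tensL ν T (toDat d)) :
    Good (graphW Ω) tensL ν T (toDat d) ↔ d.Regular ν T := by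
  constructor
  · rintro ⟨u, u1, z, z1, S, h0⟩
    exact ⟨u, u1, z, z1, strong_of_str hΩ hT S fun _ _ => rfl, h0⟩
  · rintro ⟨u, u1, z, z1, S, h0⟩
    exact ⟨u, u1, z, z1, str_of_strong hΩ Fr hT hd.force S, h0⟩

end Pool.Agent.X187.NSC
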