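import Mathlib

/-!
Real-variable lemmas for the compactness of strong solutions.
-/

set_option autoImplicit false

open MeasureTheory Set Filter Topology

namespace Pool.Agent.X187.NSC

/-- Gronwall's inequality for an integrable function, almost everywhere. -/
theorem gron_ae {r τ α : ℝ} {φ κ : ℝ → ℝ} (hrτ : r ≤ τ)
    (hφ : IntegrableOn φ (Ioc r τ)) (hφ0 : ∀ t, 0 ≤ φ t)
    (hκ : ContinuousOn κ (Icc r τ)) (hκ0 : ∀ t, 0 ≤ κ t)
    (h : ∀ᵐ t ∂(volume.restrict (Ioc r τ)), φ t ≤ α + ∫ s in r..t, κ s * φ s) :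
    ∀ᵐ t ∂(volume.restrict (Ioc r τ)), φ t ≤ α * Real.exp (∫ s in r..t, κ s) := by
  -- `κ φ` is integrable
  obtain ⟨Kb, hKb⟩ := (isCompact_Icc.image_of_continuousOn hκ).isBounded.exists_norm_le
  have hκφ : IntegrableOn (fun s => κ s * φ s) (Ioc r τ) := by
    have h1 : AEStronglyMeasurable κ (volume.restrict (Ioc r τ)) :=
      (hκ.mono Ioc_subset_Icc_self).aestronglyMeasurable measurableSet_Ioc
    refine (hφ.norm.const_mul Kb).mono' (h1.mul hφ.aestronglyMeasurable) ?_
    filter_upwards [ae_restrict_mem measurableSet_Ioc] with s hs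
    rw [norm_mul]
    gcongr
    exact hKb _ ⟨s, Ioc_subset_Icc_self hs, rfl⟩
  set Ψ : ℝ → ℝ := fun t => ∫ s in r..t, κ s * φ s with hΨ
  have hΨc : ContinuousOn Ψ (Icc r τ) := by
    have h1 : IntegrableOn (fun s => κ s * φ s) (Icc r τ) := by
      rwa [integrableOn_Icc_iff_integrableOn_Ioc]
    have := intervalIntegral.continuousOn_primitive_interval (f := fun s => κ s * φ s) (a := r)
      (b := τ) (μ := volume) (by rwa [uIcc_of_le hrτ])
    rwa [uIcc_of_le hrτ] at this
  have hgc : ContinuousOn (fun s => κ s * (α + Ψ s)) (Icc r τ) :=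
    hκ.mul (continuousOn_const.add hΨc)
  set Y : ℝ → ℝ := fun t => ∫ s in r..t, κ s * (α + Ψ s) with hY
  have hII : ∀ {k : ℝ → ℝ}, ContinuousOn k (Icc r τ) → ∀ t ∈ Icc r τ,
      IntervalIntegrable k volume r t := fun hk t ht =>
    ContinuousOn.intervalIntegrable (by
      rw [uIcc_of_le ht.1]; exact hk.mono (Icc_subset_Icc_right ht.2))
  have hΨY : ∀ t ∈ Icc r τ, Ψ t ≤ Y t := by
    intro t ht
    have hi1 : IntervalIntegrable (fun s => κ s * φ s) volume r t := by
      rw [intervalIntegrable_iff_integrableOn_Ioc_of_le ht.1]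
      exact hκφ.mono_set (Ioc_subset_Ioc_right ht.2)
    refine intervalIntegral.integral_mono_ae_restrict ht.1 hi1 (hII hgc t ht) ?_
    rw [Filter.EventuallyLE, ← restrict_Ioc_eq_restrict_Icc]
    have := ae_mono (Measure.restrict_mono (Ioc_subset_Ioc_right ht.2) le_rfl) h
    filter_upwards [this] with s hs
    exact mul_le_mul_of_nonneg_left hs (hκ0 s)
  have hIc : ∀ {k : ℝ → ℝ}, ContinuousOn k (Icc r τ) →
      ContinuousOn (fun t => ∫ s in r..t, k s) (Icc r τ) := by
    intro k hk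
    have h1 : IntegrableOn k (uIcc r τ) := by
      rw [uIcc_of_le hrτ]; exact hk.integrableOn_Icc
    have := intervalIntegral.continuousOn_primitive_interval (f := k) (a := r)
      (b := τ) (μ := volume) h1
    rwa [uIcc_of_le hrτ] at this
  have hId : ∀ {k : ℝ → ℝ}, ContinuousOn k (Icc r τ) → ∀ t ∈ Ioo r τ,
      HasDerivAt (fun t => ∫ s in r..t, k s) (k t) t := by
    intro k hk t ht
    refine intervalIntegral.integral_hasDerivAt_right (hII hk t (Ioo_subset_Icc_self ht))
      ?_ ((hk t (Ioo_subset_Icc_self ht)).continuousAt (Icc_mem_nhds ht.1 ht.2))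
    exact (hk.mono Ioo_subset_Icc_self).stronglyMeasurableAtFilter isOpen_Ioo t ht
  have hYb : ∀ t ∈ Icc r τ, α + Y t ≤ α * Real.exp (∫ s in r..t, κ s) := by
    intro t ht
    have hanti : AntitoneOn (fun t => (α + Y t) * Real.exp (-∫ s in r..t, κ s)) (Icc r τ) := by
      refine antitoneOn_of_deriv_nonpos (convex_Icc r τ) ?_ ?_ ?_
      · exact (continuousOn_const.add (hIc hgc)).mul
          (Real.continuous_exp.comp_continuousOn (hIc hκ).neg)
      · intro s hs
        rw [interior_Icc] at hs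
        exact (((hId hgc s hs).const_add α).mul ((hId hκ s hs).neg.exp)).differentiableAt.differentiableWithinAt
      · intro s hs
        rw [interior_Icc] at hs
        have hd := ((hId hgc s hs).const_add α).mul ((hId hκ s hs).neg.exp)
        have hd' : HasDerivAt (fun t => (α + Y t) * Real.exp (-∫ s in r..t, κ s)) _ s := hd
        rw [hd'.deriv]
        have h1 := hΨY s (Ioo_subset_Icc_self hs)
        have h2 : 0 ≤ Real.exp (-∫ s in r..s, κ s) := (Real.exp_pos _).le
        have h3 : 0 ≤ κ s * Real.exp (-∫ s in r..s, κ s) * (Y s - Ψ s) :=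
          mul_nonneg (mul_nonneg (hκ0 s) h2) (by linarith)
        have e3 : κ s * (α + Ψ s) * Real.exp ((-fun t => ∫ (s : ℝ) in r..t, κ s) s) +
            (α + ∫ (s : ℝ) in r..s, κ s * (α + Ψ s)) *
              (Real.exp ((-fun t => ∫ (s : ℝ) in r..t, κ s) s) * -κ s)
            = -(κ s * Real.exp (-∫ s in r..s, κ s) * (Y s - Ψ s)) := by
          show κ s * (α + Ψ s) * Real.exp (-∫ (s : ℝ) in r..s, κ s) +
            (α + Y s) * (Real.exp (-∫ (s : ℝ) in r..s, κ s) * -κ s) = _
          ring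
        refine le_of_eq_of_le e3 ?_
        linarith
    have h1 := hanti (left_mem_Icc.2 hrτ) ht ht.1
    simp only [hY, intervalIntegral.integral_same, neg_zero, Real.exp_zero, mul_one, add_zero] at h1
    rw [Real.exp_neg, ← div_eq_mul_inv, div_le_iff₀ (Real.exp_pos _)] at h1
    exact h1
  filter_upwards [h, ae_restrict_mem measurableSet_Ioc] with t ht hts
  have h1 := hΨY t (Ioc_subset_Icc_self hts)
  have h2 := hYb t (Ioc_subset_Icc_self hts)
  linarith

theorem young_sqrt {a b s θ : ℝ} (ha : 0 ≤ a) (hb : 0 ≤ b) (hs : 0 < s) (hθ : 0 < θ) :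
    √a * √b ≤ θ / 4 * a ^ 2 + θ / 4 * (s * b ^ 2) + 1 / (2 * θ) * (1 / √s) := by
  set P := √a * √b with hP
  have hP0 : 0 ≤ P := by positivity
  have hP2 : P ^ 2 = a * b := by rw [hP, mul_pow, Real.sq_sqrt ha, Real.sq_sqrt hb]
  have hs0 : 0 < √s := Real.sqrt_pos.2 hs
  have hs2 : √s ^ 2 = s := Real.sq_sqrt hs.le
  have h1 : √s * P ^ 2 ≤ (a ^ 2 + s * b ^ 2) / 2 := by
    rw [hP2]
    nlinarith [sq_nonneg (a - √s * b)]
  have h2 : P ≤ θ * √s * P ^ 2 / 2 + 1 / (2 * θ) * (1 / √s) := by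
    have h3 : 0 ≤ (θ * √s * P - 1) ^ 2 / (2 * θ * √s) := by positivity
    have h4 : (θ * √s * P - 1) ^ 2 / (2 * θ * √s)
        = θ * √s * P ^ 2 / 2 - P + 1 / (2 * θ) * (1 / √s) := by field_simp; ring
    linarith
  nlinarith

theorem int_inv_sqrt (t0 t : ℝ) :
    IntervalIntegrable (fun s => 1 / √(s - t0)) volume t0 t ∧
    ∫ s in t0..t, 1 / √(s - t0) = 2 * √(t - t0) := by
  have e : (fun s : ℝ => 1 / √(s - t0)) = fun s => (fun x : ℝ => x ^ (-(1 / 2) : ℝ)) (s - t0) := by
    funext s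
    by_cases hs : 0 ≤ s - t0
    · show _ = (s - t0) ^ (-(1 / 2) : ℝ)
      rw [Real.rpow_neg hs, ← Real.sqrt_eq_rpow, one_div]
    · push Not at hs
      have h1 : √(s - t0) = 0 := Real.sqrt_eq_zero_of_nonpos hs.le
      show _ = (s - t0) ^ (-(1 / 2) : ℝ)
      rw [h1, Real.rpow_def_of_neg hs]
      have : Real.cos (-(1 / 2) * Real.pi) = 0 := by
        rw [show -(1 / 2) * Real.pi = -(Real.pi / 2) by ring, Real.cos_neg, Real.cos_pi_div_two]
      rw [this]; simp
  constructor
  · rw [e]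
    have h1 : IntervalIntegrable (fun x : ℝ => x ^ (-(1 / 2) : ℝ)) volume (t0 - t0) (t - t0) :=
      intervalIntegral.intervalIntegrable_rpow' (by norm_num)
    have := h1.comp_sub_right t0
    simpa using this
  · rw [e, intervalIntegral.integral_comp_sub_right (fun x : ℝ => x ^ (-(1 / 2) : ℝ)),
      integral_rpow (Or.inl (by norm_num))]
    have : (-(1 / 2) + 1 : ℝ) = 1 / 2 := by norm_num
    rw [this, sub_self, Real.zero_rpow (by norm_num), ← Real.sqrt_eq_rpow]
    ring

end Pool.Agent.X187.NSC
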