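import Pool.Agent.X187.NSC.Real

set_option autoImplicit false

open MeasureTheory Set Filter Topology

namespace Pool.Agent.X187.NSC

theorem ae_le_all {a b M : ℝ} {f : ℝ → ℝ} (hab : a < b) (hf : ContinuousOn f (Icc a b))
    (h : ∀ᵐ t ∂(volume.restrict (Ioc a b)), f t ≤ M) : ∀ t ∈ Icc a b, f t ≤ M := by
  have h1 : EqOn (fun t => max (f t) M) (fun _ => M) (Icc a b) := by
    refine MeasureTheory.Measure.eqOn_Icc_of_ae_eq (μ := volume) hab.ne ?_
      (hf.sup continuousOn_const) continuousOn_const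
    rw [← restrict_Ioc_eq_restrict_Icc]
    filter_upwards [h] with t ht
    exact max_eq_right ht
  intro t ht
  have := h1 ht
  simp only at this
  exact (le_max_left _ _).trans this.le

theorem ii_Ioc {f : ℝ → ℝ} {a b t : ℝ} (hf : IntegrableOn f (Ioc a b)) (ht : t ∈ Icc a b) :
    IntervalIntegrable f volume a t := by
  rw [intervalIntegrable_iff_integrableOn_Ioc_of_le ht.1]
  exact hf.mono_set (Ioc_subset_Ioc_right ht.2)

theorem int_mono_right {f : ℝ → ℝ} {a b t : ℝ} (hf : IntegrableOn f (Ioc a b))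
    (h0 : ∀ s, 0 ≤ f s) (ht : t ∈ Icc a b) : ∫ s in a..t, f s ≤ ∫ s in a..b, f s := by
  rw [intervalIntegral.integral_of_le ht.1, intervalIntegral.integral_of_le (ht.1.trans ht.2)]
  exact setIntegral_mono_set hf (Eventually.of_forall h0) (Ioc_subset_Ioc_right ht.2).eventuallyLE

set_option maxHeartbeats 4000000 in
/-- The bounds of `∂ₜu` and `∇∂ₜu` in terms of a bound of `∇u`. -/
theorem intB (c ν Φ G B T0 : ℝ) (hc : 0 < c) (hν : 0 < ν) (hΦ : 0 ≤ Φ) (hG : 0 ≤ G)
    (hB : 0 ≤ B) (hT0 : 0 < T0) :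
    ∃ A : ℝ, 0 < A ∧ ∀ (t0 T : ℝ) (a w g Y : ℝ → ℝ), t0 < T → T - t0 ≤ T0 →
      (∀ t, 0 ≤ a t) → (∀ t, 0 ≤ w t) → (∀ t, 0 ≤ g t) → (∀ t, 0 ≤ Y t) →
      MemLp a 2 (volume.restrict (Ioc t0 T)) → MemLp w 2 (volume.restrict (Ioc t0 T)) →
      MemLp g 2 (volume.restrict (Ioc t0 T)) → ContinuousOn Y (Icc t0 T) →
      (∀ t ∈ Icc t0 T, Y t ≤ B) → ∫ s in t0..T, g s ^ 2 ≤ G →
      (2 * (∫ s in t0..T, a s ^ 2) + ν * Y T ^ 2 ≤ ν * Y t0 ^ 2
        + 2 * c * (∫ s in t0..T, Y s ^ 2 * (√(a s) * √(w s)))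
        + 2 * Φ * (Y T + Y t0) + 2 * ∫ s in t0..T, g s * Y s) →
      (∀ᵐ t ∂(volume.restrict (Ioc t0 T)),
        (t - t0) * a t ^ 2 + ν * (∫ s in t0..t, (s - t0) * w s ^ 2)
          ≤ (∫ s in t0..t, a s ^ 2) + 2 / ν * ((T - t0) * G)
            + 14 * c ^ 4 / ν ^ 3 * ∫ s in t0..t, (s - t0) * (a s ^ 2 * Y s ^ 4)) →
      ∫ s in t0..T, a s ^ 2 ≤ A ∧ ∫ s in t0..T, (s - t0) * w s ^ 2 ≤ A ∧
        ∀ᵐ t ∂(volume.restrict (Ioc t0 T)), (t - t0) * a t ^ 2 ≤ A := by
  set K2 : ℝ := 2 / ν * (T0 * G) with hK2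
  set K3 : ℝ := 1 + 14 * c ^ 4 / ν ^ 3 * (T0 * B ^ 4) with hK3
  set θ : ℝ := 1 / (c * B ^ 2 * (1 + K3 / ν) + 1) with hθ
  have hK20 : 0 ≤ K2 := by positivity
  have hK30 : 0 < K3 := by positivity
  have hθ0 : 0 < θ := by positivity
  have hθ1 : c * B ^ 2 * (1 + K3 / ν) * θ ≤ 1 := by
    rw [hθ, mul_one_div, div_le_one (by positivity)]
    linarith
  set K1 : ℝ := ν * B ^ 2 + 2 * c * B ^ 2 * (√T0 / θ) + 4 * Φ * B + B * (G + T0) with hK1
  have hK10 : 0 ≤ K1 := by positivity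
  set A1 : ℝ := K1 + K2 / ν + 1 with hA1
  have hA10 : 0 < A1 := by positivity
  set A2 : ℝ := K2 + K3 * A1 with hA2
  have hA20 : 0 < A2 := by positivity
  refine ⟨A1 + A2 / ν + A2, by positivity, ?_⟩
  intro t0 T a w g Y htT hTT ha0 hw0 hg0 hY0 ham hwm hgm hYc hYB hgG e1 e2
  have hai : IntegrableOn (fun s => a s ^ 2) (Ioc t0 T) := ham.integrable_sq
  have hwi : IntegrableOn (fun s => w s ^ 2) (Ioc t0 T) := hwm.integrable_sq
  have hgi : IntegrableOn (fun s => g s ^ 2) (Ioc t0 T) := hgm.integrable_sq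
  have hYm : AEStronglyMeasurable Y (volume.restrict (Ioc t0 T)) :=
    (hYc.mono Ioc_subset_Icc_self).aestronglyMeasurable measurableSet_Ioc
  have hfin : IsFiniteMeasure (volume.restrict (Ioc t0 T) : Measure ℝ) := by
    rw [isFiniteMeasure_restrict]; simp
  have hTT0 : 0 < T - t0 := by linarith
  have hsm : AEStronglyMeasurable (fun s : ℝ => s - t0) (volume.restrict (Ioc t0 T)) :=
    (continuous_id.sub continuous_const).aestronglyMeasurable
  have hswi : IntegrableOn (fun s => (s - t0) * w s ^ 2) (Ioc t0 T) := by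
    refine (hwi.const_mul T0).mono' (hsm.mul hwi.aestronglyMeasurable) ?_
    filter_upwards [ae_restrict_mem measurableSet_Ioc] with s hs
    have h1 : 0 ≤ s - t0 := by linarith [hs.1]
    have h2 : s - t0 ≤ T0 := by linarith [hs.2]
    rw [Real.norm_of_nonneg (by positivity)]
    gcongr
  have hsai : IntegrableOn (fun s => (s - t0) * (a s ^ 2 * Y s ^ 4)) (Ioc t0 T) := by
    refine (hai.const_mul (T0 * B ^ 4)).mono'
      (hsm.mul (hai.aestronglyMeasurable.mul (hYm.pow 4))) ?_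
    filter_upwards [ae_restrict_mem measurableSet_Ioc] with s hs
    have h1 : 0 ≤ s - t0 := by linarith [hs.1]
    have h2 : s - t0 ≤ T0 := by linarith [hs.2]
    have h3 := hYB s (Ioc_subset_Icc_self hs)
    have h4 := hY0 s
    rw [Real.norm_of_nonneg (by positivity)]
    calc (s - t0) * (a s ^ 2 * Y s ^ 4) ≤ T0 * (a s ^ 2 * B ^ 4) := by gcongr
      _ = T0 * B ^ 4 * a s ^ 2 := by ring
  set A' : ℝ := ∫ s in t0..T, a s ^ 2 with hA'
  have hA'0 : 0 ≤ A' := intervalIntegral.integral_nonneg htT.le fun s _ => by positivity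
  -- second estimate
  have k2 : ∀ᵐ t ∂(volume.restrict (Ioc t0 T)),
      (t - t0) * a t ^ 2 + ν * (∫ s in t0..t, (s - t0) * w s ^ 2) ≤ K2 + K3 * A' := by
    filter_upwards [e2, ae_restrict_mem measurableSet_Ioc] with t ht hts
    have htI := Ioc_subset_Icc_self hts
    have h1 : ∫ s in t0..t, a s ^ 2 ≤ A' := int_mono_right hai (fun s => by positivity) htI
    have h2 : ∫ s in t0..t, (s - t0) * (a s ^ 2 * Y s ^ 4) ≤ T0 * B ^ 4 * A' := by
      have h3 : ∫ s in t0..t, (s - t0) * (a s ^ 2 * Y s ^ 4)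
          ≤ ∫ s in t0..t, T0 * B ^ 4 * a s ^ 2 := by
        refine intervalIntegral.integral_mono_on htI.1 (ii_Ioc hsai htI)
          ((ii_Ioc hai htI).const_mul _) ?_
        intro s hs
        have h1 : 0 ≤ s - t0 := by linarith [hs.1]
        have h2 : s - t0 ≤ T0 := by linarith [hs.2, htI.2]
        have h3 := hYB s ⟨hs.1, hs.2.trans htI.2⟩
        have h4 := hY0 s
        calc (s - t0) * (a s ^ 2 * Y s ^ 4) ≤ T0 * (a s ^ 2 * B ^ 4) := by gcongr
          _ = T0 * B ^ 4 * a s ^ 2 := by ring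
      rw [intervalIntegral.integral_const_mul] at h3
      exact h3.trans (mul_le_mul_of_nonneg_left h1 (by positivity))
    have h4 : 2 / ν * ((T - t0) * G) ≤ K2 := by rw [hK2]; gcongr
    have h5 : 14 * c ^ 4 / ν ^ 3 * ∫ s in t0..t, (s - t0) * (a s ^ 2 * Y s ^ 4)
        ≤ 14 * c ^ 4 / ν ^ 3 * (T0 * B ^ 4 * A') := by gcongr
    calc (t - t0) * a t ^ 2 + ν * (∫ s in t0..t, (s - t0) * w s ^ 2)
        ≤ (∫ s in t0..t, a s ^ 2) + 2 / ν * ((T - t0) * G)
            + 14 * c ^ 4 / ν ^ 3 * ∫ s in t0..t, (s - t0) * (a s ^ 2 * Y s ^ 4) := ht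
      _ ≤ A' + K2 + 14 * c ^ 4 / ν ^ 3 * (T0 * B ^ 4 * A') := by linarith
      _ = K2 + K3 * A' := by rw [hK3]; ring
  -- the second derivative
  have k3 : ν * ∫ s in t0..T, (s - t0) * w s ^ 2 ≤ K2 + K3 * A' := by
    have hcont : ContinuousOn (fun t => ν * ∫ s in t0..t, (s - t0) * w s ^ 2) (Icc t0 T) := by
      have := intervalIntegral.continuousOn_primitive_interval
        (f := fun s => (s - t0) * w s ^ 2) (a := t0) (b := T) (μ := volume)
        (by rw [uIcc_of_le htT.le, integrableOn_Icc_iff_integrableOn_Ioc]; exact hswi)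
      rw [uIcc_of_le htT.le] at this
      exact continuousOn_const.mul this
    refine ae_le_all htT hcont ?_ T (right_mem_Icc.2 htT.le)
    filter_upwards [k2, ae_restrict_mem measurableSet_Ioc] with t ht hts
    have : 0 ≤ (t - t0) * a t ^ 2 := mul_nonneg (by linarith [hts.1]) (by positivity)
    linarith
  set Bq : ℝ := ∫ s in t0..T, (s - t0) * w s ^ 2 with hBq
  have k3' : Bq ≤ (K2 + K3 * A') / ν := by rw [le_div_iff₀ hν]; linarith
  -- first estimate
  have k1 : ∫ s in t0..T, Y s ^ 2 * (√(a s) * √(w s))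
      ≤ B ^ 2 * (θ / 4 * A' + θ / 4 * Bq + √T0 / θ) := by
    have hq := int_inv_sqrt t0 T
    have hi2 : IntegrableOn (fun s => θ / 4 * a s ^ 2 + θ / 4 * ((s - t0) * w s ^ 2)
        + 1 / (2 * θ) * (1 / √(s - t0))) (Ioc t0 T) := by
      refine ((hai.const_mul _).add (hswi.const_mul _)).add ?_
      have := (intervalIntegrable_iff_integrableOn_Ioc_of_le htT.le).1 hq.1
      exact this.const_mul _
    have hle : ∀ᵐ s ∂(volume.restrict (Ioc t0 T)), Y s ^ 2 * (√(a s) * √(w s))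
        ≤ B ^ 2 * (θ / 4 * a s ^ 2 + θ / 4 * ((s - t0) * w s ^ 2)
          + 1 / (2 * θ) * (1 / √(s - t0))) := by
      filter_upwards [ae_restrict_mem measurableSet_Ioc] with s hs
      have h1 := young_sqrt (ha0 s) (hw0 s) (show 0 < s - t0 by linarith [hs.1]) hθ0
      have h3 := hYB s (Ioc_subset_Icc_self hs)
      have h4 := hY0 s
      have h5 : 0 ≤ √(a s) * √(w s) := by positivity
      calc Y s ^ 2 * (√(a s) * √(w s)) ≤ B ^ 2 * (√(a s) * √(w s)) := by gcongr
        _ ≤ _ := by gcongr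
    have hi1 : IntegrableOn (fun s => Y s ^ 2 * (√(a s) * √(w s))) (Ioc t0 T) := by
      refine (hi2.const_mul (B ^ 2)).mono' ?_ ?_
      · exact (hYm.pow 2).mul ((Real.continuous_sqrt.comp_aestronglyMeasurable
          ham.aestronglyMeasurable).mul (Real.continuous_sqrt.comp_aestronglyMeasurable
          hwm.aestronglyMeasurable))
      · filter_upwards [hle] with s hs
        rw [Real.norm_of_nonneg (by positivity)]
        exact hs
    rw [intervalIntegral.integral_of_le htT.le]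
    refine (integral_mono_ae hi1 (hi2.const_mul (B ^ 2)) hle).trans ?_
    rw [integral_const_mul]
    refine mul_le_mul_of_nonneg_left ?_ (by positivity)
    have hia : IntegrableOn (fun s => θ / 4 * a s ^ 2) (Ioc t0 T) := hai.const_mul _
    have hiw : IntegrableOn (fun s => θ / 4 * ((s - t0) * w s ^ 2)) (Ioc t0 T) :=
      hswi.const_mul _
    have hiq : IntegrableOn (fun s => 1 / (2 * θ) * (1 / √(s - t0))) (Ioc t0 T) :=
      ((intervalIntegrable_iff_integrableOn_Ioc_of_le htT.le).1 hq.1).const_mul _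
    have haw : IntegrableOn (fun s => θ / 4 * a s ^ 2 + θ / 4 * ((s - t0) * w s ^ 2))
      (Ioc t0 T) := hia.add hiw
    rw [integral_add haw hiq, integral_add hia hiw, integral_const_mul,
      integral_const_mul, integral_const_mul, ← intervalIntegral.integral_of_le htT.le,
      ← intervalIntegral.integral_of_le htT.le, ← intervalIntegral.integral_of_le htT.le, hq.2]
    have h6 : 1 / (2 * θ) * (2 * √(T - t0)) = √(T - t0) / θ := by field_simp
    have h7 : √(T - t0) / θ ≤ √T0 / θ := by gcongr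
    rw [h6]
    linarith
  -- the force
  have k4 : ∫ s in t0..T, g s * Y s ≤ B * (G + T0) / 2 := by
    have hle : ∀ s ∈ Icc t0 T, g s * Y s ≤ B / 2 * (g s ^ 2 + 1) := by
      intro s hs
      have h1 := hYB s hs
      have h2 := hg0 s
      have h3 : g s * Y s ≤ g s * B := by gcongr
      nlinarith [mul_nonneg hB (sq_nonneg (g s - 1))]
    have hi : IntegrableOn (fun s => B / 2 * (g s ^ 2 + 1)) (Ioc t0 T) :=
      (hgi.add (integrable_const (1 : ℝ))).const_mul _
    have hi1 : IntegrableOn (fun s => g s * Y s) (Ioc t0 T) := by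
      refine hi.mono' (hgm.aestronglyMeasurable.mul hYm) ?_
      filter_upwards [ae_restrict_mem measurableSet_Ioc] with s hs
      rw [Real.norm_of_nonneg (mul_nonneg (hg0 s) (hY0 s))]
      exact hle s (Ioc_subset_Icc_self hs)
    have htTm : T ∈ Icc t0 T := right_mem_Icc.2 htT.le
    have h1 := intervalIntegral.integral_mono_on htT.le (ii_Ioc hi1 htTm) (ii_Ioc hi htTm) hle
    rw [intervalIntegral.integral_const_mul, intervalIntegral.integral_add
      (ii_Ioc hgi htTm) (by simp)] at h1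
    simp only [intervalIntegral.integral_const, smul_eq_mul, mul_one] at h1
    refine h1.trans ?_
    have : B / 2 * ((∫ s in t0..T, g s ^ 2) + (T - t0)) ≤ B / 2 * (G + T0) := by gcongr
    linarith
  have hYT := hYB T (right_mem_Icc.2 htT.le)
  have hYt := hYB t0 (left_mem_Icc.2 htT.le)
  have hYT0 := hY0 T
  have hYt0 := hY0 t0
  have k5 : A' ≤ A1 := by
    have h1 : ν * Y t0 ^ 2 ≤ ν * B ^ 2 := by gcongr
    have h2 : 2 * Φ * (Y T + Y t0) ≤ 4 * Φ * B := by
      calc 2 * Φ * (Y T + Y t0) ≤ 2 * Φ * (B + B) := by gcongr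
        _ = 4 * Φ * B := by ring
    have h3 : 2 * c * (∫ s in t0..T, Y s ^ 2 * (√(a s) * √(w s)))
        ≤ 2 * c * (B ^ 2 * (θ / 4 * A' + θ / 4 * Bq + √T0 / θ)) := by gcongr
    have h4 : 2 * c * (B ^ 2 * (θ / 4 * A' + θ / 4 * Bq + √T0 / θ))
        ≤ 2 * c * (B ^ 2 * (θ / 4 * A' + θ / 4 * ((K2 + K3 * A') / ν) + √T0 / θ)) := by gcongr
    have h5 : 2 * c * (B ^ 2 * (θ / 4 * A' + θ / 4 * ((K2 + K3 * A') / ν) + √T0 / θ))
        = (c * B ^ 2 * (1 + K3 / ν) * θ) * (A' / 2) + c * B ^ 2 * θ * (K2 / ν / 2)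
          + 2 * c * B ^ 2 * (√T0 / θ) := by field_simp; ring
    have h6 : (c * B ^ 2 * (1 + K3 / ν) * θ) * (A' / 2) ≤ 1 * (A' / 2) := by gcongr
    have h7 : c * B ^ 2 * θ ≤ 1 := by
      refine le_trans ?_ hθ1
      have h8 : 0 ≤ K3 / ν := by positivity
      have h9 : (1 : ℝ) ≤ 1 + K3 / ν := by linarith
      calc c * B ^ 2 * θ = c * B ^ 2 * 1 * θ := by ring
        _ ≤ c * B ^ 2 * (1 + K3 / ν) * θ := by gcongr
    have h8 : c * B ^ 2 * θ * (K2 / ν / 2) ≤ 1 * (K2 / ν / 2) := by gcongr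
    have h9 : 0 ≤ ν * Y T ^ 2 := by positivity
    have h10 : 0 ≤ K2 / ν := by positivity
    rw [hA1, hK1]
    rw [hK1] at hK10
    linarith
  have k6 : K2 + K3 * A' ≤ A2 := by rw [hA2]; gcongr
  have hA2ν : 0 < A2 / ν := by positivity
  refine ⟨by linarith, ?_, ?_⟩
  · have h1 : Bq ≤ A2 / ν := k3'.trans (by gcongr)
    linarith
  · filter_upwards [k2, ae_restrict_mem measurableSet_Ioc] with t ht hts
    have h1 : 0 ≤ ∫ s in t0..t, (s - t0) * w s ^ 2 :=
      intervalIntegral.integral_nonneg hts.1.le fun s hs =>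
        mul_nonneg (by linarith [hs.1]) (by positivity)
    have h2 : 0 ≤ ν * ∫ s in t0..t, (s - t0) * w s ^ 2 := by positivity
    linarith

end Pool.Agent.X187.NSC
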