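import Pool.Agent.X187.NSC.Core
import Pool.Agent.W933.HE.ShiftCont
import Pool.Agent.W405.HE.Cmp

set_option autoImplicit false

open MeasureTheory Set Filter Topology
open scoped InnerProductSpace

namespace Pool.Agent.X187.NSC

open H772R2.NSR (Frame prim_cont)
open H772R2.NSG (LH Coef mem_cont int_inner ii_of_int)
open Pool.Agent.W795.TQ
open Pool.Agent.W795.HE (SE)

section

variable {H K : Type} [NormedAddCommGroup H] [InnerProductSpace ℝ H] [CompleteSpace H]
  [NormedAddCommGroup K] [InnerProductSpace ℝ K] [CompleteSpace K]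
  {W : Submodule ℝ (H × K)} {m : H → K} {C c ν T : ℝ} {F F1 : ℝ → K} {u u1 : ℝ → H}
  {z z1 : ℝ → K}

/-- the energy equality between two times -/
theorem str_energy_ab (hF : FH T F F1) (S : Str W m ν T F u u1 z z1) {a b : ℝ}
    (ha : 0 ≤ a) (hab : a ≤ b) (hb : b ≤ T) :
    ‖u b‖ ^ 2 / 2 + ν * (∫ r in a..b, ‖z r‖ ^ 2) = ‖u a‖ ^ 2 / 2 + ∫ r in a..b, ⟪F r, z r⟫_ℝ := by
  have hzc : ContinuousOn z (Icc 0 T) := prim_cont S.z1m S.pz
  have hFc : ContinuousOn F (Icc 0 T) := prim_cont hF.memLp hF.prim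
  have ii : ∀ {f : ℝ → ℝ}, ContinuousOn f (Icc 0 T) → ∀ t ∈ Icc 0 T,
      IntervalIntegrable f volume 0 t := fun hf t ht =>
    ContinuousOn.intervalIntegrable (by
      rw [uIcc_of_le ht.1]; exact hf.mono (Icc_subset_Icc_right ht.2))
  have hA : a ∈ Icc 0 T := ⟨ha, hab.trans hb⟩
  have hB : b ∈ Icc 0 T := ⟨ha.trans hab, hb⟩
  have e1 := S.energy a hA
  have e2 := S.energy b hB
  have c1 : ContinuousOn (fun r => ‖z r‖ ^ 2) (Icc 0 T) := hzc.norm.pow 2
  have c2 : ContinuousOn (fun r => ⟪F r, z r⟫_ℝ) (Icc 0 T) := hFc.inner hzc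
  have i1 := intervalIntegral.integral_interval_sub_left (ii c1 b hB) (ii c1 a hA)
  have i2 := intervalIntegral.integral_interval_sub_left (ii c2 b hB) (ii c2 a hA)
  rw [← i1, ← i2]
  linarith

/-- strong solutions, restarted -/
theorem str_shift (Fr : Frame W m C) (hF : FH T F F1) (S : Str W m ν T F u u1 z z1) {s : ℝ}
    (hs : 0 ≤ s) (hsT : s ≤ T) :
    Str W m ν (T - s) (fun t => F (s + t)) (fun t => u (s + t)) (fun t => u1 (s + t))
      (fun t => z (s + t)) (fun t => z1 (s + t)) := by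
  have hsub : Ioc s (s + (T - s)) ⊆ Ioc 0 T := Ioc_subset_Ioc hs (by linarith)
  have hle : (volume.restrict (Ioc s (s + (T - s))) : Measure ℝ) ≤ volume.restrict (Ioc 0 T) :=
    Measure.restrict_mono hsub le_rfl
  have hmp := Pool.Agent.W933.HE.mp s (T - s)
  obtain ⟨b, hb⟩ := S.bd
  refine ⟨?_, ?_, ⟨b, ?_⟩, ?_, ?_, ?_, ?_, ?_, ?_⟩
  · exact fun t ht => S.mem (s + t) ⟨by linarith [ht.1], by linarith [ht.2]⟩
  · exact hmp.quasiMeasurePreserving.ae (ae_mono hle S.mem1)
  · exact hmp.quasiMeasurePreserving.ae (ae_mono hle hb)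
  · exact (S.u1m.mono_measure hle).comp_measurePreserving hmp
  · exact (S.z1m.mono_measure hle).comp_measurePreserving hmp
  · intro a b ha hab hb
    rw [intervalIntegral.integral_comp_add_left (fun r => u1 r) s]
    exact S.pu _ _ (by linarith) (by linarith) (by linarith)
  · intro a b ha hab hb
    rw [intervalIntegral.integral_comp_add_left (fun r => z1 r) s]
    exact S.pz _ _ (by linarith) (by linarith) (by linarith)
  · intro p hp t ht
    rw [intervalIntegral.integral_comp_add_left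
      (fun r => ⟪F r - ν • z r + m (u r), p.2⟫_ℝ) s, add_zero]
    exact str_weak_ab Fr hF S hp hs (by linarith [ht.1]) (by linarith [ht.2])
  · intro t ht
    rw [intervalIntegral.integral_comp_add_left (fun r => ‖z r‖ ^ 2) s,
      intervalIntegral.integral_comp_add_left (fun r => ⟪F r, z r⟫_ℝ) s, add_zero]
    exact str_energy_ab hF S hs (by linarith [ht.1]) (by linarith [ht.2])

omit [CompleteSpace H] in
theorem FH.shift (hF : FH T F F1) {s T' : ℝ} (hs : 0 ≤ s) (hsT : s + T' ≤ T) :
    FH T' (fun t => F (s + t)) (fun t => F1 (s + t)) := by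
  have hle : (volume.restrict (Ioc s (s + T')) : Measure ℝ) ≤ volume.restrict (Ioc 0 T) :=
    Measure.restrict_mono (Ioc_subset_Ioc hs hsT) le_rfl
  refine ⟨(hF.memLp.mono_measure hle).comp_measurePreserving (Pool.Agent.W933.HE.mp s T'), ?_⟩
  intro a b ha hab hb
  rw [intervalIntegral.integral_comp_add_left (fun r => F1 r) s]
  exact hF.prim _ _ (by linarith) (by linarith) (by linarith)

omit [CompleteSpace H] [CompleteSpace K] in
/-- the force matters only on the interval -/
theorem str_congrF {F' : ℝ → K} (S : Str W m ν T F u u1 z z1) (h : ∀ t ∈ Icc 0 T, F' t = F t) :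
    Str W m ν T F' u u1 z z1 := by
  refine ⟨S.mem, S.mem1, S.bd, S.u1m, S.z1m, S.pu, S.pz, ?_, ?_⟩
  · intro p hp t ht
    rw [S.weak p hp t ht]
    refine intervalIntegral.integral_congr fun s hs => ?_
    rw [uIcc_of_le ht.1] at hs
    rw [h s ⟨hs.1, hs.2.trans ht.2⟩]
  · intro t ht
    rw [S.energy t ht]
    congr 1
    refine intervalIntegral.integral_congr fun s hs => ?_
    rw [uIcc_of_le ht.1] at hs
    rw [h s ⟨hs.1, hs.2.trans ht.2⟩]

/-- The force, extended by a constant. -/
theorem ext_FH {T' : ℝ} (h0 : 0 ≤ T') (hT : T' ≤ T) (hF : FH T' F F1) :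
    FH T (fun t => F (min t T')) ((Ioc 0 T').indicator F1) ∧
    (∫ s in (0 : ℝ)..T, ‖(Ioc 0 T').indicator F1 s‖ ^ 2) = ∫ s in (0 : ℝ)..T', ‖F1 s‖ ^ 2 := by
  have hre : (volume.restrict (Ioc 0 T)).restrict (Ioc 0 T') = volume.restrict (Ioc 0 T') := by
    rw [Measure.restrict_restrict measurableSet_Ioc]
    congr 1
    exact inter_eq_left.2 (Ioc_subset_Ioc_right hT)
  refine ⟨⟨?_, ?_⟩, ?_⟩
  · rw [memLp_indicator_iff_restrict measurableSet_Ioc, hre]
    exact hF.memLp
  · intro a b ha hab hb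
    have h1 : min a T' ≤ min b T' := min_le_min_right _ hab
    have h2 := hF.prim (min a T') (min b T') (le_min ha h0) h1 (min_le_right _ _)
    rw [h2, intervalIntegral.integral_of_le hab, intervalIntegral.integral_of_le h1,
      setIntegral_indicator measurableSet_Ioc]
    congr 2
    ext x
    simp only [mem_Ioc, mem_inter_iff, min_lt_iff, le_min_iff]
    constructor
    · rintro ⟨h3 | h3, h4, h5⟩
      · exact ⟨⟨h3, h4⟩, by linarith, h5⟩
      · exact absurd h5 (not_le.2 h3)
    · rintro ⟨⟨h3, h4⟩, h5, h6⟩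
      exact ⟨Or.inl h3, h4, h6⟩
  · have e : (fun s => ‖(Ioc 0 T').indicator F1 s‖ ^ 2)
        = (Ioc 0 T').indicator (fun s => ‖F1 s‖ ^ 2) := by
      funext s
      by_cases hs : s ∈ Ioc 0 T'
      · rw [indicator_of_mem hs, indicator_of_mem hs]
      · rw [indicator_of_notMem hs, indicator_of_notMem hs]
        simp
    rw [intervalIntegral.integral_of_le (h0.trans hT), intervalIntegral.integral_of_le h0, e,
      setIntegral_indicator measurableSet_Ioc, inter_eq_right.2 (Ioc_subset_Ioc_right hT)]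

theorem str_toLH (Fr : Frame W m C) (hF : FH T F F1) (S : Str W m ν T F u u1 z z1) :
    LH W m T (fun _ => ν) F (u 0) u z := by
  have hzc : ContinuousOn z (Icc 0 T) := prim_cont S.z1m S.pz
  have huc : ContinuousOn u (Icc 0 T) := prim_cont S.u1m S.pu
  have hz2 : MemLp z 2 (volume.restrict (Ioc 0 T)) := mem_cont hzc
  refine ⟨rfl, (mem_cont (p := 2) huc).aestronglyMeasurable,
    (mem_cont (p := 2) (str_mc Fr hF S)).aestronglyMeasurable, ?_, hz2, ?_, S.weak, ?_⟩
  · filter_upwards [ae_restrict_mem measurableSet_Ioc] with t ht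
    exact S.mem t (Ioc_subset_Icc_self ht)
  · exact ((memLp_two_iff_integrable_sq_norm hz2.aestronglyMeasurable).mp hz2).const_mul ν
  · intro t ht
    rw [intervalIntegral.integral_const_mul]
    exact (S.energy t ht).le

theorem str_toSE (hF : FH T F F1) (S : Str W m ν T F u u1 z z1) : SE ν T F u z := by
  filter_upwards [ae_restrict_mem measurableSet_Ioc] with s hs
  intro t ht
  exact (str_energy_ab hF S hs.1.le ht.1 ht.2).le

end

end Pool.Agent.X187.NSC
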